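import Mathlib

/-! Basic definitions for the inverse deficiency problem (MP_6b834f_an):
unit vectors representing points of the Riemann sphere and the determinant pairing. -/

open Filter Topology Real

namespace IDP

/-- determinant pairing of two vectors of `ℂ²` -/
def det2 (v w : ℂ × ℂ) : ℂ := v.1 * w.2 - v.2 * w.1

/-- Unit vector representing a point of the Riemann sphere (`none` is `∞`). -/
noncomputable def vec : Option ℂ → ℂ × ℂ
  | none => (1, 0)
  | some c => (c / (Real.sqrt (1 + ‖c‖ ^ 2) : ℂ), 1 / (Real.sqrt (1 + ‖c‖ ^ 2) : ℂ))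

/-- Euclidean norm on `ℂ × ℂ`. -/
noncomputable def nrm (v : ℂ × ℂ) : ℝ := Real.sqrt (‖v.1‖ ^ 2 + ‖v.2‖ ^ 2)

end IDP
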