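import Mathlib
import Pool.Agent.Helper21.IDP.Defs

open Filter Topology Real MeasureTheory Set

namespace IDP

/-- `(-1)^i` as a real number -/
noncomputable def sgn (i : ℤ) : ℝ := (-1 : ℝ) ^ i

lemma sgn_sq (i : ℤ) : sgn i * sgn i = 1 := by
  unfold sgn
  rw [← mul_zpow]; norm_num

lemma sgn_succ (i : ℤ) : sgn (i + 1) = - sgn i := by
  unfold sgn
  rw [zpow_add₀ (by norm_num)]; simp

lemma sgn_eq (i : ℤ) : sgn i = 1 ∨ sgn i = -1 := by
  have := sgn_sq i
  rcases mul_self_eq_one_iff.mp this with h | h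
  · left; exact h
  · right; exact h

lemma abs_sgn (i : ℤ) : |sgn i| = 1 := by
  rcases sgn_eq i with h | h <;> simp [h]

lemma sgn_cos (i : ℤ) (x : ℝ) : sgn i * Real.cos (π * i + x) = Real.cos x := by
  have h : π * i + x = x + i * π := by ring
  rw [h, Real.cos_add_int_mul_pi, ← mul_assoc]
  have := sgn_sq i
  unfold sgn at this ⊢
  rw [this, one_mul]

/-- sign of a boolean -/
noncomputable def bs (b : Bool) : ℝ := if b then 1 else -1

lemma abs_bs (b : Bool) : |bs b| = 1 := by cases b <;> simp [bs]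

/-- clamp to `[0,1]` -/
noncomputable def clp (t : ℝ) : ℝ := min (max t 0) 1

lemma clp_nonneg (t : ℝ) : 0 ≤ clp t := le_min (le_max_right _ _) zero_le_one
lemma clp_le (t : ℝ) : clp t ≤ 1 := min_le_right _ _
lemma continuous_clp : Continuous clp := by unfold clp; fun_prop

/-- the contours -/
noncomputable def gam (i : ℤ) (s t : ℝ) : ℂ :=
  ((π * |(i : ℝ)| - 3 + max (t - 1) 0 : ℝ) : ℂ) + ((π * i + s * clp t : ℝ) : ℂ) * Complex.I

lemma gam_re (i : ℤ) (s t : ℝ) : (gam i s t).re = π * |(i : ℝ)| - 3 + max (t - 1) 0 := by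
  unfold gam
  simp only [Complex.add_re, Complex.ofReal_re, Complex.mul_re, Complex.I_re, mul_zero,
    Complex.ofReal_im, Complex.I_im, mul_one, sub_self, add_zero]

lemma gam_im (i : ℤ) (s t : ℝ) : (gam i s t).im = π * i + s * clp t := by
  unfold gam
  simp only [Complex.add_im, Complex.ofReal_im, Complex.mul_im, Complex.ofReal_re, Complex.I_im,
    mul_one, Complex.I_re, mul_zero, add_zero, zero_add]

lemma continuous_gam (i : ℤ) (s : ℝ) : Continuous (gam i s) := by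
  unfold gam
  have := continuous_clp
  fun_prop

/-- derivative of the contour -/
noncomputable def dgam (s t : ℝ) : ℂ := if t < 1 then s * Complex.I else 1

lemma norm_dgam (b : Bool) (t : ℝ) : ‖dgam (bs b) t‖ = 1 := by
  unfold dgam
  split_ifs
  · simp [abs_bs]
  · simp

/-- the kernel -/
noncomputable def ker (κ : ℤ → ℂ) (N : ℝ) (i : ℤ) (s t : ℝ) : ℂ :=
  (2 * π * Complex.I)⁻¹ * (κ i * Complex.exp (-2 * sgn i * N * Complex.exp (gam i s t)) * dgam s t)

lemma re_exp_aux (i : ℤ) (N : ℝ) (ζ : ℂ) :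
    (-2 * sgn i * N * Complex.exp ζ : ℂ).re = -2 * N * Real.exp ζ.re * (sgn i * Real.cos ζ.im) := by
  have : (-2 * sgn i * N * Complex.exp ζ : ℂ) = ((-2 * sgn i * N : ℝ) : ℂ) * Complex.exp ζ := by
    push_cast; ring
  rw [this, Complex.re_ofReal_mul, Complex.exp_re]
  ring

lemma cos_ge_half {x : ℝ} (hx : |x| ≤ 1) : 1 / 2 ≤ Real.cos x := by
  rw [← Real.cos_pi_div_three, ← Real.cos_abs x]
  apply Real.cos_le_cos_of_nonneg_of_le_pi (abs_nonneg _)
  · have := Real.pi_gt_three; linarith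
  · have := Real.pi_gt_three; linarith

lemma norm_expfac (i : ℤ) {N : ℝ} (hN : 0 ≤ N) (ζ : ℂ) (h : |ζ.im - π * i| ≤ 1) :
    ‖Complex.exp (-2 * sgn i * N * Complex.exp ζ)‖ ≤ Real.exp (-(N * Real.exp ζ.re)) := by
  rw [Complex.norm_exp, re_exp_aux]
  apply Real.exp_le_exp.mpr
  have h1 : sgn i * Real.cos ζ.im = Real.cos (ζ.im - π * i) := by
    have := sgn_cos i (ζ.im - π * i)
    rw [← this]; congr 2; ring
  rw [h1]
  have h2 := cos_ge_half h
  have h3 : 0 ≤ N * Real.exp ζ.re := by positivity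
  nlinarith

lemma norm_ker (κ : ℤ → ℂ) {N : ℝ} (hN : 0 ≤ N) (i : ℤ) (b : Bool) (t : ℝ) :
    ‖ker κ N i (bs b) t‖ ≤ ‖κ i‖ * Real.exp (-(N * Real.exp (π * |(i : ℝ)| - 3 + max (t - 1) 0))) := by
  unfold ker
  rw [norm_mul, norm_mul, norm_mul, norm_dgam, mul_one]
  have h1 : ‖(2 * π * Complex.I : ℂ)⁻¹‖ ≤ 1 := by
    rw [norm_inv]
    apply inv_le_one_of_one_le₀
    simp only [norm_mul, Complex.norm_ofNat, Complex.norm_real, Real.norm_eq_abs, Complex.norm_I,
      mul_one]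
    have := Real.pi_gt_three
    rw [abs_of_pos (by linarith)]; linarith
  have h2 := norm_expfac i hN (gam i (bs b) t) (by
    rw [gam_im]
    have : π * (i : ℝ) + bs b * clp t - π * i = bs b * clp t := by ring
    rw [this, abs_mul, abs_bs, one_mul, abs_of_nonneg (clp_nonneg t)]
    exact clp_le t)
  rw [gam_re] at h2
  calc _ ≤ 1 * (‖κ i‖ * Real.exp (-(N * Real.exp (π * |(i : ℝ)| - 3 + max (t - 1) 0)))) := by
        gcongr
    _ = _ := one_mul _

/-! ### Cauchy-type integrals over an abstract measure space -/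

section CT
variable {α : Type*} [MeasurableSpace α] {μ : Measure α} {d γ : α → ℂ} {B : α → ℝ}

lemma CT_integrable (hB : Integrable B μ) (hd : AEStronglyMeasurable d μ)
    (hγ : AEStronglyMeasurable γ μ) (hdB : ∀ᵐ a ∂μ, ‖d a‖ ≤ B a) {ξ : ℂ} {δ : ℝ} (hδ : 0 < δ)
    (hdist : ∀ a, d a ≠ 0 → δ ≤ ‖γ a - ξ‖) :
    Integrable (fun a => d a / (γ a - ξ)) μ := by
  apply Integrable.mono' (hB.div_const δ)
  · exact (hd.aemeasurable.div (hγ.aemeasurable.sub_const ξ)).aestronglyMeasurable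
  · filter_upwards [hdB] with a ha
    by_cases h : d a = 0
    · simp only [h, zero_div, norm_zero]
      exact div_nonneg ((norm_nonneg _).trans ha) hδ.le
    · rw [norm_div]
      exact div_le_div₀ ((norm_nonneg _).trans ha) ha hδ (hdist a h)

lemma CT_bound (hB : Integrable B μ) (hdB : ∀ᵐ a ∂μ, ‖d a‖ ≤ B a) {ξ : ℂ} {δ : ℝ} (hδ : 0 < δ)
    (hdist : ∀ a, d a ≠ 0 → δ ≤ ‖γ a - ξ‖) :
    ‖∫ a, d a / (γ a - ξ) ∂μ‖ ≤ (∫ a, B a ∂μ) / δ := by
  rw [← integral_div]
  apply norm_integral_le_of_norm_le (hB.div_const δ)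
  filter_upwards [hdB] with a ha
  by_cases h : d a = 0
  · simp only [h, zero_div, norm_zero]
    exact div_nonneg ((norm_nonneg _).trans ha) hδ.le
  · rw [norm_div]
    exact div_le_div₀ ((norm_nonneg _).trans ha) ha hδ (hdist a h)

lemma CT_bound2 (hB : Integrable B μ) (hdB : ∀ᵐ a ∂μ, ‖d a‖ ≤ B a) {ξ : ℂ} {δ : ℝ} (hδ : 0 < δ)
    (hdist : ∀ a, d a ≠ 0 → δ ≤ ‖γ a - ξ‖) :
    ‖∫ a, d a / (γ a - ξ) ^ 2 ∂μ‖ ≤ (∫ a, B a ∂μ) / δ ^ 2 := by
  rw [← integral_div]
  apply norm_integral_le_of_norm_le (hB.div_const (δ ^ 2))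
  filter_upwards [hdB] with a ha
  by_cases h : d a = 0
  · simp only [h, zero_div, norm_zero]
    exact div_nonneg ((norm_nonneg _).trans ha) (by positivity)
  · rw [norm_div, norm_pow]
    exact div_le_div₀ ((norm_nonneg _).trans ha) ha (by positivity)
      (pow_le_pow_left₀ hδ.le (hdist a h) 2)

lemma CT_hasDerivAt (hB : Integrable B μ) (hd : AEStronglyMeasurable d μ)
    (hγ : AEStronglyMeasurable γ μ) (hdB : ∀ᵐ a ∂μ, ‖d a‖ ≤ B a) {ξ : ℂ} {δ : ℝ} (hδ : 0 < δ)
    {s : Set ℂ} (hs : s ∈ 𝓝 ξ)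
    (hdist : ∀ η ∈ s, ∀ a, d a ≠ 0 → δ ≤ ‖γ a - η‖) :
    HasDerivAt (fun η => ∫ a, d a / (γ a - η) ∂μ) (∫ a, d a / (γ a - ξ) ^ 2 ∂μ) ξ := by
  have hξ : ξ ∈ s := mem_of_mem_nhds hs
  refine (hasDerivAt_integral_of_dominated_loc_of_deriv_le (F := fun η a => d a / (γ a - η))
    (F' := fun η a => d a / (γ a - η) ^ 2) (bound := fun a => B a / δ ^ 2) hs ?_ ?_ ?_ ?_ ?_ ?_).2
  · exact Eventually.of_forall fun η =>
      (hd.aemeasurable.div (hγ.aemeasurable.sub_const η)).aestronglyMeasurable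
  · exact CT_integrable hB hd hγ hdB hδ (hdist ξ hξ)
  · exact (hd.aemeasurable.div ((hγ.aemeasurable.sub_const ξ).pow_const 2)).aestronglyMeasurable
  · filter_upwards [hdB] with a ha η hη
    by_cases h : d a = 0
    · simp only [h, zero_div, norm_zero]
      exact div_nonneg ((norm_nonneg _).trans ha) (by positivity)
    · rw [norm_div, norm_pow]
      exact div_le_div₀ ((norm_nonneg _).trans ha) ha (by positivity)
        (pow_le_pow_left₀ hδ.le (hdist η hη a h) 2)
  · exact hB.div_const _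
  · filter_upwards with a η hη
    by_cases h : d a = 0
    · simp only [h, zero_div]
      exact hasDerivAt_const _ _
    · have hne : γ a - η ≠ 0 := by
        intro h0
        have := hdist η hη a h
        rw [h0, norm_zero] at this
        linarith
      have h1 : HasDerivAt (fun η => γ a - η) (-1) η := by
        simpa using (hasDerivAt_id η).const_sub (γ a)
      have h2 := (h1.inv hne).const_mul (d a)
      have h3 : HasDerivAt (fun η => d a * (γ a - η)⁻¹) (d a * (- -1 / (γ a - η) ^ 2)) η := h2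
      have h4 : (fun η => d a / (γ a - η)) = fun η => d a * (γ a - η)⁻¹ := by
        ext; rw [div_eq_mul_inv]
      show HasDerivAt (fun η => d a / (γ a - η)) _ _
      rw [h4]
      exact h3.congr_deriv (by ring)

end CT

end IDP
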