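import Mathlib
import Pool.Agent.Helper21.IDP.RH1

open Filter Topology Real MeasureTheory Set

namespace IDP

/-- the measure: counting times Lebesgue on `(0,∞)` -/
noncomputable def mu0 : Measure (ℤ × ℝ) :=
  (Measure.count : Measure ℤ).prod (volume.restrict (Ioi (0 : ℝ)))

instance : SFinite mu0 := by unfold mu0; infer_instance

/-- dominating function -/
noncomputable def B0 (κ : ℤ → ℂ) (N : ℝ) (p : ℤ × ℝ) : ℝ :=
  ‖κ p.1‖ * Real.exp (-(N * Real.exp (π * |(p.1 : ℝ)| - 3 + max (p.2 - 1) 0)))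

lemma B0_nonneg (κ : ℤ → ℂ) (N : ℝ) (p : ℤ × ℝ) : 0 ≤ B0 κ N p := by
  unfold B0; positivity

lemma measurable_B0 (κ : ℤ → ℂ) (N : ℝ) : Measurable (B0 κ N) := by
  apply measurable_from_prod_countable_right
  intro i
  unfold B0
  fun_prop

lemma summable_exp_neg_abs : Summable (fun i : ℤ => Real.exp (-|(i : ℝ)|)) := by
  apply Summable.of_nat_of_neg
  · simpa using Real.summable_exp_neg_nat
  · simpa using Real.summable_exp_neg_nat

lemma integrable_G0 : Integrable (fun p : ℤ × ℝ => Real.exp (-|(p.1 : ℝ)|) * Real.exp (-p.2)) mu0 := by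
  unfold mu0
  apply Integrable.mul_prod (f := fun i : ℤ => Real.exp (-|(i : ℝ)|)) (g := fun t : ℝ => Real.exp (-t))
  · rw [integrable_count_iff]
    simpa using summable_exp_neg_abs
  · exact integrableOn_exp_neg_Ioi 0

lemma B0_le {κ : ℤ → ℂ} {K : ℝ} (hκ : ∀ i, ‖κ i‖ ≤ Real.exp (K * Real.exp |(i : ℝ)|))
    {M N : ℝ} (hK : 0 ≤ K) (hM : 1 ≤ M) (hN : 2 * Real.exp 3 * (K + M) ≤ N) (p : ℤ × ℝ)
    (hp : 0 < p.2) :
    B0 κ N p ≤ 1 / M * (Real.exp (-|(p.1 : ℝ)|) * Real.exp (-p.2)) := by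
  obtain ⟨i, t⟩ := p
  simp only at hp
  unfold B0
  simp only
  set a : ℝ := |(i : ℝ)| with ha
  have ha0 : 0 ≤ a := abs_nonneg _
  have h1 : (1 + t) / 2 ≤ Real.exp (max (t - 1) 0) := by
    have := Real.add_one_le_exp (max (t - 1) 0)
    rcases le_total (t - 1) 0 with h | h
    · rw [max_eq_right h] at this ⊢; linarith
    · rw [max_eq_left h] at this ⊢; linarith
  have h2 : Real.exp a * Real.exp (-3) ≤ Real.exp (π * a - 3) := by
    rw [← Real.exp_add]
    apply Real.exp_le_exp.mpr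
    have := Real.pi_gt_three
    nlinarith
  have h3 : Real.exp (π * a - 3 + max (t - 1) 0) = Real.exp (π * a - 3) * Real.exp (max (t - 1) 0) := by
    rw [Real.exp_add]
  have hea : 1 ≤ Real.exp a := Real.one_le_exp ha0
  have he3 : Real.exp 3 * Real.exp (-3) = 1 := by rw [← Real.exp_add]; simp
  have hN0 : 0 ≤ N := by
    have : 0 ≤ 2 * Real.exp 3 * (K + M) := by positivity
    linarith
  have h4 : (K + M) * Real.exp a * (1 + t) ≤ N * Real.exp (π * a - 3 + max (t - 1) 0) := by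
    rw [h3]
    calc (K + M) * Real.exp a * (1 + t)
        = (2 * Real.exp 3 * (K + M)) * ((Real.exp a * Real.exp (-3)) * ((1 + t) / 2)) := by
          have : (2 * Real.exp 3 * (K + M)) * ((Real.exp a * Real.exp (-3)) * ((1 + t) / 2))
            = (Real.exp 3 * Real.exp (-3)) * ((K + M) * Real.exp a * (1 + t)) := by ring
          rw [this, he3, one_mul]
      _ ≤ N * (Real.exp (π * a - 3) * Real.exp (max (t - 1) 0)) := by
          gcongr
  have h5 : K * Real.exp a + -(N * Real.exp (π * a - 3 + max (t - 1) 0)) ≤ -(M * Real.exp a) + -t := by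
    have h6 : (K + M) * Real.exp a * (1 + t) ≥ (K + M) * Real.exp a + t := by
      have : (1 : ℝ) ≤ (K + M) * Real.exp a := by nlinarith
      nlinarith
    nlinarith
  have h7 : Real.exp (-(M * Real.exp a)) ≤ 1 / M * Real.exp (-a) := by
    have h8 : M * Real.exp a ≤ Real.exp (M * Real.exp a) := by
      have := Real.add_one_le_exp (M * Real.exp a); linarith
    rw [Real.exp_neg, Real.exp_neg, one_div, ← mul_inv]
    exact inv_anti₀ (by positivity) h8
  calc ‖κ i‖ * Real.exp (-(N * Real.exp (π * a - 3 + max (t - 1) 0)))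
      ≤ Real.exp (K * Real.exp a) * Real.exp (-(N * Real.exp (π * a - 3 + max (t - 1) 0))) := by
        gcongr; exact hκ i
    _ = Real.exp (K * Real.exp a + -(N * Real.exp (π * a - 3 + max (t - 1) 0))) :=
        (Real.exp_add _ _).symm
    _ ≤ Real.exp (-(M * Real.exp a) + -t) := Real.exp_le_exp.mpr h5
    _ = Real.exp (-(M * Real.exp a)) * Real.exp (-t) := by rw [Real.exp_add]
    _ ≤ (1 / M * Real.exp (-a)) * Real.exp (-t) := by gcongr
    _ = _ := by ring

lemma ae_mu0_pos : ∀ᵐ p ∂mu0, 0 < p.2 := by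
  unfold mu0
  have : ∀ᵐ t ∂(volume.restrict (Ioi (0 : ℝ))), 0 < t := ae_restrict_mem measurableSet_Ioi
  exact Measure.quasiMeasurePreserving_snd.ae this

lemma exists_mass {κ : ℤ → ℂ} {K : ℝ} (hκ : ∀ i, ‖κ i‖ ≤ Real.exp (K * Real.exp |(i : ℝ)|))
    (hK : 0 ≤ K) : ∃ N0 : ℝ, ∀ N, N0 ≤ N → 0 ≤ N ∧ Integrable (B0 κ N) mu0 ∧
      ∫ p, B0 κ N p ∂mu0 ≤ 1 / 256 := by
  set G : ℝ := ∫ p : ℤ × ℝ, Real.exp (-|(p.1 : ℝ)|) * Real.exp (-p.2) ∂mu0 with hG
  have hG0 : 0 ≤ G := integral_nonneg fun p => by positivity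
  set M : ℝ := 256 * G + 1 with hM
  refine ⟨2 * Real.exp 3 * (K + M), fun N hN => ?_⟩
  have hM1 : 1 ≤ M := by linarith
  have hbound : ∀ᵐ p ∂mu0, ‖B0 κ N p‖ ≤ 1 / M * (Real.exp (-|(p.1 : ℝ)|) * Real.exp (-p.2)) := by
    filter_upwards [ae_mu0_pos] with p hp
    rw [Real.norm_of_nonneg (B0_nonneg κ N p)]
    exact B0_le hκ hK hM1 hN p hp
  refine ⟨?_, ?_, ?_⟩
  · have : 0 ≤ 2 * Real.exp 3 * (K + M) := by positivity
    linarith
  · exact Integrable.mono' (integrable_G0.const_mul _) (measurable_B0 κ N).aestronglyMeasurable hbound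
  · calc ∫ p, B0 κ N p ∂mu0 ≤ ∫ p : ℤ × ℝ, 1 / M * (Real.exp (-|(p.1 : ℝ)|) * Real.exp (-p.2)) ∂mu0 := by
          apply integral_mono_ae _ (integrable_G0.const_mul _)
          · filter_upwards [hbound] with p hp
            exact (le_abs_self _).trans hp
          · exact Integrable.mono' (integrable_G0.const_mul _)
              (measurable_B0 κ N).aestronglyMeasurable hbound
      _ = 1 / M * G := by rw [integral_const_mul]
      _ ≤ 1 / 256 := by
          rw [hM]
          rw [div_mul_eq_mul_div, one_mul, div_le_div_iff₀ (by linarith) (by norm_num)]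
          linarith

end IDP
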