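import Mathlib
import Pool.Agent.Helper21.IDP.RH2

open Filter Topology Real MeasureTheory Set

namespace IDP

def sb (i j : ℤ) : Bool := decide (j < i)

/-- the contour points seen from index `j` -/
noncomputable def gm (j : ℤ) (p : ℤ × ℝ) : ℂ := gam p.1 (bs (sb p.1 j)) p.2

/-- the density -/
noncomputable def dens (κ : ℤ → ℂ) (N : ℝ) (x : ℤ × Bool × ℝ → ℂ) (j : ℤ) (p : ℤ × ℝ) : ℂ :=
  if Odd (p.1 - j) then ker κ N p.1 (bs (sb p.1 j)) p.2 * x (p.1, sb p.1 j, p.2) else 0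

/-- the basic Cauchy-type integral -/
noncomputable def Fop (κ : ℤ → ℂ) (N : ℝ) (x : ℤ × Bool × ℝ → ℂ) (j : ℤ) (ξ : ℂ) : ℂ :=
  1 + ∫ p, dens κ N x j p / (gm j p - ξ) ∂mu0

lemma measurable_gm (j : ℤ) : Measurable (gm j) := by
  apply measurable_from_prod_countable_right
  intro i
  show Measurable (fun t : ℝ => gam i (bs (sb i j)) t)
  exact (continuous_gam i (bs (sb i j))).measurable

lemma measurable_dgam (s : ℝ) : Measurable (dgam s) := by
  unfold dgam
  exact Measurable.ite measurableSet_Iio measurable_const measurable_const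

lemma measurable_ker (κ : ℤ → ℂ) (N : ℝ) (i : ℤ) (s : ℝ) : Measurable (ker κ N i s) := by
  unfold ker
  have h1 := (continuous_gam i s).measurable
  have h2 := measurable_dgam s
  fun_prop

lemma measurable_dens (κ : ℤ → ℂ) (N : ℝ) {x : ℤ × Bool × ℝ → ℂ} (hx : Continuous x) (j : ℤ) :
    Measurable (dens κ N x j) := by
  apply measurable_from_prod_countable_right
  intro i
  unfold dens
  simp only
  split_ifs
  · apply Measurable.mul (measurable_ker _ _ _ _)
    have : Continuous fun t : ℝ => x (i, sb i j, t) := by fun_prop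
    exact this.measurable
  · exact measurable_const

lemma norm_dens_le (κ : ℤ → ℂ) {N : ℝ} (hN : 0 ≤ N) {x : ℤ × Bool × ℝ → ℂ} {C : ℝ}
    (hC : ∀ q, ‖x q‖ ≤ C) (j : ℤ) (p : ℤ × ℝ) : ‖dens κ N x j p‖ ≤ B0 κ N p * C := by
  have hC0 : 0 ≤ C := (norm_nonneg _).trans (hC (0, true, 0))
  unfold dens
  split_ifs
  · rw [norm_mul]
    have h1 := norm_ker κ hN p.1 (sb p.1 j) p.2
    have h2 := B0_nonneg κ N p
    exact mul_le_mul h1 (hC _) (norm_nonneg _) h2
  · rw [norm_zero]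
    exact mul_nonneg (B0_nonneg κ N p) hC0

lemma dens_ne_zero {κ : ℤ → ℂ} {N : ℝ} {x : ℤ × Bool × ℝ → ℂ} {j : ℤ} {p : ℤ × ℝ}
    (h : dens κ N x j p ≠ 0) : p.1 ≠ j := by
  unfold dens at h
  split_ifs at h with h1
  · rintro h2
    rw [h2, sub_self] at h1
    exact absurd h1 (by decide)
  · exact absurd rfl h

lemma dist1 {i j : ℤ} (hij : i ≠ j) (ξ : ℂ) (t : ℝ) :
    π - |ξ.im - π * j| ≤ ‖gam i (bs (sb i j)) t - ξ‖ := by
  have h0 := Complex.abs_im_le_norm (gam i (bs (sb i j)) t - ξ)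
  rw [Complex.sub_im, gam_im] at h0
  have hc := clp_nonneg t
  have hpi := Real.pi_pos
  rcases lt_or_gt_of_ne hij with h | h
  · have hs : sb i j = false := by simp [sb]; omega
    rw [hs] at h0 ⊢
    have hb : bs false = -1 := by simp [bs]
    rw [hb] at h0 ⊢
    have h1 : (i : ℝ) ≤ j - 1 := by exact_mod_cast Int.le_sub_one_of_lt h
    have h2 : π * (i : ℝ) ≤ π * j - π := by nlinarith
    have h3 := neg_abs_le (π * (i : ℝ) + -1 * clp t - ξ.im)
    have h4 := neg_abs_le (ξ.im - π * j)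
    linarith
  · have hs : sb i j = true := by simp [sb]; omega
    rw [hs] at h0 ⊢
    have hb : bs true = 1 := by simp [bs]
    rw [hb] at h0 ⊢
    have h1 : (j : ℝ) + 1 ≤ i := by exact_mod_cast h
    have h2 : π * j + π ≤ π * (i : ℝ) := by nlinarith
    have h3 := le_abs_self (π * (i : ℝ) + 1 * clp t - ξ.im)
    have h4 := le_abs_self (ξ.im - π * j)
    linarith

/-- the region where `F_j` will be used -/
def Om (j : ℤ) : Set ℂ :=
  {ξ | |ξ.im| < ξ.re ∧ π * (j - 1) - 3 / 4 < ξ.im ∧ ξ.im < π * (j + 1) + 3 / 4}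

lemma isOpen_Om (j : ℤ) : IsOpen (Om j) := by
  have h1 : IsOpen {ξ : ℂ | |ξ.im| < ξ.re} :=
    isOpen_lt (Complex.continuous_im.abs) Complex.continuous_re
  have h2 : IsOpen {ξ : ℂ | π * ((j : ℝ) - 1) - 3 / 4 < ξ.im} :=
    isOpen_lt continuous_const Complex.continuous_im
  have h3 : IsOpen {ξ : ℂ | ξ.im < π * ((j : ℝ) + 1) + 3 / 4} :=
    isOpen_lt Complex.continuous_im continuous_const
  exact h1.inter (h2.inter h3)

lemma dist2 {i j : ℤ} (hij : i ≠ j) {ξ : ℂ} (hξ : ξ ∈ Om j) (t : ℝ) :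
    1 / 4 ≤ ‖gam i (bs (sb i j)) t - ξ‖ := by
  obtain ⟨h1, h2, h3⟩ := hξ
  have hpi := Real.pi_pos
  rcases le_or_gt 1 t with ht | ht
  · -- horizontal part
    have hclp : clp t = 1 := by
      unfold clp
      rw [max_eq_left (by linarith), min_eq_right ht]
    have h0 := Complex.abs_im_le_norm (gam i (bs (sb i j)) t - ξ)
    rw [Complex.sub_im, gam_im, hclp] at h0
    rcases lt_or_gt_of_ne hij with h | h
    · have hs : sb i j = false := by simp [sb]; omega
      rw [hs] at h0 ⊢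
      have hb : bs false = -1 := by simp [bs]
      rw [hb] at h0 ⊢
      have h4 : (i : ℝ) ≤ j - 1 := by exact_mod_cast Int.le_sub_one_of_lt h
      have h5 : π * (i : ℝ) ≤ π * (j - 1) := by nlinarith
      have h6 := neg_abs_le (π * (i : ℝ) + -1 * 1 - ξ.im)
      linarith
    · have hs : sb i j = true := by simp [sb]; omega
      rw [hs] at h0 ⊢
      have hb : bs true = 1 := by simp [bs]
      rw [hb] at h0 ⊢
      have h4 : (j : ℝ) + 1 ≤ i := by exact_mod_cast h
      have h5 : π * (j + 1) ≤ π * (i : ℝ) := by nlinarith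
      have h6 := le_abs_self (π * (i : ℝ) + 1 * 1 - ξ.im)
      linarith
  · -- vertical part
    set w := gam i (bs (sb i j)) t - ξ with hw
    have hre : w.re = π * |(i : ℝ)| - 3 - ξ.re := by
      rw [hw, Complex.sub_re, gam_re, max_eq_right (by linarith)]; ring
    have him : w.im = π * i + bs (sb i j) * clp t - ξ.im := by
      rw [hw, Complex.sub_im, gam_im]
    have h4 : π * |(i : ℝ)| - 1 ≤ |π * i + bs (sb i j) * clp t| := by
      have h5 : |bs (sb i j) * clp t| ≤ 1 := by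
        rw [abs_mul, abs_bs, one_mul, abs_of_nonneg (clp_nonneg t)]; exact clp_le t
      have h6 : |π * (i : ℝ)| = π * |(i : ℝ)| := by rw [abs_mul, abs_of_pos hpi]
      have h7 : |π * (i : ℝ)| ≤ |π * i + bs (sb i j) * clp t| + |bs (sb i j) * clp t| := by
        have := abs_sub_abs_le_abs_sub (π * (i : ℝ)) (-(bs (sb i j) * clp t))
        rw [sub_neg_eq_add, abs_neg] at this
        linarith
      linarith
    have h8 : |π * i + bs (sb i j) * clp t| - |ξ.im| ≤ |w.im| := by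
      rw [him]; exact abs_sub_abs_le_abs_sub _ _
    have h9 : ξ.re - (π * |(i : ℝ)| - 3) ≤ |w.re| := by
      rw [hre]
      have := neg_abs_le (π * |(i : ℝ)| - 3 - ξ.re)
      linarith
    have h10 := Complex.abs_re_le_norm w
    have h11 := Complex.abs_im_le_norm w
    linarith

section
variable {κ : ℤ → ℂ} {N : ℝ} {x : ℤ × Bool × ℝ → ℂ} {C : ℝ}

lemma Fop_hasDerivAt (hN : 0 ≤ N) (hB : Integrable (B0 κ N) mu0) (hx : Continuous x)
    (hC : ∀ q, ‖x q‖ ≤ C) (j : ℤ) {ξ : ℂ} {δ : ℝ} (hδ : 0 < δ) {s : Set ℂ} (hs : s ∈ 𝓝 ξ)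
    (hdist : ∀ η ∈ s, ∀ i : ℤ, i ≠ j → ∀ t, δ ≤ ‖gam i (bs (sb i j)) t - η‖) :
    HasDerivAt (Fop κ N x j) (∫ p, dens κ N x j p / (gm j p - ξ) ^ 2 ∂mu0) ξ := by
  have := CT_hasDerivAt (μ := mu0) (d := dens κ N x j) (γ := gm j) (B := fun p => B0 κ N p * C)
    (hB.mul_const C) (measurable_dens κ N hx j).aestronglyMeasurable
    (measurable_gm j).aestronglyMeasurable
    (Eventually.of_forall fun p => norm_dens_le κ hN hC j p) hδ hs
    (fun η hη p hp => hdist η hη p.1 (dens_ne_zero hp) p.2)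
  exact this.const_add 1

lemma Fop_sub_one_bound (hN : 0 ≤ N) (hB : Integrable (B0 κ N) mu0)
    (hC : ∀ q, ‖x q‖ ≤ C) (j : ℤ) {ξ : ℂ} {δ : ℝ} (hδ : 0 < δ)
    (hdist : ∀ i : ℤ, i ≠ j → ∀ t, δ ≤ ‖gam i (bs (sb i j)) t - ξ‖) :
    ‖Fop κ N x j ξ - 1‖ ≤ (∫ p, B0 κ N p ∂mu0) * C / δ := by
  have := CT_bound (μ := mu0) (d := dens κ N x j) (γ := gm j) (B := fun p => B0 κ N p * C) (ξ := ξ)
    (hB.mul_const C) (Eventually.of_forall fun p => norm_dens_le κ hN hC j p) hδ
    (fun p hp => hdist p.1 (dens_ne_zero hp) p.2)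
  rw [integral_mul_const] at this
  unfold Fop
  rwa [add_sub_cancel_left]

lemma Fop_deriv_bound (hN : 0 ≤ N) (hB : Integrable (B0 κ N) mu0)
    (hC : ∀ q, ‖x q‖ ≤ C) (j : ℤ) {ξ : ℂ} {δ : ℝ} (hδ : 0 < δ)
    (hdist : ∀ i : ℤ, i ≠ j → ∀ t, δ ≤ ‖gam i (bs (sb i j)) t - ξ‖) :
    ‖∫ p, dens κ N x j p / (gm j p - ξ) ^ 2 ∂mu0‖ ≤ (∫ p, B0 κ N p ∂mu0) * C / δ ^ 2 := by
  have := CT_bound2 (μ := mu0) (d := dens κ N x j) (γ := gm j) (B := fun p => B0 κ N p * C) (ξ := ξ)
    (hB.mul_const C) (Eventually.of_forall fun p => norm_dens_le κ hN hC j p) hδ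
    (fun p hp => hdist p.1 (dens_ne_zero hp) p.2)
  rwa [integral_mul_const] at this

end

/-- neighbourhood of line `j` -/
def Bd (j : ℤ) : Set ℂ := {ξ | |ξ.im - π * j| < 2}

lemma isOpen_Bd (j : ℤ) : IsOpen (Bd j) :=
  isOpen_lt ((Complex.continuous_im.sub continuous_const).abs) continuous_const

lemma dist1' {i j : ℤ} (hij : i ≠ j) {ξ : ℂ} (h : ξ ∈ Bd j) (t : ℝ) :
    1 ≤ ‖gam i (bs (sb i j)) t - ξ‖ := by
  have h1 := dist1 hij ξ t
  have h2 : |ξ.im - π * j| < 2 := h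
  have := Real.pi_gt_three
  linarith

lemma dist1'' {i j : ℤ} (hij : i ≠ j) {ξ : ℂ} (h : |ξ.im - π * j| ≤ 1) (t : ℝ) :
    2 ≤ ‖gam i (bs (sb i j)) t - ξ‖ := by
  have h1 := dist1 hij ξ t
  have := Real.pi_gt_three
  linarith

lemma gam_im_dist (i : ℤ) (b : Bool) (t : ℝ) : |(gam i (bs b) t).im - π * i| ≤ 1 := by
  rw [gam_im]
  have : π * (i : ℝ) + bs b * clp t - π * i = bs b * clp t := by ring
  rw [this, abs_mul, abs_bs, one_mul, abs_of_nonneg (clp_nonneg t)]
  exact clp_le t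

/-- the fixed point -/
theorem exists_fixed {κ : ℤ → ℂ} {N : ℝ} (hN : 0 ≤ N) (hB : Integrable (B0 κ N) mu0)
    (hm : ∫ p, B0 κ N p ∂mu0 ≤ 1 / 256) :
    ∃ x : ℤ × Bool × ℝ → ℂ, Continuous x ∧ (∀ q, ‖x q‖ ≤ 2) ∧
      ∀ j b t, x (j, b, t) = Fop κ N x j (gam j (bs b) t) := by
  classical
  have hm0 : 0 ≤ ∫ p, B0 κ N p ∂mu0 := integral_nonneg fun p => B0_nonneg κ N p
  -- the map
  have hcont : ∀ y : BoundedContinuousFunction (ℤ × Bool × ℝ) ℂ,
      Continuous (fun q : ℤ × Bool × ℝ => Fop κ N y q.1 (gam q.1 (bs q.2.1) q.2.2)) := by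
    intro y
    rw [continuous_prod_of_discrete_left]
    intro j
    rw [continuous_prod_of_discrete_left]
    intro b
    rw [continuous_iff_continuousAt]
    intro t
    have h1 : ContinuousAt (Fop κ N y j) (gam j (bs b) t) := by
      refine (Fop_hasDerivAt hN hB y.continuous (C := ‖y‖) (fun q => y.norm_coe_le_norm q) j
        (δ := 1) one_pos (s := Bd j) ?_ ?_).continuousAt
      · apply (isOpen_Bd j).mem_nhds
        have := gam_im_dist j b t
        show |(gam j (bs b) t).im - π * j| < 2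
        linarith
      · intro η hη i hi t
        exact dist1' hi hη t
    exact ContinuousAt.comp (f := fun t => gam j (bs b) t) h1 (continuous_gam j (bs b)).continuousAt
  have hbd : ∀ (y : BoundedContinuousFunction (ℤ × Bool × ℝ) ℂ) (q : ℤ × Bool × ℝ),
      ‖Fop κ N y q.1 (gam q.1 (bs q.2.1) q.2.2)‖ ≤ 1 + ‖y‖ := by
    intro y q
    have h1 := Fop_sub_one_bound hN hB (x := y) (C := ‖y‖) (fun q => y.norm_coe_le_norm q) q.1
      (ξ := gam q.1 (bs q.2.1) q.2.2) (δ := 2) two_pos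
      (fun i hi t => dist1'' hi (gam_im_dist _ _ _) t)
    have h2 : ‖Fop κ N y q.1 (gam q.1 (bs q.2.1) q.2.2)‖ ≤ 1 +
        ‖Fop κ N y q.1 (gam q.1 (bs q.2.1) q.2.2) - 1‖ := by
      have := norm_add_le (1 : ℂ) (Fop κ N y q.1 (gam q.1 (bs q.2.1) q.2.2) - 1)
      rw [norm_one, add_sub_cancel] at this
      exact this
    have h3 : (∫ p, B0 κ N p ∂mu0) * ‖y‖ / 2 ≤ ‖y‖ := by
      have := norm_nonneg y
      nlinarith
    linarith
  let T : BoundedContinuousFunction (ℤ × Bool × ℝ) ℂ → BoundedContinuousFunction (ℤ × Bool × ℝ) ℂ :=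
    fun y => BoundedContinuousFunction.ofNormedAddCommGroup _ (hcont y) (1 + ‖y‖) (hbd y)
  have hT : ∀ y q, T y q = Fop κ N y q.1 (gam q.1 (bs q.2.1) q.2.2) := fun y q => rfl
  have hlip : LipschitzWith (1 / 2) T := by
    apply LipschitzWith.of_dist_le_mul
    intro y z
    rw [BoundedContinuousFunction.dist_le (by positivity)]
    intro q
    rw [hT, hT, dist_eq_norm]
    set ξ := gam q.1 (bs q.2.1) q.2.2 with hξ
    have hd : ∀ i : ℤ, i ≠ q.1 → ∀ t, (2 : ℝ) ≤ ‖gam i (bs (sb i q.1)) t - ξ‖ :=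
      fun i hi t => dist1'' hi (gam_im_dist _ _ _) t
    have hi1 : Integrable (fun p => dens κ N y q.1 p / (gm q.1 p - ξ)) mu0 :=
      CT_integrable (B := fun p => B0 κ N p * ‖y‖) (hB.mul_const _)
        (measurable_dens κ N y.continuous q.1).aestronglyMeasurable
        (measurable_gm q.1).aestronglyMeasurable
        (Eventually.of_forall fun p => norm_dens_le κ hN (fun q => y.norm_coe_le_norm q) q.1 p)
        two_pos (fun p hp => hd p.1 (dens_ne_zero hp) p.2)
    have hi2 : Integrable (fun p => dens κ N z q.1 p / (gm q.1 p - ξ)) mu0 :=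
      CT_integrable (B := fun p => B0 κ N p * ‖z‖) (hB.mul_const _)
        (measurable_dens κ N z.continuous q.1).aestronglyMeasurable
        (measurable_gm q.1).aestronglyMeasurable
        (Eventually.of_forall fun p => norm_dens_le κ hN (fun q => z.norm_coe_le_norm q) q.1 p)
        two_pos (fun p hp => hd p.1 (dens_ne_zero hp) p.2)
    have h1 : Fop κ N y q.1 ξ - Fop κ N z q.1 ξ
        = Fop κ N (fun q => y q - z q) q.1 ξ - 1 := by
      unfold Fop
      rw [add_sub_add_left_eq_sub, ← integral_sub hi1 hi2, add_sub_cancel_left]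
      congr 1
      ext p
      unfold dens
      split_ifs
      · ring
      · simp
    rw [h1]
    have h2 := Fop_sub_one_bound hN hB (x := fun q => y q - z q) (C := dist y z)
      (fun q => by rw [← dist_eq_norm]; exact BoundedContinuousFunction.dist_coe_le_dist q) q.1
      (ξ := ξ) (δ := 2) two_pos hd
    have h3 := dist_nonneg (x := y) (y := z)
    have h4 : (∫ p, B0 κ N p ∂mu0) * dist y z / 2 ≤ 1 / 2 * dist y z := by nlinarith
    refine h2.trans (h4.trans ?_)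
    simp
  have hctr : ContractingWith (1 / 2) T := ⟨by
    rw [← NNReal.coe_lt_coe]; norm_num, hlip⟩
  set x0 := hctr.fixedPoint T with hx0
  have hfix : T x0 = x0 := hctr.fixedPoint_isFixedPt
  have hval : ∀ q, x0 q = Fop κ N x0 q.1 (gam q.1 (bs q.2.1) q.2.2) := by
    intro q
    rw [← hT, hfix]
  refine ⟨x0, x0.continuous, ?_, fun j b t => hval (j, b, t)⟩
  -- norm bound
  have h5 : ‖x0‖ ≤ 1 + ‖x0‖ / 2 := by
    rw [BoundedContinuousFunction.norm_le (by positivity)]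
    intro q
    rw [hval q]
    have h1 := Fop_sub_one_bound hN hB (x := x0) (C := ‖x0‖) (fun q => x0.norm_coe_le_norm q) q.1
      (ξ := gam q.1 (bs q.2.1) q.2.2) (δ := 2) two_pos
      (fun i hi t => dist1'' hi (gam_im_dist _ _ _) t)
    have h2 : ‖Fop κ N x0 q.1 (gam q.1 (bs q.2.1) q.2.2)‖ ≤ 1 +
        ‖Fop κ N x0 q.1 (gam q.1 (bs q.2.1) q.2.2) - 1‖ := by
      have := norm_add_le (1 : ℂ) (Fop κ N x0 q.1 (gam q.1 (bs q.2.1) q.2.2) - 1)
      rw [norm_one, add_sub_cancel] at this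
      exact this
    have h3 : (∫ p, B0 κ N p ∂mu0) * ‖x0‖ / 2 ≤ ‖x0‖ / 2 := by
      have := norm_nonneg x0
      nlinarith
    linarith
  intro q
  have := x0.norm_coe_le_norm q
  linarith

end IDP
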