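import Mathlib

open Filter Topology Real MeasureTheory Set

namespace IDP

/-- winding number of a rectangle -/
lemma rect_inv {a b y1 y2 : ℝ} {ξ : ℂ} (ha : a < ξ.re) (hb : ξ.re < b) (h1 : y1 < ξ.im)
    (h2 : ξ.im < y2) :
    (∫ x : ℝ in a..b, ((x + y1 * Complex.I : ℂ) - ξ)⁻¹) - (∫ x : ℝ in a..b, ((x + y2 * Complex.I : ℂ) - ξ)⁻¹)
      + Complex.I * (∫ y : ℝ in y1..y2, ((b + y * Complex.I : ℂ) - ξ)⁻¹)
      - Complex.I * (∫ y : ℝ in y1..y2, ((a + y * Complex.I : ℂ) - ξ)⁻¹) = 2 * π * Complex.I := by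
  have hre : ∀ x y : ℝ, ((x + y * Complex.I : ℂ) - ξ).re = x - ξ.re := by intro x y; simp
  have him : ∀ x y : ℝ, ((x + y * Complex.I : ℂ) - ξ).im = y - ξ.im := by intro x y; simp
  have hne : ∀ x y : ℝ, (x ≠ ξ.re ∨ y ≠ ξ.im) → (x + y * Complex.I : ℂ) - ξ ≠ 0 := by
    intro x y hxy h0
    have e1 := hre x y
    have e2 := him x y
    rw [h0] at e1 e2
    simp at e1 e2
    rcases hxy with h | h
    · exact h (by linarith)
    · exact h (by linarith)
  -- horizontal sides
  have hor : ∀ y : ℝ, y ≠ ξ.im → ∫ x : ℝ in a..b, ((x + y * Complex.I : ℂ) - ξ)⁻¹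
      = Complex.log ((b + y * Complex.I : ℂ) - ξ) - Complex.log ((a + y * Complex.I : ℂ) - ξ) := by
    intro y hy
    have hd : ∀ x : ℝ, HasDerivAt (fun x : ℝ => Complex.log ((x + y * Complex.I : ℂ) - ξ))
        ((x + y * Complex.I : ℂ) - ξ)⁻¹ x := by
      intro x
      have h3 : HasDerivAt (fun x : ℝ => (x + y * Complex.I : ℂ) - ξ) 1 x := by
        have := ((Complex.ofRealCLM.hasDerivAt (x := x)).add_const (y * Complex.I : ℂ)).sub_const ξ
        simpa using this
      have h4 : (x + y * Complex.I : ℂ) - ξ ∈ Complex.slitPlane := by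
        rw [Complex.mem_slitPlane_iff]; right
        rw [him]; exact sub_ne_zero.mpr hy
      have := h3.clog_real h4
      simpa [one_div] using this
    rw [intervalIntegral.integral_eq_sub_of_hasDerivAt (fun x _ => hd x)]
    apply ContinuousOn.intervalIntegrable
    apply ContinuousOn.inv₀ (by fun_prop)
    intro x _
    exact hne x y (Or.inr hy)
  have hright : Complex.I * (∫ y : ℝ in y1..y2, ((b + y * Complex.I : ℂ) - ξ)⁻¹)
      = Complex.log ((b + y2 * Complex.I : ℂ) - ξ) - Complex.log ((b + y1 * Complex.I : ℂ) - ξ) := by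
    have hd : ∀ y : ℝ, HasDerivAt (fun y : ℝ => Complex.log ((b + y * Complex.I : ℂ) - ξ))
        (Complex.I * ((b + y * Complex.I : ℂ) - ξ)⁻¹) y := by
      intro y
      have h3 : HasDerivAt (fun y : ℝ => (b + y * Complex.I : ℂ) - ξ) Complex.I y := by
        have := (((Complex.ofRealCLM.hasDerivAt (x := y)).mul_const Complex.I).const_add
          (b : ℂ)).sub_const ξ
        simpa using this
      have h4 : (b + y * Complex.I : ℂ) - ξ ∈ Complex.slitPlane := by
        rw [Complex.mem_slitPlane_iff]; left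
        rw [hre]; linarith
      have := h3.clog_real h4
      simpa [div_eq_mul_inv] using this
    rw [← intervalIntegral.integral_const_mul,
      intervalIntegral.integral_eq_sub_of_hasDerivAt (fun x _ => hd x)]
    apply ContinuousOn.intervalIntegrable
    apply ContinuousOn.mul (by fun_prop)
    apply ContinuousOn.inv₀ (by fun_prop)
    intro x _
    exact hne b x (Or.inl hb.ne')
  have hleft : Complex.I * (∫ y : ℝ in y1..y2, ((a + y * Complex.I : ℂ) - ξ)⁻¹)
      = Complex.log (-((a + y2 * Complex.I : ℂ) - ξ)) - Complex.log (-((a + y1 * Complex.I : ℂ) - ξ)) := by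
    have hd : ∀ y : ℝ, HasDerivAt (fun y : ℝ => Complex.log (-((a + y * Complex.I : ℂ) - ξ)))
        (Complex.I * ((a + y * Complex.I : ℂ) - ξ)⁻¹) y := by
      intro y
      have h3 : HasDerivAt (fun y : ℝ => -((a + y * Complex.I : ℂ) - ξ)) (-Complex.I) y := by
        have h3' : HasDerivAt (fun y : ℝ => (a + y * Complex.I : ℂ) - ξ) Complex.I y := by
          have := (((Complex.ofRealCLM.hasDerivAt (x := y)).mul_const Complex.I).const_add
            (a : ℂ)).sub_const ξ
          simpa using this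
        exact h3'.fun_neg
      have h4 : -((a + y * Complex.I : ℂ) - ξ) ∈ Complex.slitPlane := by
        rw [Complex.mem_slitPlane_iff]; left
        rw [Complex.neg_re, hre]; linarith
      have := h3.clog_real h4
      refine this.congr_deriv ?_
      have h5 : (a + y * Complex.I : ℂ) - ξ ≠ 0 := hne a y (Or.inl ha.ne)
      field_simp
    rw [← intervalIntegral.integral_const_mul,
      intervalIntegral.integral_eq_sub_of_hasDerivAt (fun x _ => hd x)]
    apply ContinuousOn.intervalIntegrable
    apply ContinuousOn.mul (by fun_prop)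
    apply ContinuousOn.inv₀ (by fun_prop)
    intro x _
    exact hne a x (Or.inl ha.ne)
  rw [hor y1 h1.ne, hor y2 h2.ne', hright, hleft]
  have l2 : Complex.log (-((a + y2 * Complex.I : ℂ) - ξ))
      = Complex.log ((a + y2 * Complex.I : ℂ) - ξ) - π * Complex.I := by
    rw [Complex.log, Complex.log, norm_neg,
      Complex.arg_neg_eq_arg_sub_pi_of_im_pos (by rw [him]; linarith)]
    push_cast; ring
  have l1 : Complex.log (-((a + y1 * Complex.I : ℂ) - ξ))
      = Complex.log ((a + y1 * Complex.I : ℂ) - ξ) + π * Complex.I := by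
    rw [Complex.log, Complex.log, norm_neg,
      Complex.arg_neg_eq_arg_add_pi_of_im_neg (by rw [him]; linarith)]
    push_cast; ring
  rw [l1, l2]
  ring

/-- Cauchy integral formula on a rectangle -/
lemma rect_cauchy {D : ℂ → ℂ} {U : Set ℂ} (hU : IsOpen U) (hD : DifferentiableOn ℂ D U)
    {a b y1 y2 : ℝ} {ξ : ℂ} (ha : a < ξ.re) (hb : ξ.re < b) (h1 : y1 < ξ.im)
    (h2 : ξ.im < y2) (hsub : ∀ x y : ℝ, a ≤ x → x ≤ b → y1 ≤ y → y ≤ y2 → (x + y * Complex.I : ℂ) ∈ U) :
    (∫ x : ℝ in a..b, D (x + y1 * Complex.I) / ((x + y1 * Complex.I : ℂ) - ξ))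
      - (∫ x : ℝ in a..b, D (x + y2 * Complex.I) / ((x + y2 * Complex.I : ℂ) - ξ))
      + Complex.I * (∫ y : ℝ in y1..y2, D (b + y * Complex.I) / ((b + y * Complex.I : ℂ) - ξ))
      - Complex.I * (∫ y : ℝ in y1..y2, D (a + y * Complex.I) / ((a + y * Complex.I : ℂ) - ξ))
      = 2 * π * Complex.I * D ξ := by
  have hab : a ≤ b := by linarith
  have h12 : y1 ≤ y2 := by linarith
  have hξ : ξ ∈ U := by
    have := hsub ξ.re ξ.im ha.le hb.le h1.le h2.le
    rwa [Complex.re_add_im] at this
  have hg : DifferentiableOn ℂ (dslope D ξ) U :=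
    (Complex.differentiableOn_dslope (hU.mem_nhds hξ)).mpr hD
  have hre : ∀ x y : ℝ, ((x + y * Complex.I : ℂ) - ξ).re = x - ξ.re := by intro x y; simp
  have him : ∀ x y : ℝ, ((x + y * Complex.I : ℂ) - ξ).im = y - ξ.im := by intro x y; simp
  have hne : ∀ x y : ℝ, (x ≠ ξ.re ∨ y ≠ ξ.im) → (x + y * Complex.I : ℂ) - ξ ≠ 0 := by
    intro x y hxy h0
    have e1 := hre x y
    have e2 := him x y
    rw [h0] at e1 e2
    simp at e1 e2
    rcases hxy with h | h
    · exact h (by linarith)
    · exact h (by linarith)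
  have hds : ∀ x y : ℝ, (x ≠ ξ.re ∨ y ≠ ξ.im) → dslope D ξ (x + y * Complex.I)
      = D (x + y * Complex.I) / ((x + y * Complex.I : ℂ) - ξ)
        - D ξ * ((x + y * Complex.I : ℂ) - ξ)⁻¹ := by
    intro x y hxy
    rw [dslope_of_ne _ (sub_ne_zero.mp (hne x y hxy)), slope_def_field]
    rw [sub_div, div_eq_mul_inv (D ξ)]
  have hcont : ∀ x y : ℝ, a ≤ x → x ≤ b → y1 ≤ y → y ≤ y2 → ContinuousAt D (x + y * Complex.I) :=
    fun x y hx1 hx2 hy1 hy2 =>
      (hD.differentiableAt (hU.mem_nhds (hsub x y hx1 hx2 hy1 hy2))).continuousAt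
  -- Cauchy-Goursat
  have key := Complex.integral_boundary_rect_eq_zero_of_differentiableOn (dslope D ξ)
    (a + y1 * Complex.I) (b + y2 * Complex.I) (hg.mono (by
      intro ζ hζ
      rw [Complex.mem_reProdIm] at hζ
      simp only [Complex.add_re, Complex.ofReal_re, Complex.mul_re, Complex.I_re, mul_zero,
        Complex.ofReal_im, Complex.I_im, mul_one, sub_self, add_zero, Complex.add_im,
        Complex.mul_im, zero_add] at hζ
      rw [uIcc_of_le hab, uIcc_of_le h12] at hζ
      have := hsub ζ.re ζ.im hζ.1.1 hζ.1.2 hζ.2.1 hζ.2.2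
      rwa [Complex.re_add_im] at this))
  simp only [Complex.add_re, Complex.ofReal_re, Complex.mul_re, Complex.I_re, mul_zero,
        Complex.ofReal_im, Complex.I_im, mul_one, sub_self, add_zero, Complex.add_im,
        Complex.mul_im, zero_add, smul_eq_mul] at key
  -- horizontal and vertical side decompositions
  have hor : ∀ y : ℝ, y1 ≤ y → y ≤ y2 → y ≠ ξ.im →
      ∫ x : ℝ in a..b, dslope D ξ (x + y * Complex.I)
      = (∫ x : ℝ in a..b, D (x + y * Complex.I) / ((x + y * Complex.I : ℂ) - ξ))
        - D ξ * (∫ x : ℝ in a..b, ((x + y * Complex.I : ℂ) - ξ)⁻¹) := by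
    intro y hy1 hy2 hy
    rw [← intervalIntegral.integral_const_mul, ← intervalIntegral.integral_sub]
    · apply intervalIntegral.integral_congr
      intro x _
      exact hds x y (Or.inr hy)
    · apply ContinuousOn.intervalIntegrable
      rw [uIcc_of_le hab]
      intro x hx
      apply ContinuousAt.continuousWithinAt
      apply ContinuousAt.div
      · exact ContinuousAt.comp (f := fun x : ℝ => (x + y * Complex.I : ℂ))
          (hcont x y hx.1 hx.2 hy1 hy2) (by fun_prop)
      · fun_prop
      · exact hne x y (Or.inr hy)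
    · apply ContinuousOn.intervalIntegrable
      apply ContinuousOn.mul continuousOn_const
      apply ContinuousOn.inv₀ (by fun_prop)
      intro x _
      exact hne x y (Or.inr hy)
  have ver : ∀ x : ℝ, a ≤ x → x ≤ b → x ≠ ξ.re →
      ∫ y : ℝ in y1..y2, dslope D ξ (x + y * Complex.I)
      = (∫ y : ℝ in y1..y2, D (x + y * Complex.I) / ((x + y * Complex.I : ℂ) - ξ))
        - D ξ * (∫ y : ℝ in y1..y2, ((x + y * Complex.I : ℂ) - ξ)⁻¹) := by
    intro x hx1 hx2 hx
    rw [← intervalIntegral.integral_const_mul, ← intervalIntegral.integral_sub]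
    · apply intervalIntegral.integral_congr
      intro y _
      exact hds x y (Or.inl hx)
    · apply ContinuousOn.intervalIntegrable
      rw [uIcc_of_le h12]
      intro y hy
      apply ContinuousAt.continuousWithinAt
      apply ContinuousAt.div
      · exact ContinuousAt.comp (f := fun y : ℝ => (x + y * Complex.I : ℂ))
          (hcont x y hx1 hx2 hy.1 hy.2) (by fun_prop)
      · fun_prop
      · exact hne x y (Or.inl hx)
    · apply ContinuousOn.intervalIntegrable
      apply ContinuousOn.mul continuousOn_const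
      apply ContinuousOn.inv₀ (by fun_prop)
      intro y _
      exact hne x y (Or.inl hx)
  rw [hor y1 le_rfl h12 h1.ne, hor y2 h12 le_rfl h2.ne', ver b hab le_rfl hb.ne',
    ver a le_rfl hab ha.ne] at key
  have hw := rect_inv ha hb h1 h2
  linear_combination key + D ξ * hw

end IDP
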