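import Mathlib
import Pool.Agent.Helper21.IDP.RH3
import Pool.Agent.Helper21.IDP.Rect

open Filter Topology Real MeasureTheory Set

namespace IDP

lemma integral_mu0 {g : ℤ × ℝ → ℂ} (hg : Integrable g mu0) :
    ∫ p, g p ∂mu0 = ∑' i : ℤ, ∫ t in Ioi (0 : ℝ), g (i, t) := by
  unfold mu0 at hg ⊢
  rw [integral_prod _ hg, integral_countable hg.integral_prod_left]
  simp [Measure.real]

lemma slice_integrable {g : ℤ × ℝ → ℂ} (hg : Integrable g mu0) (i : ℤ) :
    IntegrableOn (fun t => g (i, t)) (Ioi (0 : ℝ)) := by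
  unfold mu0 at hg
  have := hg.prod_right_ae
  rw [Measure.ae_count_iff] at this
  exact this i

/-- the jump function on line `c` -/
noncomputable def jmp (κ : ℤ → ℂ) (N : ℝ) (x : ℤ × Bool × ℝ → ℂ) (c : ℤ) (ζ : ℂ) : ℂ :=
  κ c * Complex.exp (-2 * sgn c * N * Complex.exp ζ) * Fop κ N x c ζ

section
variable {κ : ℤ → ℂ} {N : ℝ} {x : ℤ × Bool × ℝ → ℂ}

lemma Fop_differentiableOn_Bd (hN : 0 ≤ N) (hB : Integrable (B0 κ N) mu0) (hx : Continuous x)
    (hx2 : ∀ q, ‖x q‖ ≤ 2) (c : ℤ) : DifferentiableOn ℂ (Fop κ N x c) (Bd c) := by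
  intro ξ hξ
  exact (Fop_hasDerivAt hN hB hx hx2 c one_pos ((isOpen_Bd c).mem_nhds hξ)
    (fun η hη i hi t => dist1' hi hη t)).differentiableAt.differentiableWithinAt

lemma Fop_bound_Bd (hN : 0 ≤ N) (hB : Integrable (B0 κ N) mu0)
    (hm : ∫ p, B0 κ N p ∂mu0 ≤ 1 / 256) (hx2 : ∀ q, ‖x q‖ ≤ 2) (c : ℤ) {ξ : ℂ} (hξ : ξ ∈ Bd c) :
    ‖Fop κ N x c ξ‖ ≤ 2 := by
  have hm0 : 0 ≤ ∫ p, B0 κ N p ∂mu0 := integral_nonneg fun p => B0_nonneg κ N p
  have h1 := Fop_sub_one_bound hN hB hx2 c (ξ := ξ) (δ := 1) one_pos (fun i hi t => dist1' hi hξ t)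
  have h2 : ‖Fop κ N x c ξ‖ ≤ 1 + ‖Fop κ N x c ξ - 1‖ := by
    have := norm_add_le (1 : ℂ) (Fop κ N x c ξ - 1)
    rw [norm_one, add_sub_cancel] at this
    exact this
  linarith

lemma jmp_differentiableOn (hN : 0 ≤ N) (hB : Integrable (B0 κ N) mu0) (hx : Continuous x)
    (hx2 : ∀ q, ‖x q‖ ≤ 2) (c : ℤ) : DifferentiableOn ℂ (jmp κ N x c) (Bd c) := by
  unfold jmp
  apply DifferentiableOn.mul _ (Fop_differentiableOn_Bd hN hB hx hx2 c)
  apply Differentiable.differentiableOn
  fun_prop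

lemma jmp_bound (hN : 0 ≤ N) (hB : Integrable (B0 κ N) mu0)
    (hm : ∫ p, B0 κ N p ∂mu0 ≤ 1 / 256) (hx2 : ∀ q, ‖x q‖ ≤ 2) (c : ℤ) {ξ : ℂ}
    (hξ : |ξ.im - π * c| ≤ 1) : ‖jmp κ N x c ξ‖ ≤ ‖κ c‖ * 2 := by
  unfold jmp
  rw [norm_mul, norm_mul]
  have h1 := norm_expfac c hN ξ hξ
  have h2 : Real.exp (-(N * Real.exp ξ.re)) ≤ 1 := by
    apply Real.exp_le_one_iff.mpr
    have : 0 ≤ N * Real.exp ξ.re := by positivity
    linarith
  have h3 := Fop_bound_Bd hN hB hm hx2 c (ξ := ξ) (by
    show |_| < (2 : ℝ)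
    linarith)
  calc ‖κ c‖ * ‖Complex.exp (-2 * sgn c * N * Complex.exp ξ)‖ * ‖Fop κ N x c ξ‖
      ≤ ‖κ c‖ * 1 * 2 := by
        gcongr
        exact h1.trans h2
    _ = _ := by ring

lemma dens_line (hfix : ∀ j b t, x (j, b, t) = Fop κ N x j (gam j (bs b) t)) (c : ℤ) (j : ℤ)
    (hj : Odd (c - j)) (t : ℝ) :
    dens κ N x j (c, t) = (2 * π * Complex.I)⁻¹ *
      (jmp κ N x c (gam c (bs (sb c j)) t) * dgam (bs (sb c j)) t) := by
  unfold dens jmp ker
  simp only
  rw [if_pos hj, hfix]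
  ring

lemma gam_lt_one {c : ℤ} {s t : ℝ} (h0 : 0 ≤ t) (h1 : t ≤ 1) :
    gam c s t = ((π * |(c : ℝ)| - 3 : ℝ) : ℂ) + ((π * c + s * t : ℝ) : ℂ) * Complex.I := by
  unfold gam clp
  rw [max_eq_right (by linarith), max_eq_left h0, min_eq_left h1, add_zero]

lemma gam_ge_one {c : ℤ} {s t : ℝ} (h1 : 1 ≤ t) :
    gam c s t = ((t + (π * |(c : ℝ)| - 3 - 1) : ℝ) : ℂ) + ((π * c + s : ℝ) : ℂ) * Complex.I := by
  unfold gam clp
  rw [max_eq_left (by linarith), max_eq_left (by linarith), min_eq_right h1, mul_one]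
  congr 2
  ring

lemma side_integral (f : ℂ → ℂ) (c : ℤ) (s : ℝ)
    (hint : IntegrableOn (fun t => f (gam c s t) * dgam s t) (Ioi (0 : ℝ))) {B : ℝ} (hB : 0 ≤ B) :
    ∫ t in (0 : ℝ)..(B + 1), f (gam c s t) * dgam s t
      = s * Complex.I * (∫ t in (0 : ℝ)..1,
          f (((π * |(c : ℝ)| - 3 : ℝ) : ℂ) + ((π * c + s * t : ℝ) : ℂ) * Complex.I))
        + ∫ u in (π * |(c : ℝ)| - 3)..(π * |(c : ℝ)| - 3 + B),
          f ((u : ℂ) + ((π * c + s : ℝ) : ℂ) * Complex.I) := by
  have hI : ∀ u v : ℝ, 0 ≤ u → 0 ≤ v → IntervalIntegrable (fun t => f (gam c s t) * dgam s t) volume u v := by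
    intro u v hu hv
    rw [intervalIntegrable_iff]
    apply hint.mono_set
    intro t ht
    rw [uIoc, mem_Ioc] at ht
    show 0 < t
    exact lt_of_le_of_lt (le_min hu hv) ht.1
  rw [← intervalIntegral.integral_add_adjacent_intervals (hI 0 1 le_rfl zero_le_one)
    (hI 1 (B + 1) zero_le_one (by linarith))]
  congr 1
  · rw [← intervalIntegral.integral_const_mul]
    apply intervalIntegral.integral_congr_ae
    have h1 : ∀ᵐ t : ℝ, t ≠ 1 := by
      simp [ae_iff, measure_singleton]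
    filter_upwards [h1] with t ht ht2
    rw [uIoc_of_le zero_le_one, mem_Ioc] at ht2
    rw [gam_lt_one ht2.1.le ht2.2]
    have : t < 1 := lt_of_le_of_ne ht2.2 ht
    unfold dgam
    rw [if_pos this]
    ring
  · have h2 : ∫ t in (1 : ℝ)..(B + 1), f (gam c s t) * dgam s t
        = ∫ t in (1 : ℝ)..(B + 1), (fun u : ℝ => f ((u : ℂ) + ((π * c + s : ℝ) : ℂ) * Complex.I))
            (t + (π * |(c : ℝ)| - 3 - 1)) := by
      apply intervalIntegral.integral_congr
      intro t ht
      rw [uIcc_of_le (by linarith)] at ht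
      simp only
      rw [gam_ge_one ht.1]
      unfold dgam
      rw [if_neg (by linarith [ht.1]), mul_one]
    rw [h2]
    refine (intervalIntegral.integral_comp_add_right
      (fun u : ℝ => f ((u : ℂ) + ((π * c + s : ℝ) : ℂ) * Complex.I)) _).trans ?_
    congr 1 <;> ring

theorem jump_relation (hN : 0 ≤ N) (hB : Integrable (B0 κ N) mu0)
    (hm : ∫ p, B0 κ N p ∂mu0 ≤ 1 / 256) (hx : Continuous x) (hx2 : ∀ q, ‖x q‖ ≤ 2)
    (hfix : ∀ j b t, x (j, b, t) = Fop κ N x j (gam j (bs b) t)) (c : ℤ) {ξ : ℂ}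
    (h1 : |ξ.im| < ξ.re) (h2 : |ξ.im - π * c| < 3 / 4) :
    Fop κ N x (c + 1) ξ - Fop κ N x (c - 1) ξ = jmp κ N x c ξ := by
  have hpi := Real.pi_pos
  have hpi3 := Real.pi_gt_three
  obtain ⟨h2a, h2b⟩ := abs_lt.mp h2
  have hO1 : ξ ∈ Om (c + 1) := by
    refine ⟨h1, ?_, ?_⟩ <;> push_cast <;> nlinarith
  have hO2 : ξ ∈ Om (c - 1) := by
    refine ⟨h1, ?_, ?_⟩ <;> push_cast <;> nlinarith
  have hint : ∀ j : ℤ, ξ ∈ Om j → Integrable (fun p => dens κ N x j p / (gm j p - ξ)) mu0 := by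
    intro j hj
    exact CT_integrable (B := fun p => B0 κ N p * 2) (hB.mul_const _)
      (measurable_dens κ N hx j).aestronglyMeasurable
      (measurable_gm j).aestronglyMeasurable
      (Eventually.of_forall fun p => norm_dens_le κ hN hx2 j p)
      (by norm_num : (0:ℝ) < 1 / 4) (fun p hp => dist2 (dens_ne_zero hp) hj p.2)
  have hi1 := hint _ hO1
  have hi2 := hint _ hO2
  -- reduce to the slice `c`
  have e1 : Fop κ N x (c + 1) ξ - Fop κ N x (c - 1) ξ
      = ∑' i : ℤ, ∫ t in Ioi (0 : ℝ), (dens κ N x (c + 1) (i, t) / (gm (c + 1) (i, t) - ξ)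
          - dens κ N x (c - 1) (i, t) / (gm (c - 1) (i, t) - ξ)) := by
    unfold Fop
    rw [add_sub_add_left_eq_sub, ← integral_sub hi1 hi2]
    exact integral_mu0 (hi1.sub hi2)
  have e2 : ∀ i : ℤ, i ≠ c → ∫ t in Ioi (0 : ℝ), (dens κ N x (c + 1) (i, t) / (gm (c + 1) (i, t) - ξ)
          - dens κ N x (c - 1) (i, t) / (gm (c - 1) (i, t) - ξ)) = 0 := by
    intro i hi
    have : ∀ t : ℝ, dens κ N x (c + 1) (i, t) / (gm (c + 1) (i, t) - ξ)
          - dens κ N x (c - 1) (i, t) / (gm (c - 1) (i, t) - ξ) = 0 := by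
      intro t
      unfold dens gm
      simp only
      have hpar : Odd (i - (c + 1)) ↔ Odd (i - (c - 1)) := by
        rw [Int.odd_iff, Int.odd_iff]; omega
      by_cases ho : Odd (i - (c + 1))
      · rw [if_pos ho, if_pos (hpar.mp ho)]
        have hsb : sb i (c + 1) = sb i (c - 1) := by
          rw [Int.odd_iff] at ho
          unfold sb
          by_cases h : c + 1 < i
          · have : c - 1 < i := by omega
            simp [h, this]
          · have : ¬ (c - 1 < i) := by omega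
            simp [h, this]
        rw [hsb, sub_self]
      · rw [if_neg ho, if_neg (fun h => ho (hpar.mpr h))]
        simp
    simp only [this, integral_zero]
  rw [e1, tsum_eq_single c e2]
  have hs1 := slice_integrable hi1 c
  have hs2 := slice_integrable hi2 c
  have ho1 : Odd (c - (c + 1)) := by rw [Int.odd_iff]; omega
  have ho2 : Odd (c - (c - 1)) := by rw [Int.odd_iff]; omega
  have hb1 : sb c (c + 1) = false := by simp [sb]
  have hb2 : sb c (c - 1) = true := by simp [sb]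
  set f : ℂ → ℂ := fun ζ => jmp κ N x c ζ / (ζ - ξ) with hf
  have g1 : (fun t : ℝ => dens κ N x (c + 1) (c, t) / (gm (c + 1) (c, t) - ξ))
      = fun t => (2 * π * Complex.I)⁻¹ * (f (gam c (-1) t) * dgam (-1) t) := by
    ext t
    rw [dens_line hfix c (c + 1) ho1]
    unfold gm
    simp only [hb1, hf]
    have : bs false = -1 := by simp [bs]
    rw [this]; ring
  have g2 : (fun t : ℝ => dens κ N x (c - 1) (c, t) / (gm (c - 1) (c, t) - ξ))
      = fun t => (2 * π * Complex.I)⁻¹ * (f (gam c 1 t) * dgam 1 t) := by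
    ext t
    rw [dens_line hfix c (c - 1) ho2]
    unfold gm
    simp only [hb2, hf]
    have : bs true = 1 := by simp [bs]
    rw [this]; ring
  have hP : (2 * π * Complex.I : ℂ) ≠ 0 := by
    simp [Real.pi_ne_zero]
  rw [g1] at hs1
  rw [g2] at hs2
  have hs1' : IntegrableOn (fun t => f (gam c (-1) t) * dgam (-1) t) (Ioi (0 : ℝ)) := by
    have := hs1.const_mul (2 * π * Complex.I)
    refine this.congr (Eventually.of_forall fun t => ?_)
    simp only
    rw [← mul_assoc, mul_inv_cancel₀ hP, one_mul]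
  have hs2' : IntegrableOn (fun t => f (gam c 1 t) * dgam 1 t) (Ioi (0 : ℝ)) := by
    have := hs2.const_mul (2 * π * Complex.I)
    refine this.congr (Eventually.of_forall fun t => ?_)
    simp only
    rw [← mul_assoc, mul_inv_cancel₀ hP, one_mul]
  have e3 : ∫ t in Ioi (0 : ℝ), (dens κ N x (c + 1) (c, t) / (gm (c + 1) (c, t) - ξ)
          - dens κ N x (c - 1) (c, t) / (gm (c - 1) (c, t) - ξ))
      = (2 * π * Complex.I)⁻¹ * ((∫ t in Ioi (0 : ℝ), f (gam c (-1) t) * dgam (-1) t)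
          - ∫ t in Ioi (0 : ℝ), f (gam c 1 t) * dgam 1 t) := by
    rw [integral_sub (by rw [g1]; exact hs1) (by rw [g2]; exact hs2), g1, g2,
      integral_const_mul, integral_const_mul, mul_sub]
  rw [e3]
  -- limit argument
  set a : ℝ := π * |(c : ℝ)| - 3 with ha
  have haξ : a < ξ.re := by
    have h3 : π * |(c : ℝ)| ≤ |ξ.im| + 3 / 4 := by
      have h4 : |π * (c : ℝ)| = π * |(c : ℝ)| := by rw [abs_mul, abs_of_pos hpi]
      have h5 : |π * (c : ℝ)| ≤ |ξ.im| + |ξ.im - π * c| := by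
        have := abs_sub_abs_le_abs_sub (π * (c : ℝ)) ξ.im
        rw [abs_sub_comm] at this
        linarith
      linarith
    rw [ha]; linarith
  have hy1 : π * c + -1 < ξ.im := by linarith
  have hy2 : ξ.im < π * c + 1 := by linarith
  have htend : Tendsto (fun B : ℝ => B + 1) atTop atTop := tendsto_atTop_add_const_right _ _ tendsto_id
  have lim1 := intervalIntegral_tendsto_integral_Ioi 0 hs1' htend
  have lim2 := intervalIntegral_tendsto_integral_Ioi 0 hs2' htend
  have lim := lim1.sub lim2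
  -- value of the truncated integrals
  have hval : ∀ᶠ B : ℝ in atTop,
      (∫ t in (0 : ℝ)..(B + 1), f (gam c (-1) t) * dgam (-1) t)
        - (∫ t in (0 : ℝ)..(B + 1), f (gam c 1 t) * dgam 1 t)
      = 2 * π * Complex.I * jmp κ N x c ξ
        - Complex.I * (∫ y : ℝ in (π * c + -1)..(π * c + 1),
            jmp κ N x c (((a + B : ℝ) : ℂ) + y * Complex.I) / ((((a + B : ℝ) : ℂ) + y * Complex.I : ℂ) - ξ)) := by
    filter_upwards [eventually_ge_atTop 0, eventually_gt_atTop (ξ.re - a)] with B hB0 hB1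
    rw [side_integral f c (-1) hs1' hB0, side_integral f c 1 hs2' hB0]
    have hrect := rect_cauchy (D := jmp κ N x c) (isOpen_Bd c)
      (jmp_differentiableOn hN hB hx hx2 c) (a := a) (b := a + B) (y1 := π * c + -1)
      (y2 := π * c + 1) (ξ := ξ) haξ (by linarith) hy1 hy2 (by
        intro u v _ _ hv1 hv2
        show |_| < (2 : ℝ)
        have : ((u : ℂ) + v * Complex.I).im = v := by simp
        rw [this, abs_lt]
        constructor <;> linarith)
    -- vertical pieces
    have v1 : ∫ t in (0 : ℝ)..1, f ((a : ℂ) + ((π * c + (-1) * t : ℝ) : ℂ) * Complex.I)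
        = ∫ y in (π * c + -1)..(π * c), f ((a : ℂ) + (y : ℂ) * Complex.I) := by
      have := intervalIntegral.integral_comp_sub_left
        (fun y : ℝ => f ((a : ℂ) + (y : ℂ) * Complex.I)) (a := 0) (b := 1) (π * (c : ℝ))
      rw [sub_zero] at this
      rw [show π * (c : ℝ) + -1 = π * c - 1 by ring, ← this]
      apply intervalIntegral.integral_congr
      intro t _
      simp only
      congr 3
      ring_nf
    have v2 : ∫ t in (0 : ℝ)..1, f ((a : ℂ) + ((π * c + 1 * t : ℝ) : ℂ) * Complex.I)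
        = ∫ y in (π * c)..(π * c + 1), f ((a : ℂ) + (y : ℂ) * Complex.I) := by
      have := intervalIntegral.integral_comp_add_left
        (fun y : ℝ => f ((a : ℂ) + (y : ℂ) * Complex.I)) (a := 0) (b := 1) (π * (c : ℝ))
      rw [add_zero] at this
      rw [← this]
      apply intervalIntegral.integral_congr
      intro t _
      simp only
      rw [one_mul]
    have hfc : ∀ y : ℝ, π * c + -1 ≤ y → y ≤ π * c + 1 →
        ContinuousAt (fun y : ℝ => f ((a : ℂ) + (y : ℂ) * Complex.I)) y := by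
      intro y hy1 hy2
      have hmem : ((a : ℂ) + (y : ℂ) * Complex.I) ∈ Bd c := by
        show |_| < (2 : ℝ)
        have : ((a : ℂ) + y * Complex.I).im = y := by simp
        rw [this, abs_lt]
        constructor <;> linarith
      have hc1 : ContinuousAt (jmp κ N x c) ((a : ℂ) + (y : ℂ) * Complex.I) :=
        ((jmp_differentiableOn hN hB hx hx2 c).differentiableAt
          ((isOpen_Bd c).mem_nhds hmem)).continuousAt
      apply ContinuousAt.div
      · exact ContinuousAt.comp (f := fun y : ℝ => ((a : ℂ) + (y : ℂ) * Complex.I)) hc1 (by fun_prop)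
      · fun_prop
      · intro h0
        have := congrArg Complex.re h0
        simp at this
        linarith
    have v3 : (∫ y in (π * c + -1)..(π * c), f ((a : ℂ) + (y : ℂ) * Complex.I))
        + (∫ y in (π * c)..(π * c + 1), f ((a : ℂ) + (y : ℂ) * Complex.I))
        = ∫ y in (π * c + -1)..(π * c + 1), f ((a : ℂ) + (y : ℂ) * Complex.I) := by
      apply intervalIntegral.integral_add_adjacent_intervals
      · apply ContinuousOn.intervalIntegrable
        rw [uIcc_of_le (by linarith)]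
        intro y hy
        exact (hfc y hy.1 (by linarith [hy.2])).continuousWithinAt
      · apply ContinuousOn.intervalIntegrable
        rw [uIcc_of_le (by linarith)]
        intro y hy
        exact (hfc y (by linarith [hy.1]) hy.2).continuousWithinAt
    rw [v1, v2]
    have hfe : ∀ ζ, f ζ = jmp κ N x c ζ / (ζ - ξ) := fun ζ => rfl
    simp only [hfe] at v3 ⊢
    push_cast at hrect v3 ⊢
    linear_combination hrect - Complex.I * v3
  -- the right side tends to zero
  have hR : Tendsto (fun B : ℝ => Complex.I * (∫ y : ℝ in (π * c + -1)..(π * c + 1),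
            jmp κ N x c (((a + B : ℝ) : ℂ) + y * Complex.I) / ((((a + B : ℝ) : ℂ) + y * Complex.I : ℂ) - ξ)))
      atTop (𝓝 0) := by
    have h3 : Tendsto (fun B : ℝ => (‖κ c‖ * 2 / (a + B - ξ.re)) * |π * c + 1 - (π * c + -1)|) atTop (𝓝 0) := by
      have h4 : Tendsto (fun B : ℝ => a + B - ξ.re) atTop atTop :=
        tendsto_atTop_add_const_right _ _ (tendsto_atTop_add_const_left _ _ tendsto_id)
      have := (h4.const_div_atTop (‖κ c‖ * 2)).mul_const |π * c + 1 - (π * c + -1)|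
      simpa using this
    apply squeeze_zero_norm' _ h3
    filter_upwards [eventually_gt_atTop (ξ.re - a)] with B hB1
    rw [norm_mul, Complex.norm_I, one_mul]
    apply intervalIntegral.norm_integral_le_of_norm_le_const
    intro y hy
    rw [uIoc_of_le (by linarith), mem_Ioc] at hy
    rw [norm_div]
    have him : (((a + B : ℝ) : ℂ) + y * Complex.I).im = y := by simp
    have hre : ((((a + B : ℝ) : ℂ) + y * Complex.I : ℂ) - ξ).re = a + B - ξ.re := by simp
    apply div_le_div₀ (by positivity)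
    · apply jmp_bound hN hB hm hx2
      rw [him, abs_le]
      constructor <;> linarith [hy.1, hy.2]
    · linarith
    · rw [← hre]
      exact Complex.re_le_norm _
  have hfin : Tendsto (fun B : ℝ => (∫ t in (0 : ℝ)..(B + 1), f (gam c (-1) t) * dgam (-1) t)
        - (∫ t in (0 : ℝ)..(B + 1), f (gam c 1 t) * dgam 1 t)) atTop
      (𝓝 (2 * π * Complex.I * jmp κ N x c ξ)) := by
    have h5 := (tendsto_const_nhds (x := 2 * π * Complex.I * jmp κ N x c ξ)).sub hR
    rw [sub_zero] at h5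
    exact h5.congr' (by filter_upwards [hval] with B hB; rw [hB])
  have huniq := tendsto_nhds_unique lim hfin
  rw [huniq, ← mul_assoc, inv_mul_cancel₀ hP, one_mul]

end

end IDP
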