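import Mathlib
import Pool.Agent.Helper21.IDP.RH4

open Filter Topology Real MeasureTheory Set

namespace IDP

/-- Main output of the Riemann–Hilbert (Cauchy integral) fixed point. -/
theorem rh_main {κ : ℤ → ℂ} {K : ℝ} (hK : 0 ≤ K)
    (hκ : ∀ i, ‖κ i‖ ≤ Real.exp (K * Real.exp |(i : ℝ)|)) :
    ∃ N0 : ℝ, ∀ N, N0 ≤ N → ∃ F : ℤ → ℂ → ℂ,
      (∀ j, DifferentiableOn ℂ (F j) (Om j)) ∧
      (∀ j, ∀ ξ ∈ Om j, ‖F j ξ - 1‖ ≤ 1 / 32) ∧
      (∀ j, ∀ ξ ∈ Om j, ‖deriv (F j) ξ‖ ≤ 1 / 8) ∧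
      (∀ c : ℤ, ∀ ξ : ℂ, |ξ.im| < ξ.re → |ξ.im - π * c| < 3 / 4 →
        F (c + 1) ξ - F (c - 1) ξ
          = κ c * Complex.exp (-2 * sgn c * N * Complex.exp ξ) * F c ξ) := by
  obtain ⟨N0, hN0⟩ := exists_mass hκ hK
  refine ⟨N0, fun N hN => ?_⟩
  obtain ⟨hNn, hB, hm⟩ := hN0 N hN
  obtain ⟨x, hx, hx2, hfix⟩ := exists_fixed hNn hB hm
  refine ⟨Fop κ N x, ?_, ?_, ?_, ?_⟩
  · intro j ξ hξ
    exact (Fop_hasDerivAt hNn hB hx hx2 j (by norm_num : (0:ℝ) < 1 / 4) ((isOpen_Om j).mem_nhds hξ)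
      (fun η hη i hi t => dist2 hi hη t)).differentiableAt.differentiableWithinAt
  · intro j ξ hξ
    have := Fop_sub_one_bound hNn hB hx2 j (by norm_num : (0:ℝ) < 1 / 4)
      (fun i hi t => dist2 hi hξ t)
    refine this.trans ?_
    rw [div_le_iff₀ (by norm_num)]
    linarith
  · intro j ξ hξ
    have h1 := Fop_hasDerivAt hNn hB hx hx2 j (by norm_num : (0:ℝ) < 1 / 4)
      ((isOpen_Om j).mem_nhds hξ) (fun η hη i hi t => dist2 hi hη t)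
    rw [h1.deriv]
    have := Fop_deriv_bound hNn hB hx2 j (by norm_num : (0:ℝ) < 1 / 4)
      (fun i hi t => dist2 hi hξ t)
    refine this.trans ?_
    rw [div_le_iff₀ (by norm_num)]
    linarith
  · intro c ξ h1 h2
    exact jump_relation hNn hB hm hx hx2 hfix c h1 h2

end IDP
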