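import Mathlib
import Pool.Agent.Helper21.IDP.RH5

open Filter Topology Real MeasureTheory Set

namespace IDP

lemma nrm_vec (p : Option ℂ) : nrm (vec p) = 1 := by
  cases p with
  | none => simp [nrm, vec]
  | some c =>
    have h : 0 < 1 + ‖c‖ ^ 2 := by positivity
    have h2 : (Real.sqrt (1 + ‖c‖ ^ 2)) ^ 2 = 1 + ‖c‖ ^ 2 := Real.sq_sqrt h.le
    simp only [nrm, vec, norm_div, norm_one, Complex.norm_real, Real.norm_eq_abs]
    rw [Real.sqrt_eq_one, div_pow, div_pow, sq_abs, h2, one_pow, ← add_div]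
    rw [div_eq_one_iff_eq h.ne']
    ring

lemma nrm_nonneg (v : ℂ × ℂ) : 0 ≤ nrm v := Real.sqrt_nonneg _

lemma nrm_sq (v : ℂ × ℂ) : nrm v ^ 2 = ‖v.1‖ ^ 2 + ‖v.2‖ ^ 2 := Real.sq_sqrt (by positivity)

lemma norm_fst_le (v : ℂ × ℂ) : ‖v.1‖ ≤ nrm v := by
  apply Real.le_sqrt_of_sq_le
  have : 0 ≤ ‖v.2‖ ^ 2 := by positivity
  linarith

lemma norm_snd_le (v : ℂ × ℂ) : ‖v.2‖ ≤ nrm v := by
  apply Real.le_sqrt_of_sq_le
  have : 0 ≤ ‖v.1‖ ^ 2 := by positivity
  linarith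

lemma nrm_le_add (v : ℂ × ℂ) : nrm v ≤ ‖v.1‖ + ‖v.2‖ := by
  unfold nrm
  rw [Real.sqrt_le_left (by positivity)]
  nlinarith [norm_nonneg v.1, norm_nonneg v.2]

lemma nrm_smul (a : ℂ) (v : ℂ × ℂ) : nrm (a • v) = ‖a‖ * nrm v := by
  unfold nrm
  simp only [Prod.smul_fst, Prod.smul_snd, smul_eq_mul, norm_mul, mul_pow]
  rw [← mul_add, Real.sqrt_mul (by positivity), Real.sqrt_sq (norm_nonneg _)]

lemma norm_det2_le (v w : ℂ × ℂ) : ‖det2 v w‖ ≤ nrm v * nrm w := by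
  have h1 : ‖det2 v w‖ ≤ ‖v.1‖ * ‖w.2‖ + ‖v.2‖ * ‖w.1‖ := by
    unfold det2
    refine (norm_sub_le _ _).trans ?_
    rw [norm_mul, norm_mul]
  refine h1.trans ?_
  have h2 : 0 ≤ nrm v * nrm w := mul_nonneg (nrm_nonneg _) (nrm_nonneg _)
  apply le_of_sq_le_sq _ h2
  rw [mul_pow, nrm_sq, nrm_sq]
  nlinarith [sq_nonneg (‖v.1‖ * ‖w.1‖ - ‖v.2‖ * ‖w.2‖)]

lemma det2_smul_left (a : ℂ) (v w : ℂ × ℂ) : det2 (a • v) w = a * det2 v w := by
  simp only [det2, Prod.smul_fst, Prod.smul_snd, smul_eq_mul]; ring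

lemma det2_smul_right (a : ℂ) (v w : ℂ × ℂ) : det2 v (a • w) = a * det2 v w := by
  simp only [det2, Prod.smul_fst, Prod.smul_snd, smul_eq_mul]; ring

lemma det2_add_left (u v w : ℂ × ℂ) : det2 (u + v) w = det2 u w + det2 v w := by
  simp only [det2, Prod.fst_add, Prod.snd_add]; ring

lemma det2_sub_left (u v w : ℂ × ℂ) : det2 (u - v) w = det2 u w - det2 v w := by
  simp only [det2, Prod.fst_sub, Prod.snd_sub]; ring

lemma det2_swap (v w : ℂ × ℂ) : det2 w v = - det2 v w := by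
  simp only [det2]; ring

lemma det2_self (v : ℂ × ℂ) : det2 v v = 0 := by
  simp only [det2]; ring

lemma det2_expand (u p q : ℂ × ℂ) : det2 p q • u = det2 u q • p - det2 u p • q := by
  ext <;> simp only [det2, Prod.smul_fst, Prod.smul_snd, smul_eq_mul, Prod.fst_sub, Prod.snd_sub] <;>
    ring

lemma det2_vec_eq_zero {p q : Option ℂ} (h : det2 (vec p) (vec q) = 0) : p = q := by
  have hs : ∀ c : ℂ, ((Real.sqrt (1 + ‖c‖ ^ 2) : ℝ) : ℂ) ≠ 0 := by
    intro c
    rw [Complex.ofReal_ne_zero]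
    exact (Real.sqrt_pos.mpr (by positivity)).ne'
  cases p with
  | none =>
    cases q with
    | none => rfl
    | some c =>
      exfalso
      simp only [det2, vec] at h
      have := hs c
      field_simp at h
      simp at h
  | some c =>
    cases q with
    | none =>
      exfalso
      simp only [det2, vec] at h
      have := hs c
      field_simp at h
      simp at h
    | some d =>
      simp only [det2, vec] at h
      have h1 := hs c
      have h2 := hs d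
      field_simp at h
      have : c = d := by linear_combination h
      rw [this]

/-- All the data of the construction. -/
structure Data where
  L : ℕ → Option ℂ
  s : ℤ → ℂ
  A : ℝ
  N : ℝ
  F : ℤ → ℂ → ℂ
  hadj : ∀ k, L k ≠ L (k + 1)
  hA : 0 ≤ A
  hs1 : ∀ k : ℤ, Real.exp (-(A * Real.exp |(k : ℝ)|)) ≤ ‖s k‖
  hs2 : ∀ k : ℤ, ‖s k‖ ≤ Real.exp (A * Real.exp |(k : ℝ)|)
  hdet : ∀ k : ℤ, s k * s (k + 1) * det2 (vec (L k.natAbs)) (vec (L (k + 1).natAbs)) = sgn k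
  hN : 10 ≤ N
  hF0 : ∀ j, DifferentiableOn ℂ (F j) (Om j)
  hF1 : ∀ j, ∀ ξ ∈ Om j, ‖F j ξ - 1‖ ≤ 1 / 32
  hF2 : ∀ j, ∀ ξ ∈ Om j, ‖deriv (F j) ξ‖ ≤ 1 / 8
  hF3 : ∀ c : ℤ, ∀ ξ : ℂ, |ξ.im| < ξ.re → |ξ.im - π * c| < 3 / 4 →
        F (c + 1) ξ - F (c - 1) ξ
          = (sgn c * det2 (s (c - 1) • vec (L (c - 1).natAbs)) (s (c + 1) • vec (L (c + 1).natAbs)))
            * Complex.exp (-2 * sgn c * N * Complex.exp ξ) * F c ξ

/-- scalars -/
noncomputable def sseq (L : ℕ → Option ℂ) : ℕ → ℂ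
  | 0 => 1
  | (n + 1) => (-1) ^ n / (sseq L n * det2 (vec (L n)) (vec (L (n + 1))))

lemma sseq_ne_zero {L : ℕ → Option ℂ} (hadj : ∀ k, L k ≠ L (k + 1)) (n : ℕ) : sseq L n ≠ 0 := by
  induction n with
  | zero => simp [sseq]
  | succ n ih =>
    rw [sseq]
    apply div_ne_zero (by simp)
    apply mul_ne_zero ih
    intro h
    exact hadj n (det2_vec_eq_zero h)

lemma sseq_det {L : ℕ → Option ℂ} (hadj : ∀ k, L k ≠ L (k + 1)) (n : ℕ) :
    sseq L n * sseq L (n + 1) * det2 (vec (L n)) (vec (L (n + 1))) = (-1) ^ n := by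
  have h1 := sseq_ne_zero hadj n
  have h2 : det2 (vec (L n)) (vec (L (n + 1))) ≠ 0 := fun h => hadj n (det2_vec_eq_zero h)
  rw [sseq]
  field_simp

lemma sseq_bound {L : ℕ → Option ℂ} (hadj : ∀ k, L k ≠ L (k + 1)) {C : ℝ} (hC : 0 ≤ C)
    (hsep : ∀ k, Real.exp (-(((k : ℕ) : ℝ) + 1 + C)) ≤ ‖det2 (vec (L k)) (vec (L (k + 1)))‖) (n : ℕ) :
    Real.exp (-((1 + C) * ((n : ℝ) + 1) ^ 2)) ≤ ‖sseq L n‖ ∧
      ‖sseq L n‖ ≤ Real.exp ((1 + C) * ((n : ℝ) + 1) ^ 2) := by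
  induction n with
  | zero =>
    simp only [sseq, norm_one]
    constructor
    · apply Real.exp_le_one_iff.mpr
      have : 0 ≤ (1 + C) * (((0 : ℕ) : ℝ) + 1) ^ 2 := by positivity
      linarith
    · apply Real.one_le_exp
      positivity
  | succ n ih =>
    obtain ⟨ih1, ih2⟩ := ih
    have hd1 := hsep n
    have hd2 : ‖det2 (vec (L n)) (vec (L (n + 1)))‖ ≤ 1 := by
      have := norm_det2_le (vec (L n)) (vec (L (n + 1)))
      rwa [nrm_vec, nrm_vec, mul_one] at this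
    have hd0 : 0 < ‖det2 (vec (L n)) (vec (L (n + 1)))‖ := lt_of_lt_of_le (Real.exp_pos _) hd1
    have hs0 : 0 < ‖sseq L n‖ := lt_of_lt_of_le (Real.exp_pos _) ih1
    have he : ‖sseq L (n + 1)‖ = (‖sseq L n‖ * ‖det2 (vec (L n)) (vec (L (n + 1)))‖)⁻¹ := by
      rw [sseq, norm_div, norm_mul]
      simp
    rw [he]
    push_cast
    constructor
    · rw [Real.exp_neg]
      apply inv_anti₀ (by positivity)
      calc ‖sseq L n‖ * ‖det2 (vec (L n)) (vec (L (n + 1)))‖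
          ≤ Real.exp ((1 + C) * ((n : ℝ) + 1) ^ 2) * 1 := by gcongr
        _ ≤ Real.exp ((1 + C) * ((n : ℝ) + 1 + 1) ^ 2) := by
            rw [mul_one]
            apply Real.exp_le_exp.mpr
            have : (0 : ℝ) ≤ n := by positivity
            gcongr
            linarith
    · rw [inv_le_comm₀ (by positivity) (Real.exp_pos _), ← Real.exp_neg]
      calc Real.exp (-((1 + C) * ((n : ℝ) + 1 + 1) ^ 2))
          ≤ Real.exp (-((1 + C) * ((n : ℝ) + 1) ^ 2) + -((n : ℝ) + 1 + C)) := by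
            apply Real.exp_le_exp.mpr
            have : (0 : ℝ) ≤ n := by positivity
            nlinarith [mul_nonneg this hC]
        _ = Real.exp (-((1 + C) * ((n : ℝ) + 1) ^ 2)) * Real.exp (-((n : ℝ) + 1 + C)) :=
            Real.exp_add _ _
        _ ≤ ‖sseq L n‖ * ‖det2 (vec (L n)) (vec (L (n + 1)))‖ := by gcongr

/-- Existence of the data for a separated label sequence. -/
theorem exists_data (L : ℕ → Option ℂ) (C : ℝ) (hadj : ∀ k, L k ≠ L (k + 1))
    (hsep : ∀ k i j : ℕ, i ≤ k → j ≤ k → L i ≠ L j →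
        Real.exp (-(k + C)) ≤ ‖det2 (vec (L i)) (vec (L j))‖) :
    ∃ D : Data, D.L = L := by
  set C' : ℝ := max C 0 with hC'
  have hC0 : 0 ≤ C' := le_max_right _ _
  have hsep' : ∀ k : ℕ, Real.exp (-((k : ℝ) + 1 + C')) ≤ ‖det2 (vec (L k)) (vec (L (k + 1)))‖ := by
    intro k
    refine le_trans ?_ (hsep (k + 1) k (k + 1) (by omega) le_rfl (hadj k))
    apply Real.exp_le_exp.mpr
    push_cast
    have : C ≤ C' := le_max_left _ _
    linarith
  have hb := sseq_bound hadj hC0 hsep'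
  set A : ℝ := 4 * (1 + C') with hA
  have hA0 : 0 ≤ A := by positivity
  have hquad : ∀ n : ℕ, (1 + C') * ((n : ℝ) + 1) ^ 2 ≤ A * Real.exp n := by
    intro n
    have h1 : ((n : ℝ) + 1) ^ 2 ≤ 4 * Real.exp n := by
      have h2 : (n : ℝ) / 2 + 1 ≤ Real.exp ((n : ℝ) / 2) := Real.add_one_le_exp _
      have h3 : Real.exp (n : ℝ) = Real.exp ((n : ℝ) / 2) ^ 2 := by
        rw [← Real.exp_nat_mul]; congr 1; push_cast; ring
      rw [h3]
      have h4 : (0 : ℝ) ≤ n := by positivity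
      nlinarith [Real.exp_pos ((n : ℝ) / 2)]
    rw [hA]
    nlinarith
  set s : ℤ → ℂ := fun k => sseq L k.natAbs with hs
  have habs : ∀ k : ℤ, ((k.natAbs : ℕ) : ℝ) = |(k : ℝ)| := by
    intro k; rw [Nat.cast_natAbs]; push_cast; rfl
  have hs1 : ∀ k : ℤ, Real.exp (-(A * Real.exp |(k : ℝ)|)) ≤ ‖s k‖ := by
    intro k
    refine le_trans ?_ (hb k.natAbs).1
    apply Real.exp_le_exp.mpr
    have := hquad k.natAbs
    rw [habs] at this ⊢
    linarith
  have hs2 : ∀ k : ℤ, ‖s k‖ ≤ Real.exp (A * Real.exp |(k : ℝ)|) := by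
    intro k
    refine (hb k.natAbs).2.trans ?_
    apply Real.exp_le_exp.mpr
    have := hquad k.natAbs
    rw [habs] at this ⊢
    linarith
  have hdet : ∀ k : ℤ, s k * s (k + 1) * det2 (vec (L k.natAbs)) (vec (L (k + 1).natAbs)) = sgn k := by
    intro k
    rcases le_or_gt 0 k with hk | hk
    · obtain ⟨n, rfl⟩ := Int.eq_ofNat_of_zero_le hk
      have e1 : ((n : ℤ)).natAbs = n := rfl
      have e2 : ((n : ℤ) + 1).natAbs = n + 1 := by omega
      simp only [hs, e1, e2]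
      rw [sseq_det hadj n]
      simp [sgn]
    · obtain ⟨n, hn⟩ : ∃ n : ℕ, k = -(n : ℤ) - 1 := ⟨(-k - 1).toNat, by omega⟩
      have e1 : k.natAbs = n + 1 := by omega
      have e2 : (k + 1).natAbs = n := by omega
      simp only [hs, e1, e2]
      have h1 := sseq_det hadj n
      have h2 : det2 (vec (L (n + 1))) (vec (L n)) = - det2 (vec (L n)) (vec (L (n + 1))) :=
        det2_swap _ _
      rw [h2]
      have h3 : (sgn k : ℂ) = -(-1) ^ n := by
        rw [hn]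
        unfold sgn
        rw [zpow_sub₀ (by norm_num), zpow_neg, zpow_natCast, zpow_one]
        push_cast
        rcases neg_one_pow_eq_or ℂ n with h | h <;> rw [h] <;> norm_num
      rw [h3]
      linear_combination -h1
  -- the jump coefficients
  set κ : ℤ → ℂ := fun c => sgn c * det2 (s (c - 1) • vec (L (c - 1).natAbs))
    (s (c + 1) • vec (L (c + 1).natAbs)) with hκ
  have hκb : ∀ i : ℤ, ‖κ i‖ ≤ Real.exp ((2 * A * Real.exp 1) * Real.exp |(i : ℝ)|) := by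
    intro i
    have h1 : ‖κ i‖ ≤ ‖s (i - 1)‖ * ‖s (i + 1)‖ := by
      simp only [hκ]
      rw [norm_mul, Complex.norm_real, Real.norm_eq_abs, abs_sgn, one_mul]
      refine (norm_det2_le _ _).trans ?_
      rw [nrm_smul, nrm_smul, nrm_vec, nrm_vec, mul_one, mul_one]
    refine h1.trans ?_
    have h2 := hs2 (i - 1)
    have h3 := hs2 (i + 1)
    have h4 : Real.exp |((i - 1 : ℤ) : ℝ)| ≤ Real.exp 1 * Real.exp |(i : ℝ)| := by
      rw [← Real.exp_add]
      apply Real.exp_le_exp.mpr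
      push_cast
      have := abs_sub (i : ℝ) 1
      rw [abs_one] at this
      linarith
    have h5 : Real.exp |((i + 1 : ℤ) : ℝ)| ≤ Real.exp 1 * Real.exp |(i : ℝ)| := by
      rw [← Real.exp_add]
      apply Real.exp_le_exp.mpr
      push_cast
      have := abs_add_le (i : ℝ) 1
      rw [abs_one] at this
      linarith
    calc ‖s (i - 1)‖ * ‖s (i + 1)‖
        ≤ Real.exp (A * Real.exp |((i - 1 : ℤ) : ℝ)|) * Real.exp (A * Real.exp |((i + 1 : ℤ) : ℝ)|) := by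
          gcongr
      _ = Real.exp (A * Real.exp |((i - 1 : ℤ) : ℝ)| + A * Real.exp |((i + 1 : ℤ) : ℝ)|) :=
          (Real.exp_add _ _).symm
      _ ≤ _ := by
          apply Real.exp_le_exp.mpr
          nlinarith
  obtain ⟨N0, hN0⟩ := rh_main (by positivity : 0 ≤ 2 * A * Real.exp 1) hκb
  obtain ⟨F, hF0, hF1, hF2, hF3⟩ := hN0 (max N0 10) (le_max_left _ _)
  exact ⟨{ L := L, s := s, A := A, N := max N0 10, F := F, hadj := hadj, hA := hA0, hs1 := hs1,
           hs2 := hs2, hdet := hdet, hN := le_max_right _ _, hF0 := hF0, hF1 := hF1, hF2 := hF2,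
           hF3 := hF3 }, rfl⟩

end IDP
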