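import Mathlib
import Pool.Agent.Helper21.IDP.Defs

open Filter Topology Real

namespace IDP

open Classical in
/-- weight of the label `w` -/
noncomputable def qw (L : ℕ → Option ℂ) (w : Option ℂ) (y : ℝ) : ℝ :=
  if L (round (y / π)).natAbs = w then |Real.cos y| else 0

end IDP
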