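import Mathlib
import Pool.Agent.Helper21.IDP.Data

open Filter Topology Real MeasureTheory Set

namespace IDP

namespace Data
variable (D : Data)

/-- the vectors -/
noncomputable def W (k : ℤ) : ℂ × ℂ := D.s k • vec (D.L k.natAbs)

lemma s_ne (k : ℤ) : D.s k ≠ 0 := by
  intro h
  have := D.hs1 k
  rw [h, norm_zero] at this
  exact absurd this (not_le.mpr (Real.exp_pos _))

lemma det_W (k : ℤ) : det2 (D.W k) (D.W (k + 1)) = sgn k := by
  unfold W
  rw [det2_smul_left, det2_smul_right, ← mul_assoc]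
  exact D.hdet k

lemma nrm_W (k : ℤ) : nrm (D.W k) = ‖D.s k‖ := by
  unfold W
  rw [nrm_smul, nrm_vec, mul_one]

/-- dominating exponential on line `k` -/
noncomputable def E (k : ℤ) (ξ : ℂ) : ℂ := Complex.exp (sgn k * D.N * Complex.exp ξ)

lemma E_ne (k : ℤ) (ξ : ℂ) : D.E k ξ ≠ 0 := Complex.exp_ne_zero _

lemma E_succ (k : ℤ) (ξ : ℂ) : D.E (k + 1) ξ = (D.E k ξ)⁻¹ := by
  unfold E
  rw [← Complex.exp_neg, sgn_succ]
  congr 1
  push_cast; ring

lemma norm_E (k : ℤ) (ξ : ℂ) :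
    ‖D.E k ξ‖ = Real.exp (sgn k * D.N * Real.exp ξ.re * Real.cos ξ.im) := by
  unfold E
  rw [Complex.norm_exp]
  congr 1
  have : (sgn k * D.N * Complex.exp ξ : ℂ) = ((sgn k * D.N : ℝ) : ℂ) * Complex.exp ξ := by
    push_cast; ring
  rw [this, Complex.re_ofReal_mul, Complex.exp_re]
  ring

/-- the solution between lines `k` and `k+1` -/
noncomputable def V (k : ℤ) (ξ : ℂ) : ℂ × ℂ :=
  (D.E k ξ * D.F (k + 1) ξ) • D.W k + ((D.E k ξ)⁻¹ * D.F k ξ) • D.W (k + 1)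

lemma W_rel (c : ℤ) : D.W (c - 1) - D.W (c + 1)
    = (sgn c * det2 (D.W (c - 1)) (D.W (c + 1))) • D.W c := by
  have h1 := det2_expand (D.W (c - 1) - D.W (c + 1)) (D.W c) (D.W (c + 1))
  have h2 : det2 (D.W (c - 1) - D.W (c + 1)) (D.W c) = 0 := by
    rw [det2_sub_left, det2_swap (D.W c) (D.W (c + 1)), D.det_W c]
    have := D.det_W (c - 1)
    rw [sub_add_cancel] at this
    rw [this]
    have h3 := sgn_succ (c - 1)
    rw [sub_add_cancel] at h3
    rw [h3]; push_cast; ring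
  have h4 : det2 (D.W (c - 1) - D.W (c + 1)) (D.W (c + 1)) = det2 (D.W (c - 1)) (D.W (c + 1)) := by
    rw [det2_sub_left, det2_self, sub_zero]
  rw [h2, h4, zero_smul, sub_zero, D.det_W c] at h1
  have h5 : (sgn c : ℂ) * (sgn c : ℂ) = 1 := by exact_mod_cast sgn_sq c
  calc D.W (c - 1) - D.W (c + 1) = ((sgn c : ℂ) * (sgn c : ℂ)) • (D.W (c - 1) - D.W (c + 1)) := by
        rw [h5, one_smul]
    _ = (sgn c : ℂ) • ((sgn c : ℂ) • (D.W (c - 1) - D.W (c + 1))) := by rw [mul_smul]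
    _ = (sgn c : ℂ) • (det2 (D.W (c - 1)) (D.W (c + 1)) • D.W c) := by rw [h1]
    _ = _ := by rw [mul_smul]

lemma V_glue (c : ℤ) {ξ : ℂ} (h1 : |ξ.im| < ξ.re) (h2 : |ξ.im - π * c| < 3 / 4) :
    D.V (c - 1) ξ = D.V c ξ := by
  have h3 := D.hF3 c ξ h1 h2
  have h4 := D.W_rel c
  set κ : ℂ := sgn c * det2 (D.W (c - 1)) (D.W (c + 1)) with hκ
  have h3' : D.F (c + 1) ξ - D.F (c - 1) ξ
      = κ * Complex.exp (-2 * sgn c * D.N * Complex.exp ξ) * D.F c ξ := h3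
  have hE : Complex.exp (-2 * sgn c * D.N * Complex.exp ξ) = (D.E c ξ)⁻¹ * (D.E c ξ)⁻¹ := by
    unfold E
    rw [← Complex.exp_neg, ← Complex.exp_add]
    congr 1; ring
  have hE1 : D.E (c - 1) ξ = (D.E c ξ)⁻¹ := by
    have := D.E_succ (c - 1) ξ
    rw [sub_add_cancel] at this
    rw [this, inv_inv]
  unfold V
  rw [sub_add_cancel, hE1, inv_inv]
  have hne := D.E_ne c ξ
  set e := D.E c ξ with he
  have h5 : D.W (c - 1) = D.W (c + 1) + κ • D.W c := by rw [← h4]; abel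
  have h6 : D.F (c + 1) ξ = D.F (c - 1) ξ + κ * (e⁻¹ * e⁻¹) * D.F c ξ := by
    rw [← hE, ← h3']; ring
  rw [h5, h6]
  have h7 : e * (D.F (c - 1) ξ + κ * (e⁻¹ * e⁻¹) * D.F c ξ)
      = e * D.F (c - 1) ξ + e⁻¹ * D.F c ξ * κ := by
    field_simp
  rw [h7, add_smul, smul_add, smul_smul]
  abel

/-- the glued solution -/
noncomputable def v (ξ : ℂ) : ℂ × ℂ := D.V ⌊ξ.im / π⌋ ξ

lemma v_eq {ξ : ℂ} (h1 : |ξ.im| < ξ.re) {k : ℤ} (h2 : π * k - 3 / 4 < ξ.im)
    (h3 : ξ.im < π * (k + 1) + 3 / 4) : D.v ξ = D.V k ξ := by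
  have hpi := Real.pi_pos
  have hpi3 := Real.pi_gt_three
  unfold v
  set m := ⌊ξ.im / π⌋ with hm
  have hm1 : π * m ≤ ξ.im := by
    have := Int.floor_le (ξ.im / π)
    rw [← hm, le_div_iff₀ hpi] at this
    linarith
  have hm2 : ξ.im < π * (m + 1) := by
    have := Int.lt_floor_add_one (ξ.im / π)
    rw [← hm, div_lt_iff₀ hpi] at this
    linarith
  have hk1 : k ≤ m + 1 := by
    by_contra hcon
    have : (m : ℝ) + 2 ≤ k := by
      have : m + 2 ≤ k := by omega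
      exact_mod_cast this
    nlinarith
  have hk2 : m ≤ k + 1 := by
    by_contra hcon
    have : (k : ℝ) + 2 ≤ m := by
      have : k + 2 ≤ m := by omega
      exact_mod_cast this
    nlinarith
  have : k = m ∨ k = m + 1 ∨ k = m - 1 := by omega
  rcases this with h | h | h
  · rw [h]
  · rw [h]
    have := D.V_glue (m + 1) (ξ := ξ) h1 (by
      rw [h] at h2 h3
      push_cast at h2 h3 ⊢
      rw [abs_lt]
      constructor <;> nlinarith)
    rw [add_sub_cancel_right] at this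
    exact this
  · rw [h]
    have := D.V_glue m (ξ := ξ) h1 (by
      rw [h] at h2 h3
      push_cast at h2 h3 ⊢
      rw [abs_lt]
      constructor <;> nlinarith)
    exact this.symm

/-- strip around lines `k`, `k+1` -/
def St (k : ℤ) : Set ℂ := {ξ | |ξ.im| < ξ.re ∧ π * k - 3 / 4 < ξ.im ∧ ξ.im < π * (k + 1) + 3 / 4}

lemma isOpen_St (k : ℤ) : IsOpen (St k) := by
  have h1 : IsOpen {ξ : ℂ | |ξ.im| < ξ.re} :=
    isOpen_lt (Complex.continuous_im.abs) Complex.continuous_re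
  have h2 : IsOpen {ξ : ℂ | π * (k : ℝ) - 3 / 4 < ξ.im} :=
    isOpen_lt continuous_const Complex.continuous_im
  have h3 : IsOpen {ξ : ℂ | ξ.im < π * ((k : ℝ) + 1) + 3 / 4} :=
    isOpen_lt Complex.continuous_im continuous_const
  exact h1.inter (h2.inter h3)

lemma St_sub_Om (k : ℤ) : St k ⊆ Om k := by
  rintro ξ ⟨h1, h2, h3⟩
  have hpi := Real.pi_pos
  exact ⟨h1, by nlinarith, h3⟩

lemma St_sub_Om' (k : ℤ) : St k ⊆ Om (k + 1) := by
  rintro ξ ⟨h1, h2, h3⟩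
  have hpi := Real.pi_pos
  refine ⟨h1, ?_, ?_⟩ <;> push_cast <;> nlinarith

lemma exists_St {ξ : ℂ} (h1 : |ξ.im| < ξ.re) : ξ ∈ St ⌊ξ.im / π⌋ := by
  have hpi := Real.pi_pos
  refine ⟨h1, ?_, ?_⟩
  · have := Int.floor_le (ξ.im / π)
    rw [le_div_iff₀ hpi] at this
    linarith
  · have := Int.lt_floor_add_one (ξ.im / π)
    rw [div_lt_iff₀ hpi] at this
    linarith

lemma v_eq_St {k : ℤ} {ξ : ℂ} (h : ξ ∈ St k) : D.v ξ = D.V k ξ := D.v_eq h.1 h.2.1 h.2.2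

lemma differentiable_E (k : ℤ) : Differentiable ℂ (D.E k) := by
  unfold E; fun_prop

lemma V_diff1 (k : ℤ) : DifferentiableOn ℂ (fun ξ => (D.V k ξ).1) (St k) := by
  have h1 : DifferentiableOn ℂ (D.F k) (St k) := (D.hF0 k).mono (St_sub_Om k)
  have h2 : DifferentiableOn ℂ (D.F (k + 1)) (St k) := (D.hF0 (k + 1)).mono (St_sub_Om' k)
  have h3 := (D.differentiable_E k).differentiableOn (s := St k)
  have h4 : DifferentiableOn ℂ (fun ξ => (D.E k ξ)⁻¹) (St k) := h3.inv fun ξ _ => D.E_ne k ξ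
  simp only [V, Prod.fst_add, Prod.smul_fst, smul_eq_mul]
  exact ((h3.mul h2).mul_const _).add ((h4.mul h1).mul_const _)

lemma V_diff2 (k : ℤ) : DifferentiableOn ℂ (fun ξ => (D.V k ξ).2) (St k) := by
  have h1 : DifferentiableOn ℂ (D.F k) (St k) := (D.hF0 k).mono (St_sub_Om k)
  have h2 : DifferentiableOn ℂ (D.F (k + 1)) (St k) := (D.hF0 (k + 1)).mono (St_sub_Om' k)
  have h3 := (D.differentiable_E k).differentiableOn (s := St k)
  have h4 : DifferentiableOn ℂ (fun ξ => (D.E k ξ)⁻¹) (St k) := h3.inv fun ξ _ => D.E_ne k ξ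
  simp only [V, Prod.snd_add, Prod.smul_snd, smul_eq_mul]
  exact ((h3.mul h2).mul_const _).add ((h4.mul h1).mul_const _)

lemma v_diff1 {ξ : ℂ} (h1 : |ξ.im| < ξ.re) : DifferentiableAt ℂ (fun ξ => (D.v ξ).1) ξ := by
  set k := ⌊ξ.im / π⌋ with hk
  have hmem := exists_St h1
  rw [← hk] at hmem
  have h2 := (D.V_diff1 k).differentiableAt ((isOpen_St k).mem_nhds hmem)
  apply h2.congr_of_eventuallyEq
  filter_upwards [(isOpen_St k).mem_nhds hmem] with η hη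
  rw [D.v_eq_St hη]

lemma v_diff2 {ξ : ℂ} (h1 : |ξ.im| < ξ.re) : DifferentiableAt ℂ (fun ξ => (D.v ξ).2) ξ := by
  set k := ⌊ξ.im / π⌋ with hk
  have hmem := exists_St h1
  rw [← hk] at hmem
  have h2 := (D.V_diff2 k).differentiableAt ((isOpen_St k).mem_nhds hmem)
  apply h2.congr_of_eventuallyEq
  filter_upwards [(isOpen_St k).mem_nhds hmem] with η hη
  rw [D.v_eq_St hη]

/-- determinant with a fixed vector -/
lemma det_V (k : ℤ) (ξ : ℂ) (w : ℂ × ℂ) : det2 (D.V k ξ) w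
    = D.E k ξ * D.F (k + 1) ξ * det2 (D.W k) w + (D.E k ξ)⁻¹ * D.F k ξ * det2 (D.W (k + 1)) w := by
  unfold V
  rw [det2_add_left, det2_smul_left, det2_smul_left]

lemma norm_F_bounds {j : ℤ} {ξ : ℂ} (h : ξ ∈ Om j) : 31 / 32 ≤ ‖D.F j ξ‖ ∧ ‖D.F j ξ‖ ≤ 33 / 32 := by
  have h1 := D.hF1 j ξ h
  constructor
  · have := norm_sub_norm_le (1 : ℂ) (1 - D.F j ξ)
    rw [norm_one, sub_sub_cancel, norm_sub_rev] at this
    linarith
  · have := norm_add_le (1 : ℂ) (D.F j ξ - 1)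
    rw [norm_one, add_sub_cancel] at this
    linarith

/-- the real exponent -/
noncomputable def R (k : ℤ) (ξ : ℂ) : ℝ := sgn k * D.N * Real.exp ξ.re * Real.cos ξ.im

lemma abs_R (k : ℤ) (ξ : ℂ) : |D.R k ξ| = D.N * Real.exp ξ.re * |Real.cos ξ.im| := by
  unfold R
  rw [abs_mul, abs_mul, abs_mul, abs_sgn, one_mul, abs_of_pos (Real.exp_pos _),
    abs_of_nonneg (by linarith [D.hN])]

lemma norm_E' (k : ℤ) (ξ : ℂ) : ‖D.E k ξ‖ = Real.exp (D.R k ξ) := D.norm_E k ξ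

lemma norm_E_inv (k : ℤ) (ξ : ℂ) : ‖(D.E k ξ)⁻¹‖ = Real.exp (-D.R k ξ) := by
  rw [norm_inv, norm_E', Real.exp_neg]

/-- error function -/
noncomputable def err (k : ℤ) : ℝ := D.A * Real.exp (|(k : ℝ)| + 1)

lemma err_nonneg (k : ℤ) : 0 ≤ D.err k := mul_nonneg D.hA (Real.exp_pos _).le

lemma s_le_err (k : ℤ) : ‖D.s k‖ ≤ Real.exp (D.err k) ∧ ‖D.s (k + 1)‖ ≤ Real.exp (D.err k) := by
  constructor
  · refine (D.hs2 k).trans (Real.exp_le_exp.mpr ?_)
    unfold err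
    apply mul_le_mul_of_nonneg_left _ D.hA
    apply Real.exp_le_exp.mpr; linarith
  · refine (D.hs2 (k + 1)).trans (Real.exp_le_exp.mpr ?_)
    unfold err
    apply mul_le_mul_of_nonneg_left _ D.hA
    apply Real.exp_le_exp.mpr
    push_cast
    have := abs_add_le (k : ℝ) 1
    rwa [abs_one] at this

lemma s_ge_err (k : ℤ) : Real.exp (-D.err k) ≤ ‖D.s k‖ ∧ Real.exp (-D.err k) ≤ ‖D.s (k + 1)‖ := by
  constructor
  · refine (Real.exp_le_exp.mpr ?_).trans (D.hs1 k)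
    unfold err
    have : D.A * Real.exp |(k : ℝ)| ≤ D.A * Real.exp (|(k : ℝ)| + 1) := by
      apply mul_le_mul_of_nonneg_left _ D.hA
      apply Real.exp_le_exp.mpr; linarith
    linarith
  · refine (Real.exp_le_exp.mpr ?_).trans (D.hs1 (k + 1))
    unfold err
    have : D.A * Real.exp |((k + 1 : ℤ) : ℝ)| ≤ D.A * Real.exp (|(k : ℝ)| + 1) := by
      apply mul_le_mul_of_nonneg_left _ D.hA
      apply Real.exp_le_exp.mpr
      push_cast
      have := abs_add_le (k : ℝ) 1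
      rwa [abs_one] at this
    linarith

lemma nrm_v_le {k : ℤ} {ξ : ℂ} (h : ξ ∈ St k) :
    nrm (D.v ξ) ≤ Real.exp (|D.R k ξ| + D.err k + 2) := by
  rw [D.v_eq_St h]
  have hF := D.norm_F_bounds (St_sub_Om k h)
  have hF' := D.norm_F_bounds (St_sub_Om' k h)
  have hs := D.s_le_err k
  have h1 : ∀ a b : ℂ × ℂ, nrm (a + b) ≤ 2 * (nrm a + nrm b) := by
    intro a b
    refine (nrm_le_add _).trans ?_
    have e1 := norm_add_le a.1 b.1
    have e2 := norm_add_le a.2 b.2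
    have e3 := norm_fst_le a
    have e4 := norm_snd_le a
    have e5 := norm_fst_le b
    have e6 := norm_snd_le b
    simp only [Prod.fst_add, Prod.snd_add]
    linarith
  unfold V
  refine (h1 _ _).trans ?_
  rw [nrm_smul, nrm_smul, nrm_W, nrm_W, norm_mul, norm_mul, norm_E_inv, norm_E']
  have hR1 : Real.exp (D.R k ξ) ≤ Real.exp |D.R k ξ| := Real.exp_le_exp.mpr (le_abs_self _)
  have hR2 : Real.exp (-D.R k ξ) ≤ Real.exp |D.R k ξ| := Real.exp_le_exp.mpr (neg_le_abs _)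
  have hexp2 : (33 / 32 * 4 : ℝ) ≤ Real.exp 2 := by
    have h3 : (2.7 : ℝ) < Real.exp 1 := by linarith [Real.exp_one_gt_d9]
    have h4 : Real.exp 2 = Real.exp 1 * Real.exp 1 := by rw [← Real.exp_add]; norm_num
    rw [h4]; nlinarith
  calc 2 * (Real.exp (D.R k ξ) * ‖D.F (k + 1) ξ‖ * ‖D.s k‖
        + Real.exp (-D.R k ξ) * ‖D.F k ξ‖ * ‖D.s (k + 1)‖)
      ≤ 2 * (Real.exp |D.R k ξ| * (33 / 32) * Real.exp (D.err k)
        + Real.exp |D.R k ξ| * (33 / 32) * Real.exp (D.err k)) := by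
        gcongr
        · exact hF'.2
        · exact hs.1
        · exact hF.2
        · exact hs.2
    _ = Real.exp |D.R k ξ| * Real.exp (D.err k) * (33 / 32 * 4) := by ring
    _ ≤ Real.exp |D.R k ξ| * Real.exp (D.err k) * Real.exp 2 := by gcongr
    _ = _ := by rw [← Real.exp_add, ← Real.exp_add]

lemma nrm_v_ge {k : ℤ} {ξ : ℂ} (h : ξ ∈ St k) :
    Real.exp (|D.R k ξ| - D.err k - 1) ≤ nrm (D.v ξ) := by
  rw [D.v_eq_St h]
  have hF := D.norm_F_bounds (St_sub_Om k h)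
  have hF' := D.norm_F_bounds (St_sub_Om' k h)
  have hs := D.s_le_err k
  have hsg : ‖(sgn k : ℂ)‖ = 1 := by rw [Complex.norm_real, Real.norm_eq_abs, abs_sgn]
  have hm1 : Real.exp (-1) ≤ 31 / 32 := by
    rw [Real.exp_neg]
    have h3 : (2.7 : ℝ) < Real.exp 1 := by linarith [Real.exp_one_gt_d9]
    rw [inv_le_comm₀ (Real.exp_pos _) (by norm_num)]
    norm_num; linarith
  -- lower bound through det with W (k+1)
  have h1 : Real.exp (D.R k ξ) * (31 / 32) ≤ nrm (D.V k ξ) * Real.exp (D.err k) := by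
    have e1 := norm_det2_le (D.V k ξ) (D.W (k + 1))
    rw [det_V, det2_self, mul_zero, add_zero, D.det_W k, norm_mul, norm_mul, hsg, mul_one,
      norm_E', nrm_W] at e1
    calc Real.exp (D.R k ξ) * (31 / 32) ≤ Real.exp (D.R k ξ) * ‖D.F (k + 1) ξ‖ := by
          gcongr; exact hF'.1
      _ ≤ nrm (D.V k ξ) * ‖D.s (k + 1)‖ := e1
      _ ≤ _ := by
          apply mul_le_mul_of_nonneg_left hs.2 (nrm_nonneg _)
  have h2 : Real.exp (-D.R k ξ) * (31 / 32) ≤ nrm (D.V k ξ) * Real.exp (D.err k) := by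
    have e1 := norm_det2_le (D.V k ξ) (D.W k)
    rw [det_V, det2_self, mul_zero, zero_add, det2_swap (D.W k) (D.W (k + 1)), D.det_W k, norm_mul,
      norm_mul, norm_neg, hsg, mul_one, norm_E_inv, nrm_W] at e1
    calc Real.exp (-D.R k ξ) * (31 / 32) ≤ Real.exp (-D.R k ξ) * ‖D.F k ξ‖ := by
          gcongr; exact hF.1
      _ ≤ nrm (D.V k ξ) * ‖D.s k‖ := e1
      _ ≤ _ := by
          apply mul_le_mul_of_nonneg_left hs.1 (nrm_nonneg _)
  have h3 : Real.exp |D.R k ξ| * (31 / 32) ≤ nrm (D.V k ξ) * Real.exp (D.err k) := by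
    rcases abs_cases (D.R k ξ) with ⟨h4, _⟩ | ⟨h4, _⟩
    · rw [h4]; exact h1
    · rw [h4]; exact h2
  calc Real.exp (|D.R k ξ| - D.err k - 1)
      = Real.exp |D.R k ξ| * Real.exp (-1) * Real.exp (-D.err k) := by
        rw [← Real.exp_add, ← Real.exp_add]; congr 1; ring
    _ ≤ Real.exp |D.R k ξ| * (31 / 32) * Real.exp (-D.err k) := by gcongr
    _ ≤ nrm (D.V k ξ) * Real.exp (D.err k) * Real.exp (-D.err k) := by gcongr
    _ = nrm (D.V k ξ) := by rw [mul_assoc, ← Real.exp_add]; simp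

end Data

end IDP
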