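import Mathlib

open Filter Topology Real MeasureTheory Set

namespace IDP

/-- the conformal map `(1-z)^(-1/2)` -/
noncomputable def xi (z : ℂ) : ℂ := Complex.exp (-(1 / 2) * Complex.log (1 - z))

lemma one_sub_re_pos {z : ℂ} (hz : ‖z‖ < 1) : 0 < (1 - z).re := by
  have := Complex.re_le_norm z
  simp only [Complex.sub_re, Complex.one_re]
  linarith

lemma one_sub_ne {z : ℂ} (hz : ‖z‖ < 1) : 1 - z ≠ 0 := by
  intro h
  have := one_sub_re_pos hz
  rw [h] at this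
  simp at this

lemma xi_ne (z : ℂ) : xi z ≠ 0 := Complex.exp_ne_zero _

lemma xi_sq {z : ℂ} (hz : ‖z‖ < 1) : xi z ^ 2 * (1 - z) = 1 := by
  have h1 : xi z ^ 2 = (1 - z)⁻¹ := by
    unfold xi
    rw [← Complex.exp_nat_mul]
    have : ((2 : ℕ) : ℂ) * (-(1 / 2) * Complex.log (1 - z)) = -Complex.log (1 - z) := by
      push_cast; ring
    rw [this, Complex.exp_neg, Complex.exp_log (one_sub_ne hz)]
  rw [h1, inv_mul_cancel₀ (one_sub_ne hz)]

lemma log_im_bound {z : ℂ} (hz : ‖z‖ < 1) : |(Complex.log (1 - z)).im| < π / 2 := by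
  rw [Complex.log_im]
  exact Complex.abs_arg_lt_pi_div_two_iff.mpr (Or.inl (one_sub_re_pos hz))

lemma xi_re_eq (z : ℂ) : (xi z).re = Real.exp (-(1 / 2) * (Complex.log (1 - z)).re)
    * Real.cos (-(1 / 2) * (Complex.log (1 - z)).im) := by
  unfold xi
  rw [Complex.exp_re]
  have h : (-(1 / 2) * Complex.log (1 - z) : ℂ) = ((-(1 / 2) : ℝ) : ℂ) * Complex.log (1 - z) := by
    push_cast; ring
  rw [h, Complex.re_ofReal_mul, Complex.im_ofReal_mul]

lemma xi_im_eq (z : ℂ) : (xi z).im = Real.exp (-(1 / 2) * (Complex.log (1 - z)).re)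
    * Real.sin (-(1 / 2) * (Complex.log (1 - z)).im) := by
  unfold xi
  rw [Complex.exp_im]
  have h : (-(1 / 2) * Complex.log (1 - z) : ℂ) = ((-(1 / 2) : ℝ) : ℂ) * Complex.log (1 - z) := by
    push_cast; ring
  rw [h, Complex.re_ofReal_mul, Complex.im_ofReal_mul]

lemma xi_re_pos {z : ℂ} (hz : ‖z‖ < 1) : 0 < (xi z).re := by
  rw [xi_re_eq]
  apply mul_pos (Real.exp_pos _)
  apply Real.cos_pos_of_mem_Ioo
  have h := abs_lt.mp (log_im_bound hz)
  have hpi := Real.pi_pos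
  constructor <;> linarith [h.1, h.2]

/-- real and imaginary part of `ξ²` -/
lemma xi_sq_re {z : ℂ} (hz : ‖z‖ < 1) :
    (xi z).re ^ 2 - (xi z).im ^ 2 = (1 - z).re / ‖1 - z‖ ^ 2 := by
  have h1 : xi z ^ 2 = (1 - z)⁻¹ := eq_inv_of_mul_eq_one_left (xi_sq hz)
  have h2 := congrArg Complex.re h1
  rw [Complex.inv_re, Complex.normSq_eq_norm_sq] at h2
  have h3 : (xi z ^ 2).re = (xi z).re * (xi z).re - (xi z).im * (xi z).im := by
    rw [pow_two, Complex.mul_re]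
  rw [← h2, h3]
  ring

lemma xi_sq_im {z : ℂ} (hz : ‖z‖ < 1) :
    2 * (xi z).re * (xi z).im = -(1 - z).im / ‖1 - z‖ ^ 2 := by
  have h1 : xi z ^ 2 = (1 - z)⁻¹ := eq_inv_of_mul_eq_one_left (xi_sq hz)
  have h2 := congrArg Complex.im h1
  rw [Complex.inv_im, Complex.normSq_eq_norm_sq] at h2
  have h3 : (xi z ^ 2).im = (xi z).re * (xi z).im + (xi z).im * (xi z).re := by
    rw [pow_two, Complex.mul_im]
  rw [← h2, h3]
  ring

lemma xi_sector {z : ℂ} (hz : ‖z‖ < 1) : |(xi z).im| < (xi z).re := by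
  have h1 := xi_sq_re hz
  have h2 : 0 < (1 - z).re / ‖1 - z‖ ^ 2 := by
    apply div_pos (one_sub_re_pos hz)
    have := norm_pos_iff.mpr (one_sub_ne hz)
    positivity
  have h3 := xi_re_pos hz
  apply abs_lt_of_sq_lt_sq _ h3.le
  linarith

lemma xi_norm_sq {z : ℂ} (hz : ‖z‖ < 1) : ‖xi z‖ ^ 2 * ‖1 - z‖ = 1 := by
  have := congrArg norm (xi_sq hz)
  rwa [norm_mul, norm_pow, norm_one] at this

lemma xi_norm_ge {z : ℂ} (hz : ‖z‖ < 1) : 1 / 2 ≤ ‖xi z‖ ^ 2 := by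
  have h1 := xi_norm_sq hz
  have h2 : ‖1 - z‖ ≤ 2 := by
    have := norm_sub_le (1 : ℂ) z
    rw [norm_one] at this; linarith
  have h3 : 0 ≤ ‖xi z‖ ^ 2 := by positivity
  nlinarith

lemma xi_hasDerivAt {z : ℂ} (hz : ‖z‖ < 1) : HasDerivAt xi (xi z ^ 3 / 2) z := by
  have h0 : (1 - z) ∈ Complex.slitPlane := by
    rw [Complex.mem_slitPlane_iff]; left; exact one_sub_re_pos hz
  have h1 : HasDerivAt (fun z : ℂ => 1 - z) (-1) z := by
    simpa using (hasDerivAt_id z).const_sub 1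
  have h2 := ((h1.clog h0).const_mul (-(1 / 2) : ℂ)).cexp
  have h3 : xi z ^ 3 / 2 = Complex.exp (-(1 / 2) * Complex.log (1 - z)) * (-(1 / 2) * (-1 / (1 - z))) := by
    have e1 := xi_sq hz
    have e2 := one_sub_ne hz
    have e3 : Complex.exp (-(1 / 2) * Complex.log (1 - z)) = xi z := rfl
    rw [e3]
    field_simp
    linear_combination xi z * e1
  rw [h3]
  exact h2

lemma norm_circle {r θ : ℝ} (hr : 0 ≤ r) : ‖circleMap 0 r θ‖ = r := by
  rw [norm_circleMap_zero, abs_of_nonneg hr]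

/-- `ξ` on the circle -/
noncomputable def xc (r θ : ℝ) : ℂ := xi (circleMap 0 r θ)

lemma xc_hasDerivAt {r : ℝ} (hr0 : 0 ≤ r) (hr1 : r < 1) (θ : ℝ) :
    HasDerivAt (xc r) (Complex.I / 2 * (xc r θ ^ 3 - xc r θ)) θ := by
  have hz : ‖circleMap 0 r θ‖ < 1 := by rw [norm_circle hr0]; exact hr1
  have h1 := (xi_hasDerivAt hz).comp θ (hasDerivAt_circleMap 0 r θ)
  have h2 := xi_sq hz
  have h3 : xi (circleMap 0 r θ) ^ 3 / 2 * (circleMap 0 r θ * Complex.I)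
      = Complex.I / 2 * (xc r θ ^ 3 - xc r θ) := by
    unfold xc
    linear_combination (-(Complex.I / 2) * xi (circleMap 0 r θ)) * h2
  rw [← h3]
  exact h1

lemma continuous_xc {r : ℝ} (hr0 : 0 ≤ r) (hr1 : r < 1) : Continuous (xc r) :=
  continuous_iff_continuousAt.mpr fun θ => (xc_hasDerivAt hr0 hr1 θ).continuousAt

lemma xc_sector {r : ℝ} (hr0 : 0 ≤ r) (hr1 : r < 1) (θ : ℝ) : |(xc r θ).im| < (xc r θ).re :=
  xi_sector (by rw [norm_circle hr0]; exact hr1)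

lemma xc_re_pos {r : ℝ} (hr0 : 0 ≤ r) (hr1 : r < 1) (θ : ℝ) : 0 < (xc r θ).re :=
  xi_re_pos (by rw [norm_circle hr0]; exact hr1)

/-- the maximal value of `|ξ|` -/
noncomputable def XX (r : ℝ) : ℝ := (Real.sqrt (1 - r))⁻¹

lemma XX_pos {r : ℝ} (hr1 : r < 1) : 0 < XX r := by
  unfold XX
  exact inv_pos.mpr (Real.sqrt_pos.mpr (by linarith))

lemma XX_sq {r : ℝ} (hr1 : r < 1) : XX r ^ 2 * (1 - r) = 1 := by
  unfold XX
  rw [inv_pow, Real.sq_sqrt (by linarith), inv_mul_cancel₀ (by linarith)]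

lemma one_sub_circle_re (r θ : ℝ) : (1 - circleMap 0 r θ).re = 1 - r * Real.cos θ := by
  simp [circleMap, Complex.exp_ofReal_mul_I_re]

lemma one_sub_circle_im (r θ : ℝ) : (1 - circleMap 0 r θ).im = - (r * Real.sin θ) := by
  simp [circleMap, Complex.exp_ofReal_mul_I_im]

lemma one_sub_circle_normsq (r θ : ℝ) :
    ‖1 - circleMap 0 r θ‖ ^ 2 = (1 - r) ^ 2 + 2 * r * (1 - Real.cos θ) := by
  rw [← Complex.normSq_eq_norm_sq, Complex.normSq_apply, one_sub_circle_re, one_sub_circle_im]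
  have := Real.sin_sq_add_cos_sq θ
  linear_combination r ^ 2 * this

lemma xc_norm_le {r : ℝ} (hr0 : 0 ≤ r) (hr1 : r < 1) (θ : ℝ) : ‖xc r θ‖ ≤ XX r := by
  have hz : ‖circleMap 0 r θ‖ < 1 := by rw [norm_circle hr0]; exact hr1
  have h1 := xi_norm_sq hz
  have h2 : 1 - r ≤ ‖1 - circleMap 0 r θ‖ := by
    have := Complex.re_le_norm (1 - circleMap 0 r θ)
    rw [one_sub_circle_re] at this
    have h3 := Real.cos_le_one θ
    nlinarith
  have h3 := XX_sq hr1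
  have h4 : ‖xc r θ‖ ^ 2 ≤ XX r ^ 2 := by
    have h5 : 0 < 1 - r := by linarith
    have h6 : 0 ≤ ‖xc r θ‖ ^ 2 := by positivity
    have h7 : ‖xc r θ‖ ^ 2 * (1 - r) ≤ XX r ^ 2 * (1 - r) := by
      calc ‖xc r θ‖ ^ 2 * (1 - r) ≤ ‖xc r θ‖ ^ 2 * ‖1 - circleMap 0 r θ‖ :=
            mul_le_mul_of_nonneg_left h2 h6
        _ = XX r ^ 2 * (1 - r) := by rw [h3]; exact h1
    exact le_of_mul_le_mul_right h7 h5
  exact le_of_sq_le_sq h4 (XX_pos hr1).le

lemma xc_neg (r θ : ℝ) (hr0 : 0 ≤ r) (hr1 : r < 1) : xc r (-θ) = (starRingEnd ℂ) (xc r θ) := by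
  unfold xc xi
  have h1 : circleMap 0 r (-θ) = (starRingEnd ℂ) (circleMap 0 r θ) := by
    simp [circleMap, ← Complex.exp_conj]
  have hz : ‖circleMap 0 r θ‖ < 1 := by rw [norm_circle hr0]; exact hr1
  rw [h1, ← Complex.exp_conj]
  congr 1
  rw [map_mul, map_neg, map_div₀, map_one]
  have h2 : (starRingEnd ℂ) (2 : ℂ) = 2 := Complex.conj_ofNat 2
  rw [h2]
  congr 1
  rw [← Complex.log_conj, map_sub, map_one]
  have := log_im_bound hz
  rw [Complex.log_im] at this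
  intro h
  rw [h, abs_of_pos Real.pi_pos] at this
  linarith [Real.pi_pos]

lemma xc_im_nonneg {r θ : ℝ} (hr0 : 0 ≤ r) (hr1 : r < 1) (h0 : 0 ≤ θ) (h1 : θ ≤ π) :
    0 ≤ (xc r θ).im := by
  have hz : ‖circleMap 0 r θ‖ < 1 := by rw [norm_circle hr0]; exact hr1
  have h2 := xi_sq_im hz
  have h3 := xi_re_pos hz
  rw [one_sub_circle_im, neg_neg] at h2
  have h4 : 0 ≤ r * Real.sin θ / ‖1 - circleMap 0 r θ‖ ^ 2 :=
    div_nonneg (mul_nonneg hr0 (Real.sin_nonneg_of_nonneg_of_le_pi h0 h1)) (by positivity)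
  rw [← h2] at h4
  unfold xc
  by_contra hcon
  push Not at hcon
  nlinarith

end IDP
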