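import Mathlib
import Pool.Agent.Helper21.IDP.V1
import Pool.Agent.Helper21.IDP.Xi
import Pool.Agent.Helper21.IDP.QW
import Pool.Agent.Helper37.IDP_A

open Filter Topology Real MeasureTheory Set

namespace IDP

namespace Data
variable (D : Data)

/-- numerator -/
noncomputable def u1 (z : ℂ) : ℂ := (D.v (xi z)).1
/-- denominator -/
noncomputable def u2 (z : ℂ) : ℂ := (D.v (xi z)).2
/-- the function -/
noncomputable def f (z : ℂ) : ℂ := D.u1 z / D.u2 z

lemma mem_ball_norm {z : ℂ} (hz : z ∈ Metric.ball (0 : ℂ) 1) : ‖z‖ < 1 := by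
  simpa using hz

lemma u1_diffAt {z : ℂ} (hz : ‖z‖ < 1) : DifferentiableAt ℂ D.u1 z := by
  have h1 := D.v_diff1 (xi_sector hz)
  exact DifferentiableAt.comp (g := fun ξ => (D.v ξ).1) z h1 (xi_hasDerivAt hz).differentiableAt

lemma u2_diffAt {z : ℂ} (hz : ‖z‖ < 1) : DifferentiableAt ℂ D.u2 z := by
  have h1 := D.v_diff2 (xi_sector hz)
  exact DifferentiableAt.comp (g := fun ξ => (D.v ξ).2) z h1 (xi_hasDerivAt hz).differentiableAt

lemma u1_diff : DifferentiableOn ℂ D.u1 (Metric.ball 0 1) := fun _ hz =>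
  (D.u1_diffAt (mem_ball_norm hz)).differentiableWithinAt

lemma u2_diff : DifferentiableOn ℂ D.u2 (Metric.ball 0 1) := fun _ hz =>
  (D.u2_diffAt (mem_ball_norm hz)).differentiableWithinAt

lemma nrm_v_pos {ξ : ℂ} (h : |ξ.im| < ξ.re) : 0 < nrm (D.v ξ) :=
  lt_of_lt_of_le (Real.exp_pos _) (D.nrm_v_ge (exists_St h))

lemma u_ne {z : ℂ} (hz : z ∈ Metric.ball (0 : ℂ) 1) : D.u1 z ≠ 0 ∨ D.u2 z ≠ 0 := by
  by_contra hcon
  push Not at hcon
  have h1 := D.nrm_v_pos (xi_sector (mem_ball_norm hz))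
  have h2 : nrm (D.v (xi z)) = 0 := by
    unfold nrm
    have e1 : (D.v (xi z)).1 = 0 := hcon.1
    have e2 : (D.v (xi z)).2 = 0 := hcon.2
    rw [e1, e2]; simp
  linarith

lemma xi_real {x : ℝ} (hx : 0 < x) : xi (1 - ((x ^ 2)⁻¹ : ℝ)) = x := by
  unfold xi
  rw [sub_sub_cancel, ← Complex.ofReal_log (by positivity)]
  have : (-(1 / 2) * ((Real.log ((x ^ 2)⁻¹) : ℝ) : ℂ)) = ((Real.log x : ℝ) : ℂ) := by
    rw [Real.log_inv, Real.log_pow]
    push_cast; ring
  rw [this, ← Complex.ofReal_exp, Real.exp_log hx]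

lemma det2_vec_none (v : ℂ × ℂ) : det2 v (vec none) = -v.2 := by
  simp [det2, vec]

lemma norm_vec_none_det (v : ℂ × ℂ) : ‖det2 v (vec none)‖ = ‖v.2‖ := by
  rw [det2_vec_none, norm_neg]

lemma u2_exists : ∃ z ∈ Metric.ball (0 : ℂ) 1, D.u2 z ≠ 0 := by
  -- it suffices to find a real large point with nonvanishing second component
  suffices h : ∃ x : ℝ, 1 ≤ x ∧ (D.v (x : ℂ)).2 ≠ 0 by
    obtain ⟨x, hx, h⟩ := h
    refine ⟨1 - ((x ^ 2)⁻¹ : ℝ), ?_, ?_⟩
    · rw [Metric.mem_ball, dist_zero_right]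
      have h1 : (1 - ((x ^ 2)⁻¹ : ℝ) : ℂ) = ((1 - (x ^ 2)⁻¹ : ℝ) : ℂ) := by push_cast; ring
      rw [h1, Complex.norm_real, Real.norm_eq_abs]
      have h2 : 1 ≤ x ^ 2 := by nlinarith
      have h3 : 0 < (x ^ 2)⁻¹ := by positivity
      have h4 : (x ^ 2)⁻¹ ≤ 1 := inv_le_one_of_one_le₀ h2
      rw [abs_lt]; constructor <;> linarith
    · unfold u2
      rw [xi_real (by linarith)]
      exact h
  have hpi := Real.pi_pos
  have hmem : ∀ x : ℝ, 1 ≤ x → (x : ℂ) ∈ St 0 := by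
    intro x hx
    refine ⟨?_, ?_, ?_⟩
    · rw [Complex.ofReal_im, Complex.ofReal_re, abs_zero]; linarith
    · rw [Complex.ofReal_im]; push_cast; linarith
    · rw [Complex.ofReal_im]; push_cast; linarith
  have hdet : ∀ x : ℝ, 1 ≤ x → ‖(D.v (x : ℂ)).2‖ =
      ‖D.E 0 x * D.F (0 + 1) x * det2 (D.W 0) (vec none)
        + (D.E 0 x)⁻¹ * D.F 0 x * det2 (D.W (0 + 1)) (vec none)‖ := by
    intro x hx
    rw [← norm_vec_none_det, D.v_eq_St (hmem x hx), det_V]
  have hF : ∀ x : ℝ, 1 ≤ x → ∀ j : ℤ, j = 0 ∨ j = 0 + 1 → 31 / 32 ≤ ‖D.F j x‖ ∧ ‖D.F j x‖ ≤ 33 / 32 := by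
    intro x hx j hj
    rcases hj with rfl | rfl
    · exact D.norm_F_bounds (St_sub_Om 0 (hmem x hx))
    · exact D.norm_F_bounds (St_sub_Om' 0 (hmem x hx))
  have hR : ∀ x : ℝ, D.R 0 x = D.N * Real.exp x := by
    intro x
    unfold R
    rw [Complex.ofReal_re, Complex.ofReal_im, Real.cos_zero]
    have : sgn 0 = 1 := by simp [sgn]
    rw [this]; ring
  by_cases hA : det2 (D.W 0) (vec none) = 0
  · refine ⟨1, le_rfl, ?_⟩
    have h1 := hdet 1 le_rfl
    rw [hA, mul_zero, zero_add] at h1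
    rw [← norm_pos_iff, h1, norm_mul, norm_mul]
    have h2 : det2 (D.W (0 + 1)) (vec none) ≠ 0 := by
      intro h3
      have e1 : D.L (0 : ℤ).natAbs = none := by
        apply det2_vec_eq_zero
        unfold W at hA
        rw [det2_smul_left] at hA
        exact (mul_eq_zero.mp hA).resolve_left (D.s_ne _)
      have e2 : D.L (0 + 1 : ℤ).natAbs = none := by
        apply det2_vec_eq_zero
        unfold W at h3
        rw [det2_smul_left] at h3
        exact (mul_eq_zero.mp h3).resolve_left (D.s_ne _)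
      apply D.hadj 0
      have e3 : (0 + 1 : ℤ).natAbs = 0 + 1 := rfl
      rw [e3] at e2
      have e4 : (0 : ℤ).natAbs = 0 := rfl
      rw [e4] at e1
      rw [e1, e2]
    have h3 := (hF 1 le_rfl 0 (Or.inl rfl)).1
    have h4 : 0 < ‖(D.E 0 (1 : ℝ))⁻¹‖ := by
      rw [norm_E_inv]; exact Real.exp_pos _
    have h5 : 0 < ‖det2 (D.W (0 + 1)) (vec none)‖ := norm_pos_iff.mpr h2
    positivity
  · -- choose x large
    set α := ‖det2 (D.W 0) (vec none)‖ with hα
    set β := ‖det2 (D.W (0 + 1)) (vec none)‖ with hβ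
    have hα0 : 0 < α := norm_pos_iff.mpr hA
    have hβ0 : 0 ≤ β := norm_nonneg _
    obtain ⟨x, hx1, hx2⟩ : ∃ x : ℝ, 1 ≤ x ∧ 2 * β < α * Real.exp (2 * (D.N * Real.exp x)) := by
      refine ⟨max 1 (2 * β / α), le_max_left _ _, ?_⟩
      set x := max 1 (2 * β / α) with hx
      have h1 : 2 * β / α ≤ x := le_max_right _ _
      have h2 : 1 ≤ x := le_max_left _ _
      have h3 : x < Real.exp x := by linarith [Real.add_one_le_exp x]
      have h4 : x < 2 * (D.N * Real.exp x) := by nlinarith [D.hN]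
      have h5 : x < Real.exp (2 * (D.N * Real.exp x)) := by
        linarith [Real.add_one_le_exp (2 * (D.N * Real.exp x))]
      rw [div_le_iff₀ hα0] at h1
      nlinarith
    refine ⟨x, hx1, ?_⟩
    rw [← norm_pos_iff, hdet x hx1]
    have h1 := norm_sub_norm_le (D.E 0 x * D.F (0 + 1) x * det2 (D.W 0) (vec none))
      (-((D.E 0 x)⁻¹ * D.F 0 x * det2 (D.W (0 + 1)) (vec none)))
    rw [sub_neg_eq_add, norm_neg, norm_mul, norm_mul, norm_mul, norm_mul, norm_E', norm_E_inv, hR]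
      at h1
    refine lt_of_lt_of_le ?_ h1
    have h2 := hF x hx1 0 (Or.inl rfl)
    have h3 := hF x hx1 (0 + 1) (Or.inr rfl)
    have h4 : Real.exp (D.N * Real.exp x) = Real.exp (2 * (D.N * Real.exp x)) * Real.exp (-(D.N * Real.exp x)) := by
      rw [← Real.exp_add]; congr 1; ring
    have h5 := Real.exp_pos (-(D.N * Real.exp x))
    have h6 := Real.exp_pos (D.N * Real.exp x)
    rw [sub_pos]
    calc Real.exp (-(D.N * Real.exp x)) * ‖D.F 0 x‖ * β
        ≤ Real.exp (-(D.N * Real.exp x)) * (33 / 32) * β := by gcongr; exact h2.2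
      _ ≤ Real.exp (-(D.N * Real.exp x)) * (31 / 32) * (2 * β) := by
          have : 0 ≤ Real.exp (-(D.N * Real.exp x)) * β := by positivity
          nlinarith
      _ < Real.exp (-(D.N * Real.exp x)) * (31 / 32) * (α * Real.exp (2 * (D.N * Real.exp x))) := by
          gcongr
      _ = Real.exp (D.N * Real.exp x) * (31 / 32) * α := by rw [h4]; ring
      _ ≤ Real.exp (D.N * Real.exp x) * ‖D.F (0 + 1) x‖ * α := by gcongr; exact h3.1

lemma analyticOnNhd_u1 : AnalyticOnNhd ℂ D.u1 (Metric.ball 0 1) :=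
  D.u1_diff.analyticOnNhd Metric.isOpen_ball

lemma analyticOnNhd_u2 : AnalyticOnNhd ℂ D.u2 (Metric.ball 0 1) :=
  D.u2_diff.analyticOnNhd Metric.isOpen_ball

lemma mero_f : MeromorphicOn D.f (Metric.ball 0 1) := fun z hz =>
  (D.analyticOnNhd_u1 z hz).meromorphicAt.div (D.analyticOnNhd_u2 z hz).meromorphicAt

/-- the characteristic -/
noncomputable def T (r : ℝ) : ℝ := ∫ t in (0 : ℝ)..r,
        (1 / Real.pi * ∫ z in Metric.ball (0 : ℂ) t,
          (‖deriv D.f z‖ / (1 + ‖D.f z‖ ^ 2)) ^ 2) / t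

lemma half_log_eq (v : ℂ × ℂ) : (1 / 2) * Real.log (‖v.1‖ ^ 2 + ‖v.2‖ ^ 2) = Real.log (nrm v) := by
  unfold nrm
  rw [Real.log_sqrt (by positivity)]
  ring

lemma T_eq {r : ℝ} (hr0 : 0 < r) (hr1 : r < 1) :
    D.T r = (2 * π)⁻¹ * (∫ θ in (0 : ℝ)..(2 * π), Real.log (nrm (D.v (xc r θ))))
      - Real.log (nrm (D.v (xi 0))) := by
  have h := ahlfors_shimizu D.u1 D.u2 D.u1_diff D.u2_diff (fun z hz => D.u_ne hz) D.u2_exists r hr0 hr1
  have h1 : D.T r = ∫ t in (0 : ℝ)..r,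
        (1 / Real.pi * ∫ z in Metric.ball (0 : ℂ) t,
          (‖deriv (fun w => D.u1 w / D.u2 w) z‖ / (1 + ‖D.u1 z / D.u2 z‖ ^ 2)) ^ 2) / t := rfl
  rw [h1, h]
  congr 1
  · congr 1
    apply intervalIntegral.integral_congr
    intro θ _
    exact half_log_eq (D.v (xc r θ))
  · exact half_log_eq (D.v (xi 0))

end Data

end IDP
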