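import Mathlib
import Pool.Agent.Helper21.IDP.QW
import Pool.Agent.Helper21.IDP.Data

open Filter Topology Real

namespace IDP

lemma round_eq_of {x : ℝ} {k : ℤ} (h1 : (k : ℝ) - 1 / 2 ≤ x) (h2 : x < k + 1 / 2) : round x = k := by
  rw [round_eq, Int.floor_eq_iff]
  constructor <;> linarith

lemma cos_half (k : ℤ) : Real.cos (π * ((k : ℝ) + 1 / 2)) = 0 := by
  rw [Real.cos_eq_zero_iff]
  exact ⟨k, by ring⟩

open Classical in
/-- indicator of the label -/
noncomputable def cw (L : ℕ → Option ℂ) (w : Option ℂ) (k : ℤ) : ℝ :=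
  if L k.natAbs = w then 1 else 0

lemma cw_nonneg (L : ℕ → Option ℂ) (w : Option ℂ) (k : ℤ) : 0 ≤ cw L w k := by
  unfold cw; split_ifs <;> norm_num

lemma cw_le_one (L : ℕ → Option ℂ) (w : Option ℂ) (k : ℤ) : cw L w k ≤ 1 := by
  unfold cw; split_ifs <;> norm_num

lemma qw_of_cos {L : ℕ → Option ℂ} {w : Option ℂ} {y : ℝ} (h : Real.cos y = 0) : qw L w y = 0 := by
  unfold qw
  rw [h, abs_zero, ite_self]

lemma qw_nonneg' (L : ℕ → Option ℂ) (w : Option ℂ) (y : ℝ) : 0 ≤ qw L w y := by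
  unfold qw; split_ifs
  · exact abs_nonneg _
  · exact le_rfl

lemma qw_le_cos (L : ℕ → Option ℂ) (w : Option ℂ) (y : ℝ) : qw L w y ≤ |Real.cos y| := by
  unfold qw; split_ifs
  · exact le_rfl
  · exact abs_nonneg _

lemma qw_eq (L : ℕ → Option ℂ) (w : Option ℂ) {k : ℤ} {y : ℝ} (h1 : π * ((k : ℝ) - 1 / 2) ≤ y)
    (h2 : y ≤ π * ((k : ℝ) + 1 / 2)) : qw L w y = cw L w k * |Real.cos y| := by
  have hpi := Real.pi_pos
  rcases h2.lt_or_eq with h3 | h3
  · have h4 : round (y / π) = k := by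
      apply round_eq_of
      · rw [le_div_iff₀ hpi]; linarith
      · rw [div_lt_iff₀ hpi]; linarith
    unfold qw cw
    rw [h4]
    split_ifs <;> simp
  · have h4 : Real.cos y = 0 := by rw [h3]; exact cos_half k
    rw [qw_of_cos h4, h4]; simp

lemma round_strict {y : ℝ} (h : Real.cos y ≠ 0) :
    π * (((round (y / π) : ℤ) : ℝ) - 1 / 2) < y ∧ y < π * (((round (y / π) : ℤ) : ℝ) + 1 / 2) := by
  have hpi := Real.pi_pos
  have h1 := abs_le.mp (abs_sub_round (y / π))
  set k := round (y / π) with hk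
  have h2 : π * ((k : ℝ) - 1 / 2) ≤ y := by
    have := mul_le_mul_of_nonneg_left h1.1 hpi.le
    rw [mul_sub, mul_div_cancel₀ _ hpi.ne'] at this
    linarith
  have h3 : y ≤ π * ((k : ℝ) + 1 / 2) := by
    have := mul_le_mul_of_nonneg_left h1.2 hpi.le
    rw [mul_sub, mul_div_cancel₀ _ hpi.ne'] at this
    linarith
  constructor
  · apply lt_of_le_of_ne h2
    intro h4
    apply h
    rw [← h4]
    have := cos_half (k - 1)
    push_cast at this
    rw [← this]
    congr 1; ring
  · apply lt_of_le_of_ne h3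
    intro h4
    apply h
    rw [h4]
    exact cos_half k

/-- (F1) -/
theorem continuous_qw (L : ℕ → Option ℂ) (w : Option ℂ) : Continuous (qw L w) := by
  have hpi := Real.pi_pos
  rw [continuous_iff_continuousAt]
  intro y0
  by_cases h : Real.cos y0 = 0
  · unfold ContinuousAt
    rw [qw_of_cos h]
    have h1 : Tendsto (fun y => |Real.cos y|) (𝓝 y0) (𝓝 0) := by
      have := (Real.continuous_cos.abs).tendsto y0
      rwa [h, abs_zero] at this
    exact squeeze_zero (fun y => qw_nonneg' L w y) (fun y => qw_le_cos L w y) h1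
  · obtain ⟨h1, h2⟩ := round_strict h
    set k := round (y0 / π) with hk
    have h3 : (qw L w) =ᶠ[𝓝 y0] fun y => cw L w k * |Real.cos y| := by
      filter_upwards [Ioo_mem_nhds h1 h2] with y hy
      exact qw_eq L w hy.1.le hy.2.le
    have h4 : ContinuousAt (fun y => cw L w k * |Real.cos y|) y0 :=
      (continuous_const.mul Real.continuous_cos.abs).continuousAt
    exact h4.congr h3.symm

/-- (F2) -/
theorem qw_even (L : ℕ → Option ℂ) (w : Option ℂ) (y : ℝ) : qw L w (-y) = qw L w y := by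
  by_cases h : Real.cos y = 0
  · rw [qw_of_cos h, qw_of_cos (by rw [Real.cos_neg]; exact h)]
  · obtain ⟨h1, h2⟩ := round_strict h
    set k := round (y / π) with hk
    have h3 : qw L w (-y) = cw L w (-k) * |Real.cos (-y)| := by
      apply qw_eq
      · push_cast; linarith
      · push_cast; linarith
    rw [h3, qw_eq L w h1.le h2.le, Real.cos_neg]
    unfold cw
    rw [Int.natAbs_neg]

lemma integral_abs_cos (k : ℤ) :
    ∫ t in (π * ((k : ℝ) - 1 / 2))..(π * ((k : ℝ) + 1 / 2)), |Real.cos t| = 2 := by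
  have hper : Function.Periodic (fun t => |Real.cos t|) π := by
    intro t
    simp only [Real.cos_add_pi, abs_neg]
  have h1 := hper.intervalIntegral_add_eq (π * ((k : ℝ) - 1 / 2)) (-(π / 2))
  have e1 : π * ((k : ℝ) - 1 / 2) + π = π * ((k : ℝ) + 1 / 2) := by ring
  have e2 : -(π / 2) + π = π / 2 := by ring
  rw [e1, e2] at h1
  rw [h1]
  have h2 : ∫ t in (-(π / 2))..(π / 2), |Real.cos t| = ∫ t in (-(π / 2))..(π / 2), Real.cos t := by
    apply intervalIntegral.integral_congr
    intro t ht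
    rw [Set.uIcc_of_le (by linarith [Real.pi_pos])] at ht
    exact abs_of_nonneg (Real.cos_nonneg_of_neg_pi_div_two_le_of_le ht.1 ht.2)
  rw [h2, integral_cos, Real.sin_neg, Real.sin_pi_div_two]
  norm_num

lemma integral_qw_block (L : ℕ → Option ℂ) (w : Option ℂ) (k : ℤ) :
    ∫ t in (π * ((k : ℝ) - 1 / 2))..(π * ((k : ℝ) + 1 / 2)), qw L w t = 2 * cw L w k := by
  have h : ∫ t in (π * ((k : ℝ) - 1 / 2))..(π * ((k : ℝ) + 1 / 2)), qw L w t
      = ∫ t in (π * ((k : ℝ) - 1 / 2))..(π * ((k : ℝ) + 1 / 2)), cw L w k * |Real.cos t| := by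
    apply intervalIntegral.integral_congr
    intro t ht
    rw [Set.uIcc_of_le (by nlinarith [Real.pi_pos])] at ht
    exact qw_eq L w ht.1 ht.2
  rw [h, intervalIntegral.integral_const_mul, integral_abs_cos]
  ring

lemma ii_qw (L : ℕ → Option ℂ) (w : Option ℂ) (a b : ℝ) :
    IntervalIntegrable (qw L w) MeasureTheory.volume a b :=
  (continuous_qw L w).intervalIntegrable a b

open Classical in
lemma integral_qw_blocks (L : ℕ → Option ℂ) (w : Option ℂ) (n : ℕ) :
    ∫ t in (-(π / 2))..(π * ((n : ℝ) - 1 / 2)), qw L w t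
      = 2 * (({i ∈ Finset.range n | L i = w} : Finset ℕ).card : ℝ) := by
  induction n with
  | zero =>
    have : π * (((0 : ℕ) : ℝ) - 1 / 2) = -(π / 2) := by push_cast; ring
    rw [this]; simp
  | succ n ih =>
    have h1 := integral_qw_block L w (n : ℤ)
    rw [Int.cast_natCast] at h1
    have h2 : π * (((n + 1 : ℕ) : ℝ) - 1 / 2) = π * ((n : ℝ) + 1 / 2) := by push_cast; ring
    rw [h2, ← intervalIntegral.integral_add_adjacent_intervals (ii_qw L w _ (π * ((n : ℝ) - 1 / 2)))
      (ii_qw L w _ _), ih, h1, Finset.range_add_one, Finset.filter_insert]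
    unfold cw
    have h3 : ((n : ℤ)).natAbs = n := rfl
    rw [h3]
    split_ifs with h
    · rw [Finset.card_insert_of_notMem (by simp)]
      push_cast; ring
    · simp

lemma integral_qw_mono (L : ℕ → Option ℂ) (w : Option ℂ) {a b c : ℝ} (hbc : b ≤ c) :
    ∫ t in a..b, qw L w t ≤ ∫ t in a..c, qw L w t := by
  rw [← intervalIntegral.integral_add_adjacent_intervals (ii_qw L w a b) (ii_qw L w b c)]
  have : 0 ≤ ∫ t in b..c, qw L w t :=
    intervalIntegral.integral_nonneg hbc (fun t _ => qw_nonneg' L w t)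
  linarith

open Classical in
/-- (F3) -/
theorem label_density (L : ℕ → Option ℂ) (w : Option ℂ) (e : ℝ)
    (hL : Tendsto (fun K : ℕ => (({i ∈ Finset.range K | L i = w} : Finset ℕ).card : ℝ) / K)
        atTop (𝓝 (e / 2))) :
    Tendsto (fun y : ℝ => (∫ t in (0 : ℝ)..y, qw L w t) / y) atTop (𝓝 (e / π)) := by
  have hpi := Real.pi_pos
  set cd : ℕ → ℝ := fun n => (({i ∈ Finset.range n | L i = w} : Finset ℕ).card : ℝ) with hcd
  have hcd_mono : ∀ n m : ℕ, cd (n + m) ≤ cd n + m := by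
    intro n m
    simp only [hcd]
    have h1 : ({i ∈ Finset.range (n + m) | L i = w} : Finset ℕ)
        ⊆ ({i ∈ Finset.range n | L i = w} : Finset ℕ) ∪ Finset.Ico n (n + m) := by
      intro i hi
      simp only [Finset.mem_filter, Finset.mem_range, Finset.mem_union, Finset.mem_Ico] at hi ⊢
      by_cases h : i < n
      · left; exact ⟨h, hi.2⟩
      · right; omega
    have h2 := (Finset.card_le_card h1).trans (Finset.card_union_le _ _)
    rw [Nat.card_Ico] at h2
    have h3 : n + m - n = m := by omega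
    rw [h3] at h2
    exact_mod_cast h2
  -- the half block
  set c0 : ℝ := ∫ t in (-(π / 2))..0, qw L w t with hc0
  have hsplit : ∀ y, ∫ t in (0 : ℝ)..y, qw L w t = (∫ t in (-(π / 2))..y, qw L w t) - c0 := by
    intro y
    rw [← intervalIntegral.integral_add_adjacent_intervals (ii_qw L w (-(π / 2)) 0) (ii_qw L w 0 y)]
    ring
  have hbd : ∀ y : ℝ, 0 ≤ y → |(∫ t in (0 : ℝ)..y, qw L w t) - 2 * cd ⌊y / π⌋₊| ≤ 4 + |c0| := by
    intro y hy
    set n := ⌊y / π⌋₊ with hn
    have h1 : (n : ℝ) ≤ y / π := Nat.floor_le (by positivity)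
    have h2 : y / π < n + 1 := Nat.lt_floor_add_one _
    rw [le_div_iff₀ hpi] at h1
    rw [div_lt_iff₀ hpi] at h2
    have h3 : π * ((n : ℝ) - 1 / 2) ≤ y := by nlinarith
    have h4 : y ≤ π * (((n + 2 : ℕ) : ℝ) - 1 / 2) := by push_cast; nlinarith
    have h5 := integral_qw_mono L w (a := -(π / 2)) h3
    have h6 := integral_qw_mono L w (a := -(π / 2)) h4
    rw [integral_qw_blocks] at h5 h6
    have h7 := hcd_mono n 2
    simp only [hcd] at h7 ⊢
    rw [hsplit y, abs_le]
    have h8 := le_abs_self c0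
    have h9 := neg_abs_le c0
    push_cast at h7
    constructor <;> linarith
  have hfl : Tendsto (fun y : ℝ => ⌊y / π⌋₊) atTop atTop :=
    tendsto_nat_floor_atTop.comp (tendsto_id.atTop_div_const hpi)
  have h1 : Tendsto (fun y : ℝ => cd ⌊y / π⌋₊ / (⌊y / π⌋₊ : ℝ)) atTop (𝓝 (e / 2)) := hL.comp hfl
  have h2 : Tendsto (fun y : ℝ => ((⌊y / π⌋₊ : ℕ) : ℝ) / y) atTop (𝓝 (1 / π)) := by
    have h3 : Tendsto (fun y : ℝ => ((⌊y / π⌋₊ : ℕ) : ℝ) / (y / π)) atTop (𝓝 1) :=
      (tendsto_nat_floor_div_atTop (R := ℝ)).comp (tendsto_id.atTop_div_const hpi)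
    have h4 := h3.mul_const (1 / π)
    rw [one_mul] at h4
    apply h4.congr
    intro y
    by_cases hy : y = 0
    · rw [hy]; simp
    · field_simp
  have h3 : Tendsto (fun y : ℝ => 2 * (cd ⌊y / π⌋₊ / (⌊y / π⌋₊ : ℝ)) * (((⌊y / π⌋₊ : ℕ) : ℝ) / y)) atTop
      (𝓝 (2 * (e / 2) * (1 / π))) := (h1.const_mul 2).mul h2
  have h4 : Tendsto (fun y : ℝ => ((∫ t in (0 : ℝ)..y, qw L w t) - 2 * cd ⌊y / π⌋₊) / y) atTop (𝓝 0) := by
    have h5 : Tendsto (fun y : ℝ => (4 + |c0|) / y) atTop (𝓝 0) := tendsto_const_nhds.div_atTop tendsto_id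
    apply squeeze_zero_norm' _ h5
    filter_upwards [eventually_gt_atTop 0] with y hy
    rw [norm_div, Real.norm_eq_abs, Real.norm_eq_abs, abs_of_pos hy]
    exact div_le_div_of_nonneg_right (hbd y hy.le) hy.le
  have h5 := h3.add h4
  have h6 : 2 * (e / 2) * (1 / π) + 0 = e / π := by ring
  rw [h6] at h5
  apply h5.congr'
  filter_upwards [eventually_ge_atTop π] with y hy
  have h7 : 1 ≤ ⌊y / π⌋₊ := by
    apply Nat.le_floor
    rw [Nat.cast_one, le_div_iff₀ hpi]; linarith
  have h8 : ((⌊y / π⌋₊ : ℕ) : ℝ) ≠ 0 := by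
    have : (1 : ℝ) ≤ ((⌊y / π⌋₊ : ℕ) : ℝ) := by exact_mod_cast h7
    linarith
  have h9 : y ≠ 0 := by linarith
  field_simp
  ring

/-- (F4) -/
theorem cos_density :
    Tendsto (fun y : ℝ => (∫ t in (0 : ℝ)..y, |Real.cos t|) / y) atTop (𝓝 (2 / π)) := by
  classical
  have h := label_density (fun _ => none) none 2 (by
    have h1 : Tendsto (fun _ : ℕ => (1 : ℝ)) atTop (𝓝 (2 / 2)) := by
      rw [div_self (by norm_num)]; exact tendsto_const_nhds
    apply h1.congr'
    filter_upwards [eventually_gt_atTop 0] with n hn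
    have : (n : ℝ) ≠ 0 := by exact_mod_cast hn.ne'
    simp [this])
  have hq : qw (fun _ => none) none = fun t => |Real.cos t| := by
    funext t
    simp [qw]
  rw [hq] at h
  exact h

/-- (H0) chordal triangle inequality -/
theorem det2_triangle (u v w : ℂ × ℂ) (hu : nrm u = 1) (hv : nrm v = 1) (hw : nrm w = 1) :
    ‖det2 u v‖ ≤ ‖det2 u w‖ + ‖det2 w v‖ := by
  set wp : ℂ × ℂ := (-(starRingEnd ℂ) w.2, (starRingEnd ℂ) w.1) with hwp
  have hn : w.1 * (starRingEnd ℂ) w.1 + w.2 * (starRingEnd ℂ) w.2 = 1 := by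
    rw [Complex.mul_conj, Complex.mul_conj, Complex.normSq_eq_norm_sq, Complex.normSq_eq_norm_sq]
    have := nrm_sq w
    rw [hw] at this
    rw [← Complex.ofReal_add, ← this]; norm_num
  have hwpn : nrm wp = 1 := by
    have : nrm wp ^ 2 = 1 := by
      rw [nrm_sq, hwp]
      simp only [norm_neg, RCLike.norm_conj]
      have := nrm_sq w
      rw [hw] at this
      linarith
    have h0 := nrm_nonneg wp
    nlinarith
  have hid : det2 u v = det2 u w * (det2 wp v) * (-1) + det2 w v * det2 u wp := by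
    simp only [det2, hwp]
    linear_combination (-(u.1 * v.2 - u.2 * v.1)) * hn
  rw [hid]
  refine (norm_add_le _ _).trans ?_
  rw [norm_mul, norm_mul, norm_mul, norm_neg, norm_one, mul_one]
  have h1 : ‖det2 wp v‖ ≤ 1 := by
    have := norm_det2_le wp v
    rwa [hwpn, hv, mul_one] at this
  have h2 : ‖det2 u wp‖ ≤ 1 := by
    have := norm_det2_le u wp
    rwa [hu, hwpn, mul_one] at this
  have h3 := norm_nonneg (det2 u w)
  have h4 := norm_nonneg (det2 w v)
  nlinarith

/-- (H) for infinitely many `n`, the labels up to `n` are not too close to `w`. -/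
theorem good_radii (L : ℕ → Option ℂ) (C : ℝ)
    (hsep : ∀ k i j : ℕ, i ≤ k → j ≤ k → L i ≠ L j →
        Real.exp (-(k + C)) ≤ ‖det2 (vec (L i)) (vec (L j))‖) (w : Option ℂ) :
    ∃ᶠ n : ℕ in atTop, ∀ i ≤ n, L i ≠ w →
      Real.exp (-(n + C + 3)) ≤ ‖det2 (vec (L i)) (vec w)‖ := by
  by_contra hcon
  rw [not_frequently] at hcon
  obtain ⟨n0, hn0⟩ := eventually_atTop.mp hcon
  have hbad : ∀ n, n0 ≤ n → ∃ i ≤ n, L i ≠ w ∧
      ‖det2 (vec (L i)) (vec w)‖ < Real.exp (-(n + C + 3)) := by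
    intro n hn
    have := hn0 n hn
    push Not at this
    exact this
  choose! f hf1 hf2 hf3 using hbad
  have hexp : 2 * Real.exp (-3) < Real.exp (-1) := by
    have h1 : Real.exp (-1) = Real.exp (-3) * Real.exp 2 := by
      rw [← Real.exp_add]; norm_num
    have h2 : (2 : ℝ) < Real.exp 2 := by
      have := Real.add_one_lt_exp (show (2 : ℝ) ≠ 0 by norm_num)
      linarith
    rw [h1]
    nlinarith [Real.exp_pos (-3)]
  have hstep : ∀ n, n0 ≤ n → L (f n) = L (f (n + 1)) := by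
    intro n hn
    by_contra hne
    have h1 := hsep (n + 1) (f n) (f (n + 1)) ((hf1 n hn).trans (Nat.le_succ n))
      (hf1 (n + 1) (hn.trans (Nat.le_succ n))) hne
    have h2 := det2_triangle (vec (L (f n))) (vec (L (f (n + 1)))) (vec w) (nrm_vec _) (nrm_vec _)
      (nrm_vec _)
    have h3 := hf3 n hn
    have h4 := hf3 (n + 1) (hn.trans (Nat.le_succ n))
    have h5 : ‖det2 (vec w) (vec (L (f (n + 1))))‖ = ‖det2 (vec (L (f (n + 1)))) (vec w)‖ := by
      rw [det2_swap, norm_neg]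
    rw [h5] at h2
    have h6 : Real.exp (-(((n + 1 : ℕ) : ℝ) + C + 3)) ≤ Real.exp (-((n : ℝ) + C + 3)) := by
      apply Real.exp_le_exp.mpr; push_cast; linarith
    have h7 : Real.exp (-((n : ℝ) + C + 3)) = Real.exp (-((n : ℝ) + C)) * Real.exp (-3) := by
      rw [← Real.exp_add]; congr 1; ring
    have h8 : Real.exp (-(((n + 1 : ℕ) : ℝ) + C)) = Real.exp (-((n : ℝ) + C)) * Real.exp (-1) := by
      rw [← Real.exp_add]; congr 1; push_cast; ring
    have h9 := Real.exp_pos (-((n : ℝ) + C))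
    have h10 : Real.exp (-((n : ℝ) + C)) * (2 * Real.exp (-3))
        < Real.exp (-((n : ℝ) + C)) * Real.exp (-1) := by
      exact mul_lt_mul_of_pos_left hexp h9
    rw [h8] at h1
    rw [h7] at h3 h6
    linarith
  have hconst : ∀ m, L (f (n0 + m)) = L (f n0) := by
    intro m
    induction m with
    | zero => rfl
    | succ m ih =>
      rw [← ih]
      exact (hstep (n0 + m) (Nat.le_add_right _ _)).symm
  have hlim : Tendsto (fun m : ℕ => Real.exp (-(((n0 + m : ℕ) : ℝ) + C + 3))) atTop (𝓝 0) := by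
    have h1 : Tendsto (fun m : ℕ => ((n0 + m : ℕ) : ℝ) + C + 3) atTop atTop := by
      have h2 : Tendsto (fun m : ℕ => (m : ℝ) + (n0 + C + 3)) atTop atTop :=
        tendsto_atTop_add_const_right atTop _ tendsto_natCast_atTop_atTop
      apply h2.congr
      intro m; push_cast; ring
    exact Real.tendsto_exp_neg_atTop_nhds_zero.comp h1
  have hle : ‖det2 (vec (L (f n0))) (vec w)‖ ≤ 0 := by
    apply ge_of_tendsto hlim
    filter_upwards with m
    have := hf3 (n0 + m) (Nat.le_add_right _ _)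
    rw [hconst m] at this
    exact this.le
  have h0 : det2 (vec (L (f n0))) (vec w) = 0 := norm_eq_zero.mp (le_antisymm hle (norm_nonneg _))
  exact hf2 n0 le_rfl (det2_vec_eq_zero h0)

end IDP
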