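import Mathlib
import Pool.Agent.Helper21.IDP.F1

open Filter Topology Real MeasureTheory Set

namespace IDP

namespace Data
variable (D : Data)

lemma continuous_u1c {r : ℝ} (hr0 : 0 ≤ r) (hr1 : r < 1) :
    Continuous fun θ : ℝ => (D.v (xc r θ)).1 := by
  have h1 : ContinuousOn D.u1 (Metric.ball 0 1) := D.u1_diff.continuousOn
  have h2 : Continuous fun θ : ℝ => D.u1 (circleMap 0 r θ) := by
    apply h1.comp_continuous (continuous_circleMap 0 r)
    intro θ
    rw [Metric.mem_ball, dist_zero_right, norm_circle hr0]; exact hr1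
  exact h2

lemma continuous_u2c {r : ℝ} (hr0 : 0 ≤ r) (hr1 : r < 1) :
    Continuous fun θ : ℝ => (D.v (xc r θ)).2 := by
  have h1 : ContinuousOn D.u2 (Metric.ball 0 1) := D.u2_diff.continuousOn
  have h2 : Continuous fun θ : ℝ => D.u2 (circleMap 0 r θ) := by
    apply h1.comp_continuous (continuous_circleMap 0 r)
    intro θ
    rw [Metric.mem_ball, dist_zero_right, norm_circle hr0]; exact hr1
  exact h2

lemma continuous_nrm_c {r : ℝ} (hr0 : 0 ≤ r) (hr1 : r < 1) :
    Continuous fun θ : ℝ => nrm (D.v (xc r θ)) := by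
  unfold nrm
  have h1 := D.continuous_u1c hr0 hr1
  have h2 := D.continuous_u2c hr0 hr1
  fun_prop

lemma continuous_log_nrm_c {r : ℝ} (hr0 : 0 ≤ r) (hr1 : r < 1) :
    Continuous fun θ : ℝ => Real.log (nrm (D.v (xc r θ))) :=
  (D.continuous_nrm_c hr0 hr1).log fun θ => (D.nrm_v_pos (xc_sector hr0 hr1 θ)).ne'

/-- the size of the error at radius `r` -/
noncomputable def eX (r : ℝ) : ℝ := Real.exp (XX r / 3)

lemma one_le_eX {r : ℝ} (hr1 : r < 1) : 1 ≤ D.A * 0 + eX r := by
  rw [mul_zero, zero_add]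
  exact Real.one_le_exp (by have := XX_pos hr1; positivity)

lemma err_le {r : ℝ} (hr0 : 0 ≤ r) (hr1 : r < 1) {θ : ℝ} {k : ℤ} (h : xc r θ ∈ St k) :
    D.err k ≤ D.A * Real.exp 3 * eX r := by
  have hpi := Real.pi_pos
  have hpi3 := Real.pi_gt_three
  have hX := XX_pos hr1
  have h1 : |(xc r θ).im| ≤ XX r := (Complex.abs_im_le_norm _).trans (xc_norm_le hr0 hr1 θ)
  have h2 := abs_le.mp h1
  obtain ⟨_, h3, h4⟩ := h
  have h5 : |(k : ℝ)| + 1 ≤ 3 + XX r / 3 := by
    have h6 : |(k : ℝ)| ≤ 2 + XX r / 3 := by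
      rw [abs_le]
      constructor
      · by_contra hcon
        push Not at hcon
        nlinarith
      · by_contra hcon
        push Not at hcon
        nlinarith
    linarith
  unfold err eX
  rw [mul_assoc, ← Real.exp_add]
  exact mul_le_mul_of_nonneg_left (Real.exp_le_exp.mpr h5) D.hA

/-- `∫ e^{Re ξ}|cos Im ξ|` -/
noncomputable def aInt (r : ℝ) : ℝ :=
  ∫ θ in (0 : ℝ)..(2 * π), Real.exp (xc r θ).re * |Real.cos (xc r θ).im|

lemma continuous_acos {r : ℝ} (hr0 : 0 ≤ r) (hr1 : r < 1) :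
    Continuous fun θ : ℝ => Real.exp (xc r θ).re * |Real.cos (xc r θ).im| := by
  have h1 := continuous_xc hr0 hr1
  have h2 : Continuous fun θ : ℝ => (xc r θ).re := Complex.continuous_re.comp h1
  have h3 : Continuous fun θ : ℝ => (xc r θ).im := Complex.continuous_im.comp h1
  exact (Real.continuous_exp.comp h2).mul (Real.continuous_cos.comp h3).abs

lemma log_nrm_bounds {r : ℝ} (hr0 : 0 ≤ r) (hr1 : r < 1) (θ : ℝ) {k : ℤ} (h : xc r θ ∈ St k) :
    D.N * (Real.exp (xc r θ).re * |Real.cos (xc r θ).im|) - (D.A * Real.exp 3 * eX r + 1)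
        ≤ Real.log (nrm (D.v (xc r θ))) ∧
      Real.log (nrm (D.v (xc r θ)))
        ≤ D.N * (Real.exp (xc r θ).re * |Real.cos (xc r θ).im|) + (D.A * Real.exp 3 * eX r + 2) := by
  have h1 := D.nrm_v_ge h
  have h2 := D.nrm_v_le h
  have h3 := D.nrm_v_pos (xc_sector hr0 hr1 θ)
  have h4 := D.err_le hr0 hr1 h
  rw [abs_R] at h1 h2
  constructor
  · have := Real.log_le_log (Real.exp_pos _) h1
    rw [Real.log_exp] at this
    linarith
  · have := Real.log_le_log h3 h2
    rw [Real.log_exp] at this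
    linarith

lemma T_bounds : ∃ C : ℝ, 0 ≤ C ∧ ∀ r : ℝ, 0 < r → r < 1 →
    |2 * π * D.T r - D.N * aInt r| ≤ C * eX r := by
  have hpi := Real.pi_pos
  refine ⟨2 * π * (D.A * Real.exp 3 + 2 + |Real.log (nrm (D.v (xi 0)))|), ?_, ?_⟩
  · have := D.hA
    positivity
  intro r hr0 hr1
  have he : 1 ≤ eX r := Real.one_le_exp (by have := XX_pos hr1; positivity)
  have h1 : 2 * π * D.T r = (∫ θ in (0 : ℝ)..(2 * π), Real.log (nrm (D.v (xc r θ))))
      - 2 * π * Real.log (nrm (D.v (xi 0))) := by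
    rw [D.T_eq hr0 hr1]
    field_simp
  have hc1 := D.continuous_log_nrm_c hr0.le hr1
  have hc2 := continuous_acos hr0.le hr1
  have h2 : |(∫ θ in (0 : ℝ)..(2 * π), Real.log (nrm (D.v (xc r θ)))) - D.N * aInt r|
      ≤ (D.A * Real.exp 3 * eX r + 2) * (2 * π) := by
    have e1 : (∫ θ in (0 : ℝ)..(2 * π), Real.log (nrm (D.v (xc r θ)))) - D.N * aInt r
        = ∫ θ in (0 : ℝ)..(2 * π), (Real.log (nrm (D.v (xc r θ)))
          - D.N * (Real.exp (xc r θ).re * |Real.cos (xc r θ).im|)) := by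
      rw [intervalIntegral.integral_sub (hc1.intervalIntegrable _ _)
        ((hc2.const_mul _).intervalIntegrable _ _), intervalIntegral.integral_const_mul]
      rfl
    rw [e1]
    have e2 := intervalIntegral.norm_integral_le_of_norm_le_const
      (C := D.A * Real.exp 3 * eX r + 2)
      (f := fun θ => Real.log (nrm (D.v (xc r θ)))
          - D.N * (Real.exp (xc r θ).re * |Real.cos (xc r θ).im|)) (a := 0) (b := 2 * π) (by
        intro θ _
        have := D.log_nrm_bounds hr0.le hr1 θ (exists_St (xc_sector hr0.le hr1 θ))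
        rw [Real.norm_eq_abs, abs_le]
        constructor <;> linarith [this.1, this.2])
    rw [sub_zero, abs_of_pos (by positivity : 0 < 2 * π)] at e2
    exact e2
  have h3 : 2 * π * D.T r - D.N * aInt r
      = ((∫ θ in (0 : ℝ)..(2 * π), Real.log (nrm (D.v (xc r θ)))) - D.N * aInt r)
        + (-(2 * π * Real.log (nrm (D.v (xi 0))))) := by
    rw [h1]; ring
  rw [h3]
  refine (abs_add_le _ _).trans ?_
  rw [abs_neg, abs_mul, abs_of_pos (by positivity : 0 < 2 * π)]
  have h4 : |Real.log (nrm (D.v (xi 0)))| ≤ |Real.log (nrm (D.v (xi 0)))| * eX r := by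
    nlinarith [abs_nonneg (Real.log (nrm (D.v (xi 0))))]
  calc |(∫ θ in (0 : ℝ)..(2 * π), Real.log (nrm (D.v (xc r θ)))) - D.N * aInt r|
        + 2 * π * |Real.log (nrm (D.v (xi 0)))|
      ≤ (D.A * Real.exp 3 * eX r + 2 * eX r) * (2 * π) + 2 * π * (|Real.log (nrm (D.v (xi 0)))| * eX r) := by
        apply add_le_add
        · refine h2.trans ?_
          apply mul_le_mul_of_nonneg_right _ (by positivity)
          linarith
        · exact mul_le_mul_of_nonneg_left h4 (by positivity)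
    _ = _ := by ring

end Data

end IDP
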