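import Mathlib
import Pool.Agent.Helper21.IDP.T1

open Filter Topology Real MeasureTheory Set

namespace IDP

/-- proximity integrand in terms of a vector -/
noncomputable def mfv (w : Option ℂ) (v : ℂ × ℂ) : ℝ :=
  Option.elim w (Real.posLog ‖v.1 / v.2‖) (fun c => Real.posLog ‖v.1 / v.2 - c‖⁻¹)

noncomputable def Cup (w : Option ℂ) : ℝ := Option.elim w 0 (fun c => Real.posLog ‖c‖⁻¹)

noncomputable def Clow (w : Option ℂ) : ℝ :=
  Option.elim w (Real.log 2) (fun c => Real.log (Real.sqrt (1 + ‖c‖ ^ 2) * (2 + ‖c‖)))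

lemma Cup_nonneg (w : Option ℂ) : 0 ≤ Cup w := by
  cases w with
  | none => simp [Cup]
  | some c => exact Real.posLog_nonneg

lemma norm_det2_some (v : ℂ × ℂ) (c : ℂ) :
    ‖v.1 - c * v.2‖ = Real.sqrt (1 + ‖c‖ ^ 2) * ‖det2 v (vec (some c))‖ := by
  have hs : 0 < Real.sqrt (1 + ‖c‖ ^ 2) := Real.sqrt_pos.mpr (by positivity)
  have hs' : ((Real.sqrt (1 + ‖c‖ ^ 2) : ℝ) : ℂ) ≠ 0 := by
    rw [Complex.ofReal_ne_zero]; exact hs.ne'
  have h1 : v.1 - c * v.2 = (Real.sqrt (1 + ‖c‖ ^ 2) : ℂ) * det2 v (vec (some c)) := by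
    simp only [det2, vec]
    field_simp
  rw [h1, norm_mul, Complex.norm_real, Real.norm_eq_abs, abs_of_pos hs]

lemma one_le_s (c : ℂ) : 1 ≤ Real.sqrt (1 + ‖c‖ ^ 2) := by
  rw [Real.one_le_sqrt]
  have : 0 ≤ ‖c‖ ^ 2 := by positivity
  linarith

lemma mfv_nonneg (w : Option ℂ) (v : ℂ × ℂ) : 0 ≤ mfv w v := by
  cases w with
  | none => exact Real.posLog_nonneg
  | some c => exact Real.posLog_nonneg

lemma mfv_le (w : Option ℂ) (v : ℂ × ℂ) (hv : 0 < nrm v) :
    mfv w v ≤ (Real.log (nrm v) - Real.log ‖det2 v (vec w)‖) + Cup w ∨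
      (mfv w v = 0 ∧ det2 v (vec w) = 0) := by
  cases w with
  | none =>
    rw [Data.norm_vec_none_det]
    simp only [mfv, Cup, Option.elim]
    by_cases h2 : v.2 = 0
    · right
      rw [h2]
      simp [Data.det2_vec_none, h2]
    · left
      have h3 : 0 < ‖v.2‖ := norm_pos_iff.mpr h2
      rw [Real.posLog_def, add_zero, norm_div, ← Real.log_div hv.ne' h3.ne']
      apply max_le
      · apply Real.log_nonneg
        rw [le_div_iff₀ h3, one_mul]
        exact norm_snd_le v
      · by_cases h1 : v.1 = 0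
        · rw [h1]; simp only [norm_zero, zero_div, Real.log_zero]
          apply Real.log_nonneg
          rw [le_div_iff₀ h3, one_mul]
          exact norm_snd_le v
        · apply Real.log_le_log
          · have := norm_pos_iff.mpr h1
            positivity
          · gcongr
            exact norm_fst_le v
  | some c =>
    have hd := norm_det2_some v c
    have hs := one_le_s c
    have hle : ‖det2 v (vec (some c))‖ ≤ nrm v := by
      have := norm_det2_le v (vec (some c))
      rwa [nrm_vec, mul_one] at this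
    simp only [mfv, Cup, Option.elim]
    by_cases h2 : v.2 = 0
    · left
      rw [h2, div_zero, zero_sub, norm_neg]
      have h3 : nrm v = ‖v.1‖ := by
        unfold nrm
        rw [h2]
        simp
      have h4 : 0 < ‖det2 v (vec (some c))‖ := by
        rw [h2, mul_zero, sub_zero] at hd
        rw [h3] at hv
        rw [hd] at hv
        exact (pos_iff_pos_of_mul_pos hv).mp (by linarith)
      have h5 := Real.log_le_log h4 hle
      linarith
    · have h3 : 0 < ‖v.2‖ := norm_pos_iff.mpr h2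
      by_cases h0 : det2 v (vec (some c)) = 0
      · right
        refine ⟨?_, h0⟩
        have h4 : v.1 / v.2 - c = 0 := by
          rw [h0, norm_zero, mul_zero, norm_eq_zero] at hd
          field_simp
          linear_combination hd
        rw [h4]; simp
      · left
        have h4 : 0 < ‖det2 v (vec (some c))‖ := norm_pos_iff.mpr h0
        have h5 : ‖v.1 / v.2 - c‖⁻¹ = ‖v.2‖ / (Real.sqrt (1 + ‖c‖ ^ 2) * ‖det2 v (vec (some c))‖) := by
          rw [← hd]
          have : v.1 / v.2 - c = (v.1 - c * v.2) / v.2 := by field_simp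
          rw [this, norm_div, inv_div]
        have h6 : Real.posLog ‖v.1 / v.2 - c‖⁻¹
            ≤ Real.log (nrm v) - Real.log ‖det2 v (vec (some c))‖ := by
          rw [Real.posLog_def, ← Real.log_div hv.ne' h4.ne', h5]
          apply max_le
          · apply Real.log_nonneg
            rw [le_div_iff₀ h4, one_mul]
            exact hle
          · apply Real.log_le_log
            · positivity
            · apply div_le_div₀ hv.le (norm_snd_le v) h4
              nlinarith
        have h7 : 0 ≤ Real.posLog ‖c‖⁻¹ := Real.posLog_nonneg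
        linarith

lemma mfv_ge (w : Option ℂ) (v : ℂ × ℂ) (hv : 0 < nrm v) (h0 : det2 v (vec w) ≠ 0) :
    (Real.log (nrm v) - Real.log ‖det2 v (vec w)‖) - Clow w ≤ mfv w v := by
  have h4 : 0 < ‖det2 v (vec w)‖ := norm_pos_iff.mpr h0
  cases w with
  | none =>
    rw [Data.norm_vec_none_det] at h4 ⊢
    simp only [mfv, Clow, Option.elim]
    rw [← Real.log_div hv.ne' h4.ne']
    have h5 : nrm v / ‖v.2‖ ≤ 2 * max 1 ‖v.1 / v.2‖ := by
      rw [div_le_iff₀ h4, norm_div]
      have e1 := nrm_le_add v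
      have e2 : ‖v.2‖ ≤ max 1 (‖v.1‖ / ‖v.2‖) * ‖v.2‖ := by
        have := le_max_left 1 (‖v.1‖ / ‖v.2‖)
        nlinarith
      have e3 : ‖v.1‖ ≤ max 1 (‖v.1‖ / ‖v.2‖) * ‖v.2‖ := by
        have := le_max_right 1 (‖v.1‖ / ‖v.2‖)
        rw [div_le_iff₀ h4] at this
        exact this
      linarith
    have h6 := Real.log_le_log (by positivity) h5
    rw [Real.log_mul (by norm_num) (by positivity)] at h6
    have h7 : Real.log (max 1 ‖v.1 / v.2‖) = Real.posLog ‖v.1 / v.2‖ := by
      rw [Real.posLog_eq_log_max_one (norm_nonneg _)]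
    rw [h7] at h6
    linarith
  | some c =>
    have hd := norm_det2_some v c
    have hs := one_le_s c
    simp only [mfv, Clow, Option.elim]
    have hs0 : 0 < Real.sqrt (1 + ‖c‖ ^ 2) := by linarith
    have hle : nrm v ≤ Real.sqrt (1 + ‖c‖ ^ 2) * ‖det2 v (vec (some c))‖ + (1 + ‖c‖) * ‖v.2‖ := by
      rw [← hd]
      have e1 := nrm_le_add v
      have e2 : ‖v.1‖ ≤ ‖v.1 - c * v.2‖ + ‖c‖ * ‖v.2‖ := by
        have := norm_add_le (v.1 - c * v.2) (c * v.2)
        rwa [sub_add_cancel, norm_mul] at this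
      linarith
    by_cases h2 : v.2 = 0
    · rw [h2, norm_zero, mul_zero, add_zero] at hle
      have h5 := Real.log_le_log hv hle
      rw [Real.log_mul hs0.ne' h4.ne'] at h5
      have h6 : Real.log (Real.sqrt (1 + ‖c‖ ^ 2)) ≤ Real.log (Real.sqrt (1 + ‖c‖ ^ 2) * (2 + ‖c‖)) := by
        apply Real.log_le_log hs0
        have := norm_nonneg c
        nlinarith
      have h7 : 0 ≤ Real.posLog ‖v.1 / v.2 - c‖⁻¹ := Real.posLog_nonneg
      linarith
    · have h3 : 0 < ‖v.2‖ := norm_pos_iff.mpr h2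
      have h5 : ‖v.1 / v.2 - c‖⁻¹ = ‖v.2‖ / (Real.sqrt (1 + ‖c‖ ^ 2) * ‖det2 v (vec (some c))‖) := by
        rw [← hd]
        have : v.1 / v.2 - c = (v.1 - c * v.2) / v.2 := by field_simp
        rw [this, norm_div, inv_div]
      set m := max 1 (‖v.2‖ / (Real.sqrt (1 + ‖c‖ ^ 2) * ‖det2 v (vec (some c))‖)) with hm
      have h6 : nrm v ≤ ((Real.sqrt (1 + ‖c‖ ^ 2) * (2 + ‖c‖)) * m) * ‖det2 v (vec (some c))‖ := by
        have e1 : 1 ≤ m := le_max_left _ _
        have e2 : ‖v.2‖ ≤ m * (Real.sqrt (1 + ‖c‖ ^ 2) * ‖det2 v (vec (some c))‖) := by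
          rw [← div_le_iff₀ (by positivity)]
          exact le_max_right _ _
        have e3 : Real.sqrt (1 + ‖c‖ ^ 2) * ‖det2 v (vec (some c))‖
            ≤ m * (Real.sqrt (1 + ‖c‖ ^ 2) * ‖det2 v (vec (some c))‖) := by
          have : 0 ≤ Real.sqrt (1 + ‖c‖ ^ 2) * ‖det2 v (vec (some c))‖ := by positivity
          nlinarith
        have e4 : (1 + ‖c‖) * ‖v.2‖ ≤ (1 + ‖c‖) * (m * (Real.sqrt (1 + ‖c‖ ^ 2) * ‖det2 v (vec (some c))‖)) := by
          apply mul_le_mul_of_nonneg_left e2 (by positivity)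
        nlinarith
      have h7 := Real.log_le_log hv h6
      rw [Real.log_mul (by positivity) h4.ne', Real.log_mul (by positivity) (by positivity)] at h7
      have h8 : Real.log m = Real.posLog ‖v.1 / v.2 - c‖⁻¹ := by
        rw [Real.posLog_eq_log_max_one (by positivity), h5]
      rw [h8] at h7
      linarith

namespace Data
variable (D : Data)

lemma round_cases {k : ℤ} {ξ : ℂ} (h : ξ ∈ St k) :
    (round (ξ.im / π) = k ∧ D.R k ξ = |D.R k ξ|) ∨
      (round (ξ.im / π) = k + 1 ∧ D.R k ξ = -|D.R k ξ|) := by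
  obtain ⟨_, h2, h3⟩ := h
  have hpi := Real.pi_pos
  have hpi3 := Real.pi_gt_three
  set j := round (ξ.im / π) with hj
  have h4 : |ξ.im / π - j| ≤ 1 / 2 := abs_sub_round _
  have h5 := abs_le.mp h4
  have h6 : ξ.im / π < k + 1 + 1 / 4 := by
    rw [div_lt_iff₀ hpi]; nlinarith
  have h7 : (k : ℝ) - 1 / 4 < ξ.im / π := by
    rw [lt_div_iff₀ hpi]; nlinarith
  have h8 : k ≤ j := by
    by_contra hcon
    have : (j : ℝ) + 1 ≤ k := by
      have : j + 1 ≤ k := by omega
      exact_mod_cast this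
    linarith [h5.1, h5.2]
  have h9 : j ≤ k + 1 := by
    by_contra hcon
    have : (k : ℝ) + 2 ≤ j := by
      have : k + 2 ≤ j := by omega
      exact_mod_cast this
    linarith [h5.1, h5.2]
  have h10 : 0 ≤ sgn j * Real.cos ξ.im := by
    have e1 : sgn j * Real.cos ξ.im = Real.cos (ξ.im - j * π) := by
      rw [Real.cos_sub_int_mul_pi]; rfl
    rw [e1]
    apply Real.cos_nonneg_of_neg_pi_div_two_le_of_le
    · have := mul_le_mul_of_nonneg_right h5.1 hpi.le
      rw [sub_mul, div_mul_cancel₀ _ hpi.ne'] at this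
      linarith
    · have := mul_le_mul_of_nonneg_right h5.2 hpi.le
      rw [sub_mul, div_mul_cancel₀ _ hpi.ne'] at this
      linarith
  have hN := D.hN
  have hpos : 0 < D.N * Real.exp ξ.re := by have := Real.exp_pos ξ.re; positivity
  have : j = k ∨ j = k + 1 := by omega
  rcases this with h11 | h11
  · left
    refine ⟨h11, ?_⟩
    rw [h11] at h10
    have : 0 ≤ D.R k ξ := by
      unfold R
      have : sgn k * D.N * Real.exp ξ.re * Real.cos ξ.im
        = (D.N * Real.exp ξ.re) * (sgn k * Real.cos ξ.im) := by ring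
      rw [this]
      positivity
    rw [abs_of_nonneg this]
  · right
    refine ⟨h11, ?_⟩
    rw [h11, sgn_succ] at h10
    have : D.R k ξ ≤ 0 := by
      unfold R
      have : sgn k * D.N * Real.exp ξ.re * Real.cos ξ.im
        = -((D.N * Real.exp ξ.re) * (-sgn k * Real.cos ξ.im)) := by ring
      rw [this]
      have : 0 ≤ (D.N * Real.exp ξ.re) * (-sgn k * Real.cos ξ.im) := by positivity
      linarith
    rw [abs_of_nonpos this, neg_neg]

lemma det_W_vec (k : ℤ) (w : Option ℂ) :
    ‖det2 (D.W k) (vec w)‖ = ‖D.s k‖ * ‖det2 (vec (D.L k.natAbs)) (vec w)‖ := by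
  unfold W
  rw [det2_smul_left, norm_mul]

lemma det_vec_le_one (p q : Option ℂ) : ‖det2 (vec p) (vec q)‖ ≤ 1 := by
  have := norm_det2_le (vec p) (vec q)
  rwa [nrm_vec, nrm_vec, mul_one] at this

lemma hadj_int (k : ℤ) : D.L k.natAbs ≠ D.L (k + 1).natAbs := by
  intro h
  have h1 := D.hdet k
  rw [h, det2_self, mul_zero] at h1
  have : |sgn k| = 1 := abs_sgn k
  have h2 : (sgn k : ℂ) ≠ 0 := by
    rw [Complex.ofReal_ne_zero]
    intro h3
    rw [h3, abs_zero] at this
    norm_num at this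
  exact h2 h1.symm

lemma det_ne_of {k : ℤ} {w : Option ℂ} (h : D.L k.natAbs ≠ w) : det2 (D.W k) (vec w) ≠ 0 := by
  unfold W
  rw [det2_smul_left]
  apply mul_ne_zero (D.s_ne k)
  intro h1
  exact h (det2_vec_eq_zero h1)

lemma det_zero_of {k : ℤ} {w : Option ℂ} (h : D.L k.natAbs = w) : det2 (D.W k) (vec w) = 0 := by
  unfold W
  rw [det2_smul_left, h, det2_self, mul_zero]

/-- pointwise lower bound for the proximity integrand -/
lemma point_lower (w : Option ℂ) {k : ℤ} {ξ : ℂ} (h : ξ ∈ St k) :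
    2 * (D.N * (Real.exp ξ.re * qw D.L w ξ.im)) - (2 * D.err k + 2 + |Clow w|) ≤ mfv w (D.v ξ) := by
  have hnn := mfv_nonneg w (D.v ξ)
  have herr := D.err_nonneg k
  have hv := D.nrm_v_pos h.1
  have hge := D.nrm_v_ge h
  have hF := D.norm_F_bounds (St_sub_Om k h)
  have hF' := D.norm_F_bounds (St_sub_Om' k h)
  have hs := D.s_le_err k
  have habs := D.abs_R k ξ
  have hlog : Real.log (33 / 32) ≤ 1 := by
    have := Real.log_le_sub_one_of_pos (show (0 : ℝ) < 33 / 32 by norm_num)
    linarith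
  unfold qw
  split_ifs with hw
  · have hmain : ∀ H : ℝ, ‖det2 (D.v ξ) (vec w)‖ = H → 0 < H →
        H ≤ Real.exp (-|D.R k ξ|) * (33 / 32) * Real.exp (D.err k) →
        2 * (D.N * (Real.exp ξ.re * |Real.cos ξ.im|)) - (2 * D.err k + 2 + |Clow w|)
          ≤ mfv w (D.v ξ) := by
      intro H hH1 hH2 hH3
      have e1 := mfv_ge w (D.v ξ) hv (by
        intro h0
        rw [h0, norm_zero] at hH1
        linarith)
      rw [hH1] at e1
      have e2 := Real.log_le_log hH2 hH3
      rw [Real.log_mul (by positivity) (by positivity), Real.log_mul (by positivity) (by norm_num),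
        Real.log_exp, Real.log_exp] at e2
      have e3 := Real.log_le_log (Real.exp_pos _) hge
      rw [Real.log_exp] at e3
      have e4 := le_abs_self (Clow w)
      have e5 : D.N * (Real.exp ξ.re * |Real.cos ξ.im|) = |D.R k ξ| := by rw [habs]; ring
      rw [e5]
      have hlog' : Real.log (33 / 32) ≤ 1 / 32 := by
        have := Real.log_le_sub_one_of_pos (show (0 : ℝ) < 33 / 32 by norm_num)
        linarith
      linarith
    have hdetv : det2 (D.v ξ) (vec w) = D.E k ξ * D.F (k + 1) ξ * det2 (D.W k) (vec w)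
        + (D.E k ξ)⁻¹ * D.F k ξ * det2 (D.W (k + 1)) (vec w) := by
      rw [D.v_eq_St h, det_V]
    rcases D.round_cases h with ⟨hj, hR⟩ | ⟨hj, hR⟩
    · rw [hj] at hw
      have hA1 := D.det_zero_of hw
      have hA2 : det2 (D.W (k + 1)) (vec w) ≠ 0 := D.det_ne_of (by
        rw [← hw]; exact (D.hadj_int k).symm)
      rw [hA1, mul_zero, zero_add] at hdetv
      apply hmain (Real.exp (-|D.R k ξ|) * ‖D.F k ξ‖ * ‖det2 (D.W (k + 1)) (vec w)‖)
      · rw [hdetv, norm_mul, norm_mul, norm_E_inv, ← hR]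
      · have := norm_pos_iff.mpr hA2
        have : 0 < ‖D.F k ξ‖ := by linarith [hF.1]
        positivity
      · have : ‖det2 (D.W (k + 1)) (vec w)‖ ≤ Real.exp (D.err k) := by
          rw [det_W_vec]
          calc ‖D.s (k + 1)‖ * _ ≤ ‖D.s (k + 1)‖ * 1 := by
                gcongr; exact det_vec_le_one _ _
            _ ≤ _ := by rw [mul_one]; exact hs.2
        gcongr
        exact hF.2
    · rw [hj] at hw
      have hA1 := D.det_zero_of hw
      have hA2 : det2 (D.W k) (vec w) ≠ 0 := D.det_ne_of (by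
        rw [← hw]; exact (D.hadj_int k))
      rw [hA1, mul_zero, add_zero] at hdetv
      apply hmain (Real.exp (-|D.R k ξ|) * ‖D.F (k + 1) ξ‖ * ‖det2 (D.W k) (vec w)‖)
      · rw [hdetv, norm_mul, norm_mul, norm_E', ← hR]
      · have := norm_pos_iff.mpr hA2
        have : 0 < ‖D.F (k + 1) ξ‖ := by linarith [hF'.1]
        positivity
      · have : ‖det2 (D.W k) (vec w)‖ ≤ Real.exp (D.err k) := by
          rw [det_W_vec]
          calc ‖D.s k‖ * _ ≤ ‖D.s k‖ * 1 := by
                gcongr; exact det_vec_le_one _ _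
            _ ≤ _ := by rw [mul_one]; exact hs.1
        gcongr
        exact hF'.2
  · have := abs_nonneg (Clow w)
    linarith

end Data

end IDP
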