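import Mathlib
import Pool.Agent.Helper21.IDP.P1

open Filter Topology Real MeasureTheory Set

namespace IDP

namespace Data
variable (D : Data)

/-- first term -/
noncomputable def PP (k : ℤ) (u : ℂ × ℂ) (ξ : ℂ) : ℂ := D.E k ξ * D.F (k + 1) ξ * det2 (D.W k) u
/-- second term -/
noncomputable def QQ (k : ℤ) (u : ℂ × ℂ) (ξ : ℂ) : ℂ :=
  (D.E k ξ)⁻¹ * D.F k ξ * det2 (D.W (k + 1)) u

/-- near cancellation excess -/
noncomputable def nc (k : ℤ) (u : ℂ × ℂ) (ξ : ℂ) : ℝ :=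
  Real.log (max ‖D.PP k u ξ‖ ‖D.QQ k u ξ‖) - Real.log ‖D.PP k u ξ + D.QQ k u ξ‖

lemma det_V' (k : ℤ) (ξ : ℂ) (u : ℂ × ℂ) : det2 (D.V k ξ) u = D.PP k u ξ + D.QQ k u ξ :=
  D.det_V k ξ u

/-- separation of the labels from `w` up to `n` -/
def Sep (w : Option ℂ) (n : ℕ) (C : ℝ) : Prop :=
  ∀ i ≤ n, D.L i ≠ w → Real.exp (-(n + C + 3)) ≤ ‖det2 (vec (D.L i)) (vec w)‖

lemma Sep.ge {D : Data} {w : Option ℂ} {n : ℕ} {C : ℝ} (h : D.Sep w n C) {k : ℤ} {e : ℝ}
    (hk : |k| ≤ n) (hw : D.L k.natAbs ≠ w) (hs : Real.exp (-e) ≤ ‖D.s k‖) :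
    Real.exp (-(e + n + C + 3)) ≤ ‖det2 (D.W k) (vec w)‖ := by
  have h1 := h k.natAbs (by
    have := Int.natCast_natAbs k
    have : ((k.natAbs : ℕ) : ℤ) ≤ n := by rw [this]; exact hk
    exact_mod_cast this) hw
  rw [det_W_vec]
  calc Real.exp (-(e + n + C + 3)) = Real.exp (-e) * Real.exp (-(n + C + 3)) := by
        rw [← Real.exp_add]; congr 1; ring
    _ ≤ _ := by gcongr

lemma point_upper0 {w : Option ℂ} {n : ℕ} {C : ℝ} (hsep : D.Sep w n C) {k : ℤ}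
    (hk1 : |k| ≤ n) (hk2 : |k + 1| ≤ n) {ξ : ℂ} (h : ξ ∈ St k) :
    Real.log (nrm (D.v ξ)) - Real.log (max ‖D.PP k (vec w) ξ‖ ‖D.QQ k (vec w) ξ‖)
      ≤ 2 * (D.N * (Real.exp ξ.re * qw D.L w ξ.im)) + (2 * D.err k + n + C + 6) := by
  have hv := D.nrm_v_pos h.1
  have hle := D.nrm_v_le h
  have hF := D.norm_F_bounds (St_sub_Om k h)
  have hF' := D.norm_F_bounds (St_sub_Om' k h)
  have hs := D.s_ge_err k
  have habs := D.abs_R k ξ
  have hm1 : Real.exp (-1) ≤ 31 / 32 := by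
    rw [Real.exp_neg]
    have h3 : (2.7 : ℝ) < Real.exp 1 := by linarith [Real.exp_one_gt_d9]
    rw [inv_le_comm₀ (Real.exp_pos _) (by norm_num)]
    norm_num; linarith
  have hP : ‖D.PP k (vec w) ξ‖ = Real.exp (D.R k ξ) * ‖D.F (k + 1) ξ‖ * ‖det2 (D.W k) (vec w)‖ := by
    unfold PP
    rw [norm_mul, norm_mul, norm_E']
  have hQ : ‖D.QQ k (vec w) ξ‖
      = Real.exp (-D.R k ξ) * ‖D.F k ξ‖ * ‖det2 (D.W (k + 1)) (vec w)‖ := by
    unfold QQ
    rw [norm_mul, norm_mul, norm_E_inv]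
  have hlogv := Real.log_le_log hv hle
  rw [Real.log_exp] at hlogv
  set M := max ‖D.PP k (vec w) ξ‖ ‖D.QQ k (vec w) ξ‖ with hM
  have hP1 : D.L k.natAbs ≠ w → Real.exp (D.R k ξ - 1 - (D.err k + n + C + 3)) ≤ M := by
    intro hw
    have h1 := hsep.ge hk1 hw hs.1
    calc Real.exp (D.R k ξ - 1 - (D.err k + n + C + 3))
        = Real.exp (D.R k ξ) * Real.exp (-1) * Real.exp (-(D.err k + n + C + 3)) := by
          rw [← Real.exp_add, ← Real.exp_add]; congr 1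
      _ ≤ Real.exp (D.R k ξ) * ‖D.F (k + 1) ξ‖ * ‖det2 (D.W k) (vec w)‖ := by
          gcongr
          exact hm1.trans hF'.1
      _ ≤ M := by rw [← hP]; exact le_max_left _ _
  have hQ1 : D.L (k + 1).natAbs ≠ w → Real.exp (-D.R k ξ - 1 - (D.err k + n + C + 3)) ≤ M := by
    intro hw
    have h1 := hsep.ge hk2 hw hs.2
    calc Real.exp (-D.R k ξ - 1 - (D.err k + n + C + 3))
        = Real.exp (-D.R k ξ) * Real.exp (-1) * Real.exp (-(D.err k + n + C + 3)) := by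
          rw [← Real.exp_add, ← Real.exp_add]; congr 1
      _ ≤ Real.exp (-D.R k ξ) * ‖D.F k ξ‖ * ‖det2 (D.W (k + 1)) (vec w)‖ := by
          gcongr
          exact hm1.trans hF.1
      _ ≤ M := by rw [← hQ]; exact le_max_right _ _
  have hlog : ∀ e : ℝ, Real.exp e ≤ M → e ≤ Real.log M := by
    intro e he
    have := Real.log_le_log (Real.exp_pos _) he
    rwa [Real.log_exp] at this
  have e5 : D.N * (Real.exp ξ.re * |Real.cos ξ.im|) = |D.R k ξ| := by rw [habs]; ring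
  unfold qw
  split_ifs with hw
  · rw [e5]
    rcases D.round_cases h with ⟨hj, hR⟩ | ⟨hj, hR⟩
    · rw [hj] at hw
      have hw' : D.L (k + 1).natAbs ≠ w := by rw [← hw]; exact (D.hadj_int k).symm
      have := hlog _ (hQ1 hw')
      rw [hR, ] at this
      rw [← hR] at this
      have h9 : |D.R k ξ| = D.R k ξ := hR.symm
      linarith
    · rw [hj] at hw
      have hw' : D.L k.natAbs ≠ w := by rw [← hw]; exact D.hadj_int k
      have := hlog _ (hP1 hw')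
      have h9 : |D.R k ξ| = - D.R k ξ := by linarith
      linarith
  · rcases D.round_cases h with ⟨hj, hR⟩ | ⟨hj, hR⟩
    · rw [hj] at hw
      have := hlog _ (hP1 hw)
      have h9 : |D.R k ξ| = D.R k ξ := hR.symm
      linarith
    · rw [hj] at hw
      have := hlog _ (hQ1 hw)
      have h9 : |D.R k ξ| = - D.R k ξ := by linarith
      linarith

lemma qw_nonneg (L : ℕ → Option ℂ) (w : Option ℂ) (y : ℝ) : 0 ≤ qw L w y := by
  unfold qw; split_ifs
  · exact abs_nonneg _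
  · exact le_rfl

/-- pointwise upper bound up to near cancellation -/
lemma point_upper {w : Option ℂ} {n : ℕ} {C : ℝ} (hC : 0 ≤ C) (hsep : D.Sep w n C) {k : ℤ}
    (hk1 : |k| ≤ n) (hk2 : |k + 1| ≤ n) {ξ : ℂ} (h : ξ ∈ St k) {B : ℝ}
    (hB : 2 * D.err k + n + C + 6 + Cup w ≤ B) :
    ENNReal.ofReal (mfv w (D.v ξ) - (2 * (D.N * (Real.exp ξ.re * qw D.L w ξ.im)) + B))
      ≤ ENNReal.ofReal (D.nc k (vec w) ξ) := by
  have h0 := D.point_upper0 hsep hk1 hk2 h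
  have hq := qw_nonneg D.L w ξ.im
  have hN := D.hN
  have he := D.err_nonneg k
  have hCup := Cup_nonneg w
  have hn : (0 : ℝ) ≤ n := by positivity
  have hpos : 0 ≤ D.N * (Real.exp ξ.re * qw D.L w ξ.im) := by
    have := Real.exp_pos ξ.re
    positivity
  rcases mfv_le w (D.v ξ) (D.nrm_v_pos h.1) with h1 | ⟨h1, _⟩
  · apply ENNReal.ofReal_le_ofReal
    have h2 : det2 (D.v ξ) (vec w) = D.PP k (vec w) ξ + D.QQ k (vec w) ξ := by
      rw [D.v_eq_St h, det_V']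
    rw [h2] at h1
    unfold nc
    linarith
  · have : mfv w (D.v ξ) - (2 * (D.N * (Real.exp ξ.re * qw D.L w ξ.im)) + B) ≤ 0 := by
      rw [h1]; linarith
    rw [ENNReal.ofReal_of_nonpos this]
    exact zero_le

lemma nc_zero_of {k : ℤ} {u : ℂ × ℂ} (ξ : ℂ) (h : det2 (D.W k) u = 0 ∨ det2 (D.W (k + 1)) u = 0) :
    D.nc k u ξ = 0 := by
  unfold nc PP QQ
  rcases h with h | h
  · rw [h, mul_zero, norm_zero, zero_add, max_eq_right (norm_nonneg _), sub_self]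
  · rw [h, mul_zero, norm_zero, add_zero, max_eq_left (norm_nonneg _), sub_self]

end Data

end IDP
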