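import Mathlib
import Pool.Agent.Helper21.IDP.P2
import Pool.Agent.Helper21.IDP.FH
import Pool.Agent.Helper54.IDP_G

open Filter Topology Real MeasureTheory Set

namespace IDP

lemma xc_deriv_norm_le {r : ℝ} (hr0 : 0 ≤ r) (hr1 : r < 1) (θ : ℝ) :
    ‖Complex.I / 2 * (xc r θ ^ 3 - xc r θ)‖ ≤ XX r ^ 3 / 2 := by
  have hz : ‖circleMap 0 r θ‖ < 1 := by rw [norm_circle hr0]; exact hr1
  have h2 := xi_sq hz
  have h3 : Complex.I / 2 * (xc r θ ^ 3 - xc r θ) = Complex.I / 2 * circleMap 0 r θ * xc r θ ^ 3 := by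
    unfold xc
    linear_combination (-(Complex.I / 2) * xi (circleMap 0 r θ)) * (-h2)
  rw [h3, norm_mul, norm_mul, norm_pow, norm_circle hr0, norm_div, Complex.norm_I]
  have h4 := xc_norm_le hr0 hr1 θ
  have h5 : ‖xc r θ‖ ^ 3 ≤ XX r ^ 3 := by gcongr
  have h6 : ‖(2 : ℂ)‖ = 2 := by simp
  rw [h6]
  have h7 : 0 ≤ ‖xc r θ‖ ^ 3 := by positivity
  nlinarith

lemma xc_var {r : ℝ} (hr0 : 0 ≤ r) (hr1 : r < 1) {a b : ℝ} {θ : ℝ} (hθ : θ ∈ Icc a b) :
    ‖xc r θ - xc r a‖ ≤ XX r ^ 3 / 2 * (b - a) := by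
  have h1 := norm_image_sub_le_of_norm_deriv_le_segment' (f := xc r) (a := a) (b := b)
    (C := XX r ^ 3 / 2)
    (fun x _ => (xc_hasDerivAt hr0 hr1 x).hasDerivWithinAt)
    (fun x _ => xc_deriv_norm_le hr0 hr1 x) θ hθ
  refine h1.trans ?_
  have := XX_pos hr1
  gcongr
  exact hθ.2

namespace Data
variable (D : Data)

lemma arc_St {r : ℝ} (hr0 : 0 ≤ r) (hr1 : r < 1) {a b : ℝ} (hlen : (b - a) * (60 * XX r ^ 3) ≤ 1)
    {θ : ℝ} (hθ : θ ∈ Icc a b) : xc r θ ∈ St ⌊(xc r a).im / π⌋ := by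
  have h1 := xc_var hr0 hr1 hθ
  have h2 : ‖xc r θ - xc r a‖ ≤ 1 / 60 := by
    refine h1.trans ?_
    linarith
  have h3 := abs_le.mp ((Complex.abs_im_le_norm _).trans h2)
  rw [Complex.sub_im] at h3
  have hpi := Real.pi_pos
  refine ⟨xc_sector hr0 hr1 θ, ?_, ?_⟩
  · have := Int.floor_le ((xc r a).im / π)
    rw [le_div_iff₀ hpi] at this
    linarith [h3.1]
  · have := Int.lt_floor_add_one ((xc r a).im / π)
    rw [div_lt_iff₀ hpi] at this
    linarith [h3.2]

lemma floor_bounds {r : ℝ} (hr0 : 0 ≤ r) (hr1 : r < 1) (a : ℝ) {n : ℕ} (hn : XX r / π + 2 ≤ n) :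
    |⌊(xc r a).im / π⌋| ≤ n ∧ |⌊(xc r a).im / π⌋ + 1| ≤ n := by
  have hpi := Real.pi_pos
  have h1 : |(xc r a).im| ≤ XX r := (Complex.abs_im_le_norm _).trans (xc_norm_le hr0 hr1 a)
  have h2 := abs_le.mp h1
  have h3 : (xc r a).im / π ≤ XX r / π := by gcongr; exact h2.2
  have h4 : -(XX r / π) ≤ (xc r a).im / π := by
    rw [← neg_div]; gcongr; exact h2.1
  have h5 := Int.floor_le ((xc r a).im / π)
  have h6 := Int.lt_floor_add_one ((xc r a).im / π)
  constructor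
  · rw [abs_le]
    constructor
    · have : (-(n : ℤ) : ℝ) ≤ (⌊(xc r a).im / π⌋ : ℝ) := by push_cast; linarith
      exact_mod_cast this
    · have : (⌊(xc r a).im / π⌋ : ℝ) ≤ ((n : ℤ) : ℝ) := by push_cast; linarith
      exact_mod_cast this
  · rw [abs_le]
    constructor
    · have : (-(n : ℤ) : ℝ) ≤ (⌊(xc r a).im / π⌋ : ℝ) + 1 := by push_cast; linarith
      exact_mod_cast this
    · have : (⌊(xc r a).im / π⌋ : ℝ) + 1 ≤ ((n : ℤ) : ℝ) := by push_cast; linarith
      exact_mod_cast this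

/-- the excess function -/
noncomputable def phi (w : Option ℂ) (r B θ : ℝ) : ℝ :=
  mfv w (D.v (xc r θ)) - (2 * (D.N * (Real.exp (xc r θ).re * qw D.L w (xc r θ).im)) + B)

lemma arc_int {w : Option ℂ} {n : ℕ} {C : ℝ} (hC : 0 ≤ C) (hsep : D.Sep w n C) {r : ℝ}
    (hr0 : 1 / 2 ≤ r) (hr1 : r < 1) (hn : XX r / π + 2 ≤ n) {B : ℝ}
    (hB : 2 * (D.A * Real.exp 3 * eX r) + n + C + 6 + Cup w ≤ B) {a b : ℝ} (hab : a ≤ b)
    (hlen : (b - a) * (60 * XX r ^ 3) ≤ 1) :
    ∫⁻ θ in Icc a b, ENNReal.ofReal (D.phi w r B θ) ≤ ENNReal.ofReal (100 * ((b - a) + 1)) := by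
  have hr0' : 0 ≤ r := by linarith
  set k := ⌊(xc r a).im / π⌋ with hk
  have hSt : ∀ θ ∈ Icc a b, xc r θ ∈ St k := fun θ hθ => arc_St hr0' hr1 hlen hθ
  obtain ⟨hk1, hk2⟩ := floor_bounds hr0' hr1 a hn
  have h1 : ∫⁻ θ in Icc a b, ENNReal.ofReal (D.phi w r B θ)
      ≤ ∫⁻ θ in Icc a b, ENNReal.ofReal (D.nc k (vec w) (xc r θ)) := by
    apply setLIntegral_mono' measurableSet_Icc
    intro θ hθ
    apply D.point_upper hC hsep hk1 hk2 (hSt θ hθ)
    have := D.err_le hr0' hr1 (hSt θ hθ)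
    linarith
  refine h1.trans ?_
  by_cases hA : det2 (D.W k) (vec w) = 0 ∨ det2 (D.W (k + 1)) (vec w) = 0
  · have : ∀ θ, D.nc k (vec w) (xc r θ) = 0 := fun θ => D.nc_zero_of _ hA
    simp only [this, ENNReal.ofReal_zero, lintegral_zero]
    exact zero_le
  · push Not at hA
    exact nc_bound D (vec w) r hr0 hr1 k a b hab hlen hSt hA.1 hA.2

lemma circle_lint {w : Option ℂ} {n : ℕ} {C : ℝ} (hC : 0 ≤ C) (hsep : D.Sep w n C) {r : ℝ}
    (hr0 : 1 / 2 ≤ r) (hr1 : r < 1) (hn : XX r / π + 2 ≤ n) {B : ℝ}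
    (hB : 2 * (D.A * Real.exp 3 * eX r) + n + C + 6 + Cup w ≤ B) :
    ∫⁻ θ in Icc 0 (2 * π), ENNReal.ofReal (D.phi w r B θ)
      ≤ ENNReal.ofReal (100 * (2 * π + (120 * π * XX r ^ 3 + 1))) := by
  have hpi := Real.pi_pos
  have hX := XX_pos hr1
  set M : ℕ := ⌈120 * π * XX r ^ 3⌉₊ with hM
  have hM1 : 120 * π * XX r ^ 3 ≤ M := Nat.le_ceil _
  have hM2 : (M : ℝ) ≤ 120 * π * XX r ^ 3 + 1 := (Nat.ceil_lt_add_one (by positivity)).le
  have hM0 : (0 : ℝ) < M := lt_of_lt_of_le (by positivity) hM1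
  set δ : ℝ := 2 * π / M with hδ
  have hδ0 : 0 < δ := by positivity
  have hδM : M * δ = 2 * π := by rw [hδ]; field_simp
  have hδ1 : δ * (60 * XX r ^ 3) ≤ 1 := by
    rw [hδ, div_mul_eq_mul_div, div_le_one hM0]
    linarith
  have hind : ∀ m : ℕ, ∫⁻ θ in Icc 0 (m * δ), ENNReal.ofReal (D.phi w r B θ)
      ≤ m * ENNReal.ofReal (100 * (δ + 1)) := by
    intro m
    induction m with
    | zero => simp
    | succ m ih =>
      have hsub : Icc (0 : ℝ) ((m + 1 : ℕ) * δ) ⊆ Icc 0 (m * δ) ∪ Icc (m * δ) ((m + 1 : ℕ) * δ) := by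
        intro x hx
        rcases le_total x (m * δ) with h | h
        · left; exact ⟨hx.1, h⟩
        · right; exact ⟨h, hx.2⟩
      have harc := D.arc_int hC hsep hr0 hr1 hn hB (a := m * δ) (b := (m + 1 : ℕ) * δ) (by
        push_cast; nlinarith) (by
        have : ((m + 1 : ℕ) : ℝ) * δ - m * δ = δ := by push_cast; ring
        rw [this]; exact hδ1)
      have e1 : ((m + 1 : ℕ) : ℝ) * δ - m * δ = δ := by push_cast; ring
      rw [e1] at harc
      calc ∫⁻ θ in Icc 0 ((m + 1 : ℕ) * δ), ENNReal.ofReal (D.phi w r B θ)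
          ≤ ∫⁻ θ in Icc 0 (m * δ) ∪ Icc (m * δ) ((m + 1 : ℕ) * δ), ENNReal.ofReal (D.phi w r B θ) :=
            lintegral_mono_set hsub
        _ ≤ _ := lintegral_union_le _ _ _
        _ ≤ m * ENNReal.ofReal (100 * (δ + 1)) + ENNReal.ofReal (100 * (δ + 1)) :=
            add_le_add ih harc
        _ = ((m + 1 : ℕ) : ENNReal) * ENNReal.ofReal (100 * (δ + 1)) := by
            push_cast; ring
  have h1 := hind M
  rw [hδM] at h1
  refine h1.trans ?_
  rw [← ENNReal.ofReal_natCast, ← ENNReal.ofReal_mul (by positivity)]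
  apply ENNReal.ofReal_le_ofReal
  have : (M : ℝ) * (100 * (δ + 1)) = 100 * (2 * π + M) := by rw [← hδM]; ring
  rw [this]
  linarith

/-- `∫ e^{Re ξ} q_w(Im ξ)` -/
noncomputable def bInt (w : Option ℂ) (r : ℝ) : ℝ :=
  ∫ θ in (0 : ℝ)..(2 * π), Real.exp (xc r θ).re * qw D.L w (xc r θ).im

lemma continuous_bq (w : Option ℂ) {r : ℝ} (hr0 : 0 ≤ r) (hr1 : r < 1) :
    Continuous fun θ : ℝ => Real.exp (xc r θ).re * qw D.L w (xc r θ).im := by
  have h1 := continuous_xc hr0 hr1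
  have h2 : Continuous fun θ : ℝ => (xc r θ).re := Complex.continuous_re.comp h1
  have h3 : Continuous fun θ : ℝ => (xc r θ).im := Complex.continuous_im.comp h1
  exact (Real.continuous_exp.comp h2).mul ((continuous_qw D.L w).comp h3)

lemma intervalIntegrable_mfv (w : Option ℂ) {r : ℝ} (hr0 : 0 ≤ r) (hr1 : r < 1) :
    IntervalIntegrable (fun θ => mfv w (D.v (xc r θ))) volume 0 (2 * π) := by
  have hsub : Metric.sphere (0 : ℂ) |r| ⊆ Metric.ball 0 1 := by
    intro z hz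
    rw [mem_sphere_zero_iff_norm] at hz
    rw [Metric.mem_ball, dist_zero_right, hz, abs_of_nonneg hr0]
    exact hr1
  have hf : MeromorphicOn D.f (Metric.sphere (0 : ℂ) |r|) := D.mero_f.mono_set hsub
  cases w with
  | none => exact circleIntegrable_posLog_norm_meromorphicOn hf
  | some c =>
    have h1 : MeromorphicOn (fun z => (D.f z - c)⁻¹) (Metric.sphere (0 : ℂ) |r|) := by
      have h2 : MeromorphicOn (fun _ : ℂ => c) (Metric.sphere (0 : ℂ) |r|) := MeromorphicOn.const c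
      exact (hf.sub h2).inv
    have h3 := circleIntegrable_posLog_norm_meromorphicOn h1
    have h4 : (fun θ => mfv (some c) (D.v (xc r θ)))
        = fun θ => Real.posLog ‖(D.f (circleMap 0 r θ) - c)⁻¹‖ := by
      funext θ
      rw [norm_inv]
      rfl
    rw [h4]
    exact h3

lemma X3_le_eX {r : ℝ} (hr1 : r < 1) : XX r ^ 3 ≤ 162 * eX r := by
  have hX := XX_pos hr1
  have h1 := Real.pow_div_factorial_le_exp (XX r / 3) (by positivity) 3
  have h2 : ((3 : ℕ).factorial : ℝ) = 6 := by norm_num [Nat.factorial]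
  rw [h2] at h1
  unfold eX
  nlinarith

lemma X_le_eX {r : ℝ} (hr1 : r < 1) : XX r ≤ 3 * eX r := by
  have h1 := Real.add_one_le_exp (XX r / 3)
  unfold eX
  linarith

theorem upper_int (w : Option ℂ) {C : ℝ} (hC : 0 ≤ C) : ∃ K : ℝ, 0 ≤ K ∧ ∀ (r : ℝ) (n : ℕ),
    1 / 2 ≤ r → r < 1 → XX r / π + 2 ≤ n → (n : ℝ) ≤ XX r + 3 → D.Sep w n C →
    ∫ θ in (0 : ℝ)..(2 * π), mfv w (D.v (xc r θ)) ≤ 2 * D.N * D.bInt w r + K * eX r := by
  have hpi := Real.pi_pos
  have hA := D.hA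
  have hCup := Cup_nonneg w
  set K0 : ℝ := 2 * (D.A * Real.exp 3) + 6 + C + 6 + Cup w with hK0
  have hK00 : 0 ≤ K0 := by positivity
  refine ⟨K0 * (2 * π) + 100 * (2 * π + (120 * π * 162 + 1)), by positivity, ?_⟩
  intro r n hr0 hr1 hn1 hn2 hsep
  have hr0' : 0 ≤ r := by linarith
  have he : 1 ≤ eX r := Real.one_le_exp (by have := XX_pos hr1; positivity)
  have hX := X_le_eX hr1
  have hX3 := X3_le_eX hr1
  have hB : 2 * (D.A * Real.exp 3 * eX r) + n + C + 6 + Cup w ≤ K0 * eX r := by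
    rw [hK0]
    have : (n : ℝ) ≤ 6 * eX r := by linarith
    nlinarith
  have h1 := D.circle_lint hC hsep hr0 hr1 hn1 hB
  have hint1 := D.intervalIntegrable_mfv w hr0' hr1
  have hc := D.continuous_bq w hr0' hr1
  have hint2 : IntervalIntegrable (fun θ => 2 * (D.N * (Real.exp (xc r θ).re * qw D.L w (xc r θ).im))
      + K0 * eX r) volume 0 (2 * π) := by
    apply Continuous.intervalIntegrable
    exact ((hc.const_mul _).const_mul _).add continuous_const
  have hint3 : IntervalIntegrable (fun θ => D.phi w r (K0 * eX r) θ) volume 0 (2 * π) :=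
    hint1.sub hint2
  have h2 : ∫ θ in (0 : ℝ)..(2 * π), D.phi w r (K0 * eX r) θ
      ≤ 100 * (2 * π + (120 * π * XX r ^ 3 + 1)) := by
    rw [intervalIntegral.integral_of_le (by positivity)]
    rw [integral_eq_lintegral_pos_part_sub_lintegral_neg_part hint3.1]
    have h3 : (∫⁻ θ in Ioc 0 (2 * π), ENNReal.ofReal (D.phi w r (K0 * eX r) θ)).toReal
        ≤ 100 * (2 * π + (120 * π * XX r ^ 3 + 1)) := by
      apply ENNReal.toReal_le_of_le_ofReal
      · have := XX_pos hr1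
        positivity
      · exact (lintegral_mono_set Ioc_subset_Icc_self).trans h1
    have h4 := @ENNReal.toReal_nonneg (∫⁻ θ in Ioc 0 (2 * π), ENNReal.ofReal (-D.phi w r (K0 * eX r) θ))
    linarith
  have h3 : ∫ θ in (0 : ℝ)..(2 * π), D.phi w r (K0 * eX r) θ
      = (∫ θ in (0 : ℝ)..(2 * π), mfv w (D.v (xc r θ))) - (2 * D.N * D.bInt w r + K0 * eX r * (2 * π)) := by
    unfold phi
    rw [intervalIntegral.integral_sub hint1 hint2]
    rw [intervalIntegral.integral_add (((hc.const_mul _).const_mul _).intervalIntegrable _ _)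
      (continuous_const.intervalIntegrable _ _)]
    rw [intervalIntegral.integral_const_mul, intervalIntegral.integral_const_mul,
      intervalIntegral.integral_const]
    unfold bInt
    rw [smul_eq_mul, sub_zero]
    ring
  rw [h3] at h2
  have h4 : 100 * (2 * π + (120 * π * XX r ^ 3 + 1)) ≤ 100 * (2 * π + (120 * π * 162 + 1)) * eX r := by
    have e1 : 120 * π * XX r ^ 3 ≤ 120 * π * (162 * eX r) := by gcongr
    nlinarith
  have h5 : (K0 * (2 * π) + 100 * (2 * π + (120 * π * 162 + 1))) * eX r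
      = K0 * eX r * (2 * π) + 100 * (2 * π + (120 * π * 162 + 1)) * eX r := by ring
  rw [h5]
  linarith

/-- lower bound of the proximity integral -/
theorem lower_int (w : Option ℂ) : ∃ K : ℝ, 0 ≤ K ∧ ∀ r : ℝ, 0 < r → r < 1 →
    2 * D.N * D.bInt w r - K * eX r ≤ ∫ θ in (0 : ℝ)..(2 * π), mfv w (D.v (xc r θ)) := by
  have hpi := Real.pi_pos
  have hA := D.hA
  set K0 : ℝ := 2 * (D.A * Real.exp 3) + 2 + |Clow w| with hK0
  have hK00 : 0 ≤ K0 := by positivity
  refine ⟨K0 * (2 * π), by positivity, ?_⟩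
  intro r hr0 hr1
  have he : 1 ≤ eX r := Real.one_le_exp (by have := XX_pos hr1; positivity)
  have hint1 := D.intervalIntegrable_mfv w hr0.le hr1
  have hc := D.continuous_bq w hr0.le hr1
  have hint2 : IntervalIntegrable (fun θ => 2 * (D.N * (Real.exp (xc r θ).re * qw D.L w (xc r θ).im))
      - K0 * eX r) volume 0 (2 * π) := by
    apply Continuous.intervalIntegrable
    exact ((hc.const_mul _).const_mul _).sub continuous_const
  have h1 : ∫ θ in (0 : ℝ)..(2 * π), (2 * (D.N * (Real.exp (xc r θ).re * qw D.L w (xc r θ).im))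
      - K0 * eX r) ≤ ∫ θ in (0 : ℝ)..(2 * π), mfv w (D.v (xc r θ)) := by
    apply intervalIntegral.integral_mono (by positivity) hint2 hint1
    intro θ
    have hSt := exists_St (xc_sector hr0.le hr1 θ)
    have h2 := D.point_lower w hSt
    have h3 := D.err_le hr0.le hr1 hSt
    have h4 : 2 * D.err ⌊(xc r θ).im / π⌋ + 2 + |Clow w| ≤ K0 * eX r := by
      rw [hK0]
      nlinarith [abs_nonneg (Clow w)]
    simp only
    linarith
  rw [intervalIntegral.integral_sub (((hc.const_mul _).const_mul _).intervalIntegrable _ _)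
      (continuous_const.intervalIntegrable _ _)] at h1
  rw [intervalIntegral.integral_const_mul, intervalIntegral.integral_const_mul,
      intervalIntegral.integral_const, smul_eq_mul, sub_zero] at h1
  have h5 : 2 * D.N * D.bInt w r = 2 * (D.N * ∫ θ in (0 : ℝ)..(2 * π),
      Real.exp (xc r θ).re * qw D.L w (xc r θ).im) := by
    unfold bInt; ring
  rw [h5]
  linarith

end Data

end IDP
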