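import Mathlib
import Pool.Agent.Helper21.IDP.P3
import Pool.Agent.Helper90.IDP_C
import Pool.Agent.Helper37.IDP_D

open Filter Topology Real MeasureTheory Set

namespace IDP

noncomputable def Jr (r : ℝ) : ℝ := ∫ θ in (0 : ℝ)..(2 * π), Real.exp (xc r θ).re

lemma log_eq {r : ℝ} (hr : r < 1) : Real.log (1 / (1 - r)) = 2 * Real.log (XX r) := by
  have h := XX_sq hr
  have h1 : 0 < 1 - r := by linarith
  have h2 : 1 / (1 - r) = XX r ^ 2 := by
    rw [div_eq_iff h1.ne']; linarith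
  rw [h2, Real.log_pow]
  push_cast; ring

lemma eX_div_J : Tendsto (fun r => Data.eX r / Jr r) (𝓝[<] 1) (𝓝 0) := by
  have h1 : Tendsto (fun r => Real.exp (-(XX r / 6))) (𝓝[<] 1) (𝓝 0) := by
    apply Real.tendsto_exp_neg_atTop_nhds_zero.comp
    exact tendsto_XX.atTop_div_const (by norm_num)
  apply squeeze_zero' _ _ h1
  · filter_upwards [circle_growth] with r hr
    have : 0 < Jr r := lt_of_lt_of_le (Real.exp_pos _) hr
    exact div_nonneg (Real.exp_pos _).le this.le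
  · filter_upwards [circle_growth] with r hr
    have : 0 < Jr r := lt_of_lt_of_le (Real.exp_pos _) hr
    rw [div_le_iff₀ this]
    calc Data.eX r = Real.exp (-(XX r / 6)) * Real.exp (XX r / 2) := by
          unfold Data.eX; rw [← Real.exp_add]; congr 1; ring
      _ ≤ _ := mul_le_mul_of_nonneg_left hr (Real.exp_pos _).le

lemma near_one : ∀ᶠ r : ℝ in 𝓝[<] 1, 1 / 2 ≤ r ∧ r < 1 := by
  have h1 : ∀ᶠ r : ℝ in 𝓝[<] 1, (1 / 2 : ℝ) < r :=
    (eventually_gt_nhds (by norm_num : (1 / 2 : ℝ) < 1)).filter_mono nhdsWithin_le_nhds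
  filter_upwards [h1, self_mem_nhdsWithin] with r h2 h3
  exact ⟨h2.le, h3⟩

namespace Data
variable (D : Data)

lemma a_div_J : Tendsto (fun r => aInt r / Jr r) (𝓝[<] 1) (𝓝 (2 / π)) :=
  circle_ratio (fun y => |Real.cos y|) Real.continuous_cos.abs (fun y => by rw [Real.cos_neg])
    (fun y => abs_nonneg _) (fun y => Real.abs_cos_le_one y) _ cos_density

lemma qw_le_one (L : ℕ → Option ℂ) (w : Option ℂ) (y : ℝ) : qw L w y ≤ 1 := by
  unfold qw; split_ifs
  · exact Real.abs_cos_le_one y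
  · norm_num

open Classical in
lemma b_div_J (w : Option ℂ) (e : ℝ)
    (hL : Tendsto (fun K : ℕ => (({i ∈ Finset.range K | D.L i = w} : Finset ℕ).card : ℝ) / K)
        atTop (𝓝 (e / 2))) :
    Tendsto (fun r => D.bInt w r / Jr r) (𝓝[<] 1) (𝓝 (e / π)) :=
  circle_ratio (qw D.L w) (continuous_qw D.L w) (qw_even D.L w)
    (qw_nonneg D.L w) (qw_le_one D.L w) _ (label_density D.L w e hL)

lemma T_div_J : Tendsto (fun r => D.T r / Jr r) (𝓝[<] 1) (𝓝 (D.N / π ^ 2)) := by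
  obtain ⟨C, hC, hT⟩ := D.T_bounds
  have hpi := Real.pi_pos
  have h1 : Tendsto (fun r => (2 * π * D.T r - D.N * aInt r) / Jr r) (𝓝[<] 1) (𝓝 0) := by
    have h2 : Tendsto (fun r => C * (eX r / Jr r)) (𝓝[<] 1) (𝓝 0) := by
      have := eX_div_J.const_mul C
      rwa [mul_zero] at this
    apply squeeze_zero_norm' _ h2
    filter_upwards [circle_growth, near_one] with r hr hr1
    have hJ : 0 < Jr r := lt_of_lt_of_le (Real.exp_pos _) hr
    rw [Real.norm_eq_abs, abs_div, abs_of_pos hJ, ← mul_div_assoc]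
    gcongr
    exact hT r (by linarith [hr1.1]) hr1.2
  have h3 := (h1.add (a_div_J.const_mul D.N)).const_mul (2 * π)⁻¹
  have h4 : (2 * π)⁻¹ * (0 + D.N * (2 / π)) = D.N / π ^ 2 := by field_simp; ring
  rw [h4] at h3
  apply h3.congr
  intro r
  field_simp
  ring

/-- the characteristic grows fast -/
lemma T_growth (M : ℝ) : ∀ᶠ r in 𝓝[<] (1 : ℝ), M * Real.log (1 / (1 - r)) ≤ D.T r := by
  have hpi := Real.pi_pos
  have hN := D.hN
  have hc : D.N / π ^ 2 / 2 < D.N / π ^ 2 := by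
    have : 0 < D.N / π ^ 2 := by positivity
    linarith
  set c := D.N / π ^ 2 / 2 with hcdef
  have hc0 : 0 < c := by positivity
  have h1 : ∀ᶠ r in 𝓝[<] (1 : ℝ), c < D.T r / Jr r := D.T_div_J.eventually (lt_mem_nhds hc)
  have h2 : ∀ᶠ X : ℝ in atTop, M * (2 * Real.log X) ≤ c * Real.exp (X / 2) := by
    have h3 : Tendsto (fun X : ℝ => Real.exp (X / 2) / (X / 2) ^ 1) atTop atTop :=
      (Real.tendsto_exp_div_pow_atTop 1).comp (tendsto_id.atTop_div_const (by norm_num))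
    filter_upwards [h3.eventually (eventually_ge_atTop (4 * |M| / c)), eventually_ge_atTop 1]
      with X hX hX1
    rw [pow_one, le_div_iff₀ (by positivity)] at hX
    have h4 : Real.log X ≤ X := (Real.log_le_sub_one_of_pos (by linarith)).trans (by linarith)
    have h5 : 0 ≤ Real.log X := Real.log_nonneg hX1
    have h6 : M * (2 * Real.log X) ≤ |M| * (2 * X) := by
      have := le_abs_self M
      have := abs_nonneg M
      nlinarith
    have h7 : c * (4 * |M| / c * (X / 2)) = |M| * (2 * X) := by field_simp; ring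
    have h8 := mul_le_mul_of_nonneg_left hX hc0.le
    linarith
  filter_upwards [h1, tendsto_XX.eventually h2, circle_growth, near_one] with r h3 h4 h5 h6
  have hJ : 0 < Jr r := lt_of_lt_of_le (Real.exp_pos _) h5
  rw [lt_div_iff₀ hJ] at h3
  rw [log_eq h6.2]
  have h7 : c * Real.exp (XX r / 2) ≤ c * Jr r := mul_le_mul_of_nonneg_left h5 hc0.le
  linarith

open Classical in
lemma lower_ev (w : Option ℂ) (e : ℝ)
    (hL : Tendsto (fun K : ℕ => (({i ∈ Finset.range K | D.L i = w} : Finset ℕ).card : ℝ) / K)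
        atTop (𝓝 (e / 2))) {ε : ℝ} (hε : 0 < ε) :
    ∀ᶠ r in 𝓝[<] (1 : ℝ), (e - ε) * D.T r
      ≤ (2 * π)⁻¹ * ∫ θ in (0 : ℝ)..(2 * π), mfv w (D.v (xc r θ)) := by
  obtain ⟨K, hK, hlow⟩ := D.lower_int w
  have hpi := Real.pi_pos
  have hN := D.hN
  have h1 : Tendsto (fun r => (2 * π)⁻¹ * (2 * D.N * (D.bInt w r / Jr r) - K * (eX r / Jr r))
      - (e - ε) * (D.T r / Jr r)) (𝓝[<] 1)
      (𝓝 ((2 * π)⁻¹ * (2 * D.N * (e / π) - K * 0) - (e - ε) * (D.N / π ^ 2))) :=
    ((((D.b_div_J w e hL).const_mul (2 * D.N)).sub (eX_div_J.const_mul K)).const_mul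
      (2 * π)⁻¹).sub (D.T_div_J.const_mul (e - ε))
  have h2 : (0 : ℝ) < (2 * π)⁻¹ * (2 * D.N * (e / π) - K * 0) - (e - ε) * (D.N / π ^ 2) := by
    have : (2 * π)⁻¹ * (2 * D.N * (e / π) - K * 0) - (e - ε) * (D.N / π ^ 2)
        = ε * (D.N / π ^ 2) := by field_simp; ring
    rw [this]; positivity
  filter_upwards [h1.eventually (lt_mem_nhds h2), circle_growth, near_one] with r h3 h4 h5
  have hJ : 0 < Jr r := lt_of_lt_of_le (Real.exp_pos _) h4
  have h6 := hlow r (by linarith [h5.1]) h5.2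
  have h7 : ((2 * π)⁻¹ * (2 * D.N * (D.bInt w r / Jr r) - K * (eX r / Jr r))
      - (e - ε) * (D.T r / Jr r)) * Jr r
      = (2 * π)⁻¹ * (2 * D.N * D.bInt w r - K * eX r) - (e - ε) * D.T r := by
    field_simp
  have h8 := mul_pos h3 hJ
  rw [h7] at h8
  have h9 := mul_le_mul_of_nonneg_left h6 (by positivity : 0 ≤ (2 * π)⁻¹)
  linarith

/-- radii -/
noncomputable def rn (n : ℕ) : ℝ := 1 - ((π * ((n : ℝ) - 2)) ^ 2)⁻¹

lemma XX_rn {n : ℕ} (hn : 3 ≤ n) : XX (rn n) = π * ((n : ℝ) - 2) := by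
  have hpi := Real.pi_pos
  have h1 : (3 : ℝ) ≤ n := by exact_mod_cast hn
  unfold XX rn
  rw [sub_sub_cancel, Real.sqrt_inv, inv_inv, Real.sqrt_sq]
  nlinarith

lemma tendsto_rn : Tendsto rn atTop (𝓝[<] 1) := by
  have hpi := Real.pi_pos
  have h0 : Tendsto (fun n : ℕ => π * ((n : ℝ) - 2)) atTop atTop :=
    (tendsto_atTop_add_const_right atTop (-2 : ℝ) tendsto_natCast_atTop_atTop).const_mul_atTop hpi
  have h1 : Tendsto (fun n : ℕ => ((π * ((n : ℝ) - 2)) ^ 2)⁻¹) atTop (𝓝 0) :=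
    tendsto_inv_atTop_zero.comp ((tendsto_pow_atTop (by norm_num)).comp h0)
  rw [tendsto_nhdsWithin_iff]
  constructor
  · have := h1.const_sub 1
    rw [sub_zero] at this
    exact this
  · filter_upwards [h0.eventually (eventually_gt_atTop 0)] with n hn
    have : 0 < ((π * ((n : ℝ) - 2)) ^ 2)⁻¹ := by positivity
    show rn n < 1
    unfold rn
    linarith

open Classical in
lemma upper_freq (w : Option ℂ) (e : ℝ) {C : ℝ} (hC : 0 ≤ C)
    (hgood : ∃ᶠ n : ℕ in atTop, D.Sep w n C)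
    (hL : Tendsto (fun K : ℕ => (({i ∈ Finset.range K | D.L i = w} : Finset ℕ).card : ℝ) / K)
        atTop (𝓝 (e / 2))) {ε : ℝ} (hε : 0 < ε) :
    ∃ᶠ r in 𝓝[<] (1 : ℝ), (2 * π)⁻¹ * ∫ θ in (0 : ℝ)..(2 * π), mfv w (D.v (xc r θ))
      ≤ (e + ε) * D.T r := by
  obtain ⟨K, hK, hup⟩ := D.upper_int w hC
  have hpi := Real.pi_pos
  have hN := D.hN
  have h1 : Tendsto (fun r => (e + ε) * (D.T r / Jr r)
      - (2 * π)⁻¹ * (2 * D.N * (D.bInt w r / Jr r) + K * (eX r / Jr r))) (𝓝[<] 1)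
      (𝓝 ((e + ε) * (D.N / π ^ 2) - (2 * π)⁻¹ * (2 * D.N * (e / π) + K * 0))) :=
    (D.T_div_J.const_mul (e + ε)).sub
    ((((D.b_div_J w e hL).const_mul (2 * D.N)).add (eX_div_J.const_mul K)).const_mul
      (2 * π)⁻¹)
  have h2 : (0 : ℝ) < (e + ε) * (D.N / π ^ 2) - (2 * π)⁻¹ * (2 * D.N * (e / π) + K * 0) := by
    have : (e + ε) * (D.N / π ^ 2) - (2 * π)⁻¹ * (2 * D.N * (e / π) + K * 0)
        = ε * (D.N / π ^ 2) := by field_simp; ring
    rw [this]; positivity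
  have h10 : ∃ᶠ r in 𝓝[<] (1 : ℝ), ∃ n : ℕ, XX r / π + 2 ≤ n ∧ (n : ℝ) ≤ XX r + 3 ∧ D.Sep w n C := by
    apply tendsto_rn.frequently
    apply (hgood.and_eventually (eventually_ge_atTop 3)).mono
    rintro n ⟨hn1, hn2⟩
    refine ⟨n, ?_, ?_, hn1⟩
    · rw [XX_rn hn2]
      have : π * ((n : ℝ) - 2) / π + 2 = n := by field_simp; ring
      exact this.le
    · rw [XX_rn hn2]
      have h1 : (3 : ℝ) ≤ n := by exact_mod_cast hn2
      nlinarith [Real.pi_gt_three]
  apply ((h10.and_eventually (h1.eventually (lt_mem_nhds h2))).and_eventually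
    (circle_growth.and near_one)).mono
  rintro r ⟨⟨⟨n, hn1, hn2, hn3⟩, h3⟩, h4, h5⟩
  have hJ : 0 < Jr r := lt_of_lt_of_le (Real.exp_pos _) h4
  have h6 := hup r n h5.1 h5.2 hn1 hn2 hn3
  have h7 : ((e + ε) * (D.T r / Jr r)
      - (2 * π)⁻¹ * (2 * D.N * (D.bInt w r / Jr r) + K * (eX r / Jr r))) * Jr r
      = (e + ε) * D.T r - (2 * π)⁻¹ * (2 * D.N * D.bInt w r + K * eX r) := by
    field_simp
  have h8 := mul_pos h3 hJ
  rw [h7] at h8
  have h9 := mul_le_mul_of_nonneg_left h6 (by positivity : 0 ≤ (2 * π)⁻¹)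
  linarith

end Data

/-- The main theorem, in the form of the frozen statement. -/
theorem main :
    ∀ (a : ℕ → Option ℂ) (d : ℕ → ℝ), Function.Injective a →
      (∀ n, 0 ≤ d n ∧ d n ≤ 1) → Summable d → ∑' n, d n ≤ 2 →
      ∃ f : ℂ → ℂ, MeromorphicOn f (Metric.ball (0 : ℂ) 1) ∧
        (∀ M : ℝ, ∃ᶠ r in 𝓝[<] (1 : ℝ),
          M * Real.log (1 / (1 - r)) ≤
            ∫ t in (0 : ℝ)..r,
              (1 / Real.pi * ∫ z in Metric.ball (0 : ℂ) t,
                (‖deriv f z‖ / (1 + ‖f z‖ ^ 2)) ^ 2) / t) ∧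
        ∀ (b : Option ℂ) (e : ℝ),
          ((∃ n, a n = b ∧ d n = e) ∨ ((∀ n, a n ≠ b) ∧ e = 0)) →
          ∀ ε : ℝ, 0 < ε →
            (∀ᶠ r in 𝓝[<] (1 : ℝ),
              (e - ε) * (∫ t in (0 : ℝ)..r,
                (1 / Real.pi * ∫ z in Metric.ball (0 : ℂ) t,
                  (‖deriv f z‖ / (1 + ‖f z‖ ^ 2)) ^ 2) / t)
              ≤ (2 * Real.pi)⁻¹ * ∫ θ in (0 : ℝ)..(2 * Real.pi),
                  (Option.elim b (fun z : ℂ => Real.posLog ‖f z‖)
                    (fun (c : ℂ) (z : ℂ) => Real.posLog ‖f z - c‖⁻¹))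
                    (circleMap 0 r θ)) ∧
            (∃ᶠ r in 𝓝[<] (1 : ℝ),
              (2 * Real.pi)⁻¹ * ∫ θ in (0 : ℝ)..(2 * Real.pi),
                  (Option.elim b (fun z : ℂ => Real.posLog ‖f z‖)
                    (fun (c : ℂ) (z : ℂ) => Real.posLog ‖f z - c‖⁻¹))
                    (circleMap 0 r θ)
              ≤ (e + ε) * (∫ t in (0 : ℝ)..r,
                (1 / Real.pi * ∫ z in Metric.ball (0 : ℂ) t,
                  (‖deriv f z‖ / (1 + ‖f z‖ ^ 2)) ^ 2) / t)) := by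
  intro a d ha hd hs hsum
  obtain ⟨L, C, hadj, hsep, hdens, hdens0⟩ := exists_labels a d ha hd hs hsum
  obtain ⟨D, hD⟩ := exists_data L C hadj hsep
  refine ⟨D.f, D.mero_f, fun M => (D.T_growth M).frequently, ?_⟩
  intro b e hbe ε hε
  have hL : Tendsto (fun K : ℕ => (({i ∈ Finset.range K | D.L i = b} : Finset ℕ).card : ℝ) / K)
        atTop (𝓝 (e / 2)) := by
    rw [hD]
    rcases hbe with ⟨n, rfl, rfl⟩ | ⟨h1, rfl⟩
    · exact hdens n
    · have := hdens0 b h1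
      rwa [zero_div]
  have hL' := hL
  have hmf : ∀ (r : ℝ), (∫ θ in (0 : ℝ)..(2 * Real.pi),
                  (Option.elim b (fun z : ℂ => Real.posLog ‖D.f z‖)
                    (fun (c : ℂ) (z : ℂ) => Real.posLog ‖D.f z - c‖⁻¹))
                    (circleMap 0 r θ)) = ∫ θ in (0 : ℝ)..(2 * π), mfv b (D.v (xc r θ)) := by
    intro r
    cases b <;> rfl
  set C' : ℝ := max C 0 with hC'
  have hgood : ∃ᶠ n : ℕ in atTop, D.Sep b n C' := by
    have hsep' : ∀ k i j : ℕ, i ≤ k → j ≤ k → L i ≠ L j →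
        Real.exp (-(k + C')) ≤ ‖det2 (vec (L i)) (vec (L j))‖ := by
      intro k i j hi hj hij
      refine le_trans ?_ (hsep k i j hi hj hij)
      apply Real.exp_le_exp.mpr
      have : C ≤ C' := le_max_left _ _
      linarith
    have := good_radii L C' hsep' b
    unfold Data.Sep
    rw [hD]
    exact this
  constructor
  · have h1 := D.lower_ev b e (by convert hL using 6) hε
    filter_upwards [h1] with r hr
    rw [hmf r]
    exact hr
  · have h1 := D.upper_freq b e (le_max_right C 0) hgood (by convert hL using 6) hε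
    apply h1.mono
    intro r hr
    rw [hmf r]
    exact hr

end IDP
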